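import Mathlib
import Pool.Agent.H89.CZ.HB
import Pool.Agent.H89.CZ.Defs

set_option autoImplicit false

/-!
# Project NI (MP_6cdc09_gt): definitions

Aim.  For `2 ≤ i ≤ 2n - 2` there are an orthonormal `i`-frame `e0` of `ℂⁿ` and `ε > 0` such that
for every real subspace `E` with a real orthonormal basis `e`, `‖e a - e0 a‖ < ε`, the
Brunn-Minkowski inequality for `V_E` holds on zonoids.

Way.  `gg e w = ∫ |det ⟨φ e_a, w_b⟩| dφ`, `dz w z = det (⟨w_a, w_b⟩ + z om(w_a, w_b))`.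
(1) `gg e w √GG(w) = ∑_{k,l ≤ i/2} Γ k l dz e k dz w l` for orthonormal `e` (module `Str`).
(2) For the frame `ef c` with suitable Kähler angles `c` (zeros of a Gegenbauer
polynomial) `gg (ef c) w = C0 √GG(w)` (module `Cst`).  Dimensions `i > n`: by orthogonal
complements (modules `Dua`, `Ext`).
(3) So for `e` near this frame: `gg e w = C0 √GG(w) + ∑ η_l dz w l / √GG(w)` with small `η_l`; the
kernel is still Lorentzian (modules `Per`, `Hyp`); trickle-down.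
-/

open MeasureTheory Pool.Agent.H61.UProj Pool.Agent.H89.CZ

noncomputable section

namespace Pool.Agent.H35.NI

variable {n i : ℕ}

/-- `det ⟨x_a, y_b⟩` for the real inner product. -/
def DD (x y : Fin i → Cn n) : ℝ := (Matrix.of fun a b => (inner ℝ (x a) (y b) : ℝ)).det

/-- Gram determinant. -/
def GG (w : Fin i → Cn n) : ℝ := DD w w

/-- `∫ |⟨φ(e_0 ∧ …), w_0 ∧ …⟩| dφ`. -/
def gg (e w : Fin i → Cn n) : ℝ := ∫ φ, |DD (fun a => uni φ (e a)) w| ∂(haarU n)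

/-- `det (⟨w_a, w_b⟩ + z om(w_a, w_b))`. -/
def dz (w : Fin i → Cn n) (z : ℝ) : ℝ :=
  (Matrix.of fun a b => (inner ℝ (w a) (w b) : ℝ) + z * om (w a) (w b)).det

/-- Standard frame with Kähler cosines `c 0, c 1, …` (all coordinates `< i ≤ n`):
`s_0, c_0 i s_0 + √(1 - c_0²) s_1, s_2, c_1 i s_2 + √(1 - c_1²) s_3, …`. -/
def ef (hin : i ≤ n) (c : ℕ → ℝ) (a : Fin i) : Cn n :=
  if (a : ℕ) % 2 = 0 then EuclideanSpace.single (Fin.castLE hin a) (1 : ℂ)
  else EuclideanSpace.single (⟨(a : ℕ) - 1, by omega⟩ : Fin n) ((c ((a : ℕ) / 2) : ℂ) * Complex.I) +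
    EuclideanSpace.single (Fin.castLE hin a) ((√(1 - c ((a : ℕ) / 2) ^ 2) : ℝ) : ℂ)

/-- The coefficient of `y^i` in `(1 + 2 y + q y²)^n`. -/
def AA (n i : ℕ) (q : ℝ) : ℝ :=
  ∑ j ∈ Finset.range (i / 2 + 1), (n.choose j : ℝ) * ((n - j).choose (i - 2 * j) : ℝ) *
    2 ^ (i - 2 * j) * q ^ j

/-- `e` and `e'` are orthonormal bases of orthogonal subspaces (complements of each other if
`i + j = 2n`). -/
def Cpl {i j : ℕ} (e : Fin i → Cn n) (e' : Fin j → Cn n) : Prop :=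
  Orthonormal ℝ e ∧ Orthonormal ℝ e' ∧ ∀ a b, (inner ℝ (e a) (e' b) : ℝ) = 0

/-- `B(x, y, C) = det` of the matrix with rows `x, y, C_0, …`. -/
def BC {m : ℕ} (C : Fin m → Fin (m + 2) → ℝ) (x y : Fin (m + 2) → ℝ) : ℝ :=
  (Matrix.of (Fin.cons x (Fin.cons y C : Fin (m + 1) → Fin (m + 2) → ℝ) :
    Fin (m + 2) → Fin (m + 2) → ℝ)).det

end Pool.Agent.H35.NI
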