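import Mathlib
import Pool.Agent.H35.NI.Defs
import Pool.Agent.H89.CZ.NF0

set_option autoImplicit false

/-!
# Lin: linear algebra of frames
-/

open MeasureTheory Pool.Agent.H61.UProj Pool.Agent.H89.CZ

noncomputable section

namespace Pool.Agent.H35.NI

variable {n i : ℕ}

theorem DD_comm (x y : Fin i → Cn n) : DD x y = DD y x := by
  unfold DD
  rw [← Matrix.det_transpose]
  congr 1
  ext a b
  simp only [Matrix.transpose_apply, Matrix.of_apply]
  exact real_inner_comm _ _

theorem DD_uni (φ : Un n) (x y : Fin i → Cn n) :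
    DD (fun a => uni φ (x a)) (fun a => uni φ (y a)) = DD x y := by
  unfold DD
  congr 1
  ext a b
  simp only [Matrix.of_apply, LinearIsometry.inner_map_map]

theorem dz_uni (φ : Un n) (x : Fin i → Cn n) (z : ℝ) : dz (fun a => uni φ (x a)) z = dz x z := by
  unfold dz
  congr 1
  ext a b
  simp only [Matrix.of_apply, LinearIsometry.inner_map_map, om_uni]

theorem dz_zero (w : Fin i → Cn n) : dz w 0 = GG w := by
  unfold dz GG DD
  congr 1
  ext a b
  simp

theorem DD_comb {x x' : Fin i → Cn n} {R : Matrix (Fin i) (Fin i) ℝ}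
    (h : ∀ a, x a = ∑ b, R a b • x' b) (y : Fin i → Cn n) : DD x y = R.det * DD x' y := by
  unfold DD
  rw [← Matrix.det_mul]
  congr 1
  ext a b
  simp only [Matrix.of_apply, Matrix.mul_apply]
  rw [h a, sum_inner]
  refine Finset.sum_congr rfl fun c _ => ?_
  rw [real_inner_smul_left]

private theorem om_sum_left {ι : Type*} (s : Finset ι) (r : ι → ℝ) (x : ι → Cn n) (y : Cn n) :
    om (∑ b ∈ s, r b • x b) y = ∑ b ∈ s, r b * om (x b) y := by
  classical
  induction s using Finset.induction_on with
  | empty => simp [om]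
  | insert a s ha ih =>
    rw [Finset.sum_insert ha, Finset.sum_insert ha, om_add_left, om_smul_left, ih]

private theorem om_sum_right {ι : Type*} (s : Finset ι) (r : ι → ℝ) (x : ι → Cn n) (y : Cn n) :
    om y (∑ b ∈ s, r b • x b) = ∑ b ∈ s, r b * om y (x b) := by
  classical
  induction s using Finset.induction_on with
  | empty => simp [om]
  | insert a s ha ih =>
    rw [Finset.sum_insert ha, Finset.sum_insert ha, om_add_right, om_smul_right, ih]

theorem dz_comb {x x' : Fin i → Cn n} {R : Matrix (Fin i) (Fin i) ℝ}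
    (h : ∀ a, x a = ∑ b, R a b • x' b) (z : ℝ) : dz x z = R.det ^ 2 * dz x' z := by
  have hM : (Matrix.of fun a b => (inner ℝ (x a) (x b) : ℝ) + z * om (x a) (x b)) =
      R * (Matrix.of fun a b => (inner ℝ (x' a) (x' b) : ℝ) + z * om (x' a) (x' b)) *
        R.transpose := by
    ext a b
    simp only [Matrix.of_apply, Matrix.mul_apply, Matrix.transpose_apply]
    rw [h a, h b, sum_inner, om_sum_left, Finset.mul_sum, ← Finset.sum_add_distrib]
    simp only [inner_sum, om_sum_right, real_inner_smul_left, real_inner_smul_right,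
      Finset.mul_sum, Finset.sum_mul]
    rw [Finset.sum_comm]
    refine Finset.sum_congr rfl fun c _ => ?_
    rw [← Finset.sum_add_distrib]
    refine Finset.sum_congr rfl fun d _ => ?_
    ring
  unfold dz
  rw [hM, Matrix.det_mul, Matrix.det_mul, Matrix.det_transpose]
  ring

theorem GG_orth {f : Fin i → Cn n} (hf : Orthonormal ℝ f) : GG f = 1 := by
  have h := orthonormal_iff_ite.1 hf
  unfold GG DD
  have : (Matrix.of fun a b => (inner ℝ (f a) (f b) : ℝ)) = 1 := by
    ext a b
    simp only [Matrix.of_apply, h, Matrix.one_apply]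
  rw [this, Matrix.det_one]

theorem continuous_DD : Continuous (fun q : (Fin i → Cn n) × (Fin i → Cn n) => DD q.1 q.2) := by
  unfold DD
  refine Continuous.matrix_det ?_
  refine continuous_matrix fun a b => ?_
  simp only [Matrix.of_apply]
  exact ((continuous_apply a).comp continuous_fst).inner ((continuous_apply b).comp continuous_snd)

theorem continuous_dz (z : ℝ) : Continuous (fun w : Fin i → Cn n => dz w z) := by
  unfold dz
  refine Continuous.matrix_det ?_
  refine continuous_matrix fun a b => ?_
  simp only [Matrix.of_apply]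
  refine Continuous.add ((continuous_apply a).inner (continuous_apply b)) ?_
  refine continuous_const.mul ?_
  have h1 : Continuous (fun w : Fin i → Cn n => ((w a, w b) : Cn n × Cn n)) :=
    (continuous_apply a).prodMk (continuous_apply b)
  exact Continuous.comp (g := fun q : Cn n × Cn n => om q.1 q.2) continuous_om h1

private theorem DD_dep {w : Fin i → Cn n} (h : ¬ LinearIndependent ℝ w) (x : Fin i → Cn n) :
    DD x w = 0 := by
  rw [Fintype.not_linearIndependent_iff] at h
  obtain ⟨g, hg, k, hk⟩ := h
  unfold DD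
  rw [← Matrix.exists_mulVec_eq_zero_iff]
  refine ⟨g, fun h0 => hk (congrFun h0 k), ?_⟩
  ext a
  simp only [Matrix.mulVec, dotProduct, Matrix.of_apply, Pi.zero_apply]
  have h1 : ∑ b, (inner ℝ (x a) (w b) : ℝ) * g b = inner ℝ (x a) (∑ b, g b • w b) := by
    rw [inner_sum]
    refine Finset.sum_congr rfl fun b _ => ?_
    rw [real_inner_smul_right, mul_comm]
  rw [h1, hg, inner_zero_right]

private theorem dz_dep {w : Fin i → Cn n} (h : ¬ LinearIndependent ℝ w) (z : ℝ) :
    dz w z = 0 := by
  rw [Fintype.not_linearIndependent_iff] at h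
  obtain ⟨g, hg, k, hk⟩ := h
  unfold dz
  rw [← Matrix.exists_mulVec_eq_zero_iff]
  refine ⟨g, fun h0 => hk (congrFun h0 k), ?_⟩
  ext a
  simp only [Matrix.mulVec, dotProduct, Matrix.of_apply, Pi.zero_apply]
  have h1 : ∑ b, ((inner ℝ (w a) (w b) : ℝ) + z * om (w a) (w b)) * g b =
      inner ℝ (w a) (∑ b, g b • w b) + z * om (w a) (∑ b, g b • w b) := by
    rw [inner_sum, om_sum_right, Finset.mul_sum, ← Finset.sum_add_distrib]
    refine Finset.sum_congr rfl fun b _ => ?_
    rw [real_inner_smul_right]
    ring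
  rw [h1, hg, inner_zero_right]
  simp [om]

private theorem frame_aux {w f : Fin i → Cn n} (hf : Orthonormal ℝ f)
    {R : Matrix (Fin i) (Fin i) ℝ} (h : ∀ a, w a = ∑ b, R a b • f b) (hR : 0 < R.det) :
    ∃ (f : Fin i → Cn n) (t : ℝ), Orthonormal ℝ f ∧ 0 < t ∧ GG w = t ^ 2 ∧
        (∀ x, DD x w = t * DD x f) ∧ (∀ z, dz w z = t ^ 2 * dz f z) := by
  refine ⟨f, R.det, hf, hR, ?_, ?_, ?_⟩
  · have h1 := dz_comb h 0
    rw [dz_zero, dz_zero, GG_orth hf, mul_one] at h1
    exact h1
  · intro x
    rw [DD_comm, DD_comb h, DD_comm]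
  · exact dz_comb h

theorem frame (hi : 0 < i) (w : Fin i → Cn n) :
    (GG w = 0 ∧ (∀ x, DD x w = 0) ∧ (∀ z, dz w z = 0)) ∨
      ∃ (f : Fin i → Cn n) (t : ℝ), Orthonormal ℝ f ∧ 0 < t ∧ GG w = t ^ 2 ∧
        (∀ x, DD x w = t * DD x f) ∧ (∀ z, dz w z = t ^ 2 * dz f z) := by
  by_cases hw : LinearIndependent ℝ w
  · set S := Submodule.span ℝ (Set.range w) with hS
    have hfr : Module.finrank ℝ S = i := by
      rw [hS, finrank_span_eq_card hw, Fintype.card_fin]
    set b := (stdOrthonormalBasis ℝ S).reindex (finCongr hfr) with hb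
    set f : Fin i → Cn n := fun j => (b j : Cn n) with hfd
    have hf : Orthonormal ℝ f := b.orthonormal.comp_linearIsometry S.subtypeₗᵢ
    have hwS : ∀ k, w k ∈ S := fun k => Submodule.subset_span ⟨k, rfl⟩
    set R : Matrix (Fin i) (Fin i) ℝ :=
      Matrix.of fun k j => (inner ℝ (b j) (⟨w k, hwS k⟩ : S) : ℝ) with hR
    have hwR : ∀ k, w k = ∑ j, R k j • f j := by
      intro k
      have h1 := b.sum_repr' (⟨w k, hwS k⟩ : S)
      have h2 := congrArg (fun x : S => (x : Cn n)) h1
      simp only [Submodule.coe_sum, Submodule.coe_smul] at h2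
      exact h2.symm
    rcases lt_trichotomy R.det 0 with hd | hd | hd
    · right
      set s : Fin i → ℝ := fun a => if a = ⟨0, hi⟩ then -1 else 1 with hs
      have hss : ∀ a, s a * s a = 1 := by
        intro a
        simp only [hs]
        split_ifs <;> norm_num
      have hf' : Orthonormal ℝ (fun a => s a • f a) := by
        rw [orthonormal_iff_ite]
        intro a c
        rw [real_inner_smul_left, real_inner_smul_right, orthonormal_iff_ite.1 hf]
        split_ifs with hac
        · rw [hac, mul_one, hss]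
        · simp
      have hprod : ∏ a, s a = -1 := by
        rw [Finset.prod_eq_single (⟨0, hi⟩ : Fin i)]
        · simp [hs]
        · intro a _ ha
          simp [hs, ha]
        · intro h
          exact absurd (Finset.mem_univ _) h
      refine frame_aux (w := w) hf' (R := R * Matrix.diagonal s) ?_ ?_
      · intro a
        rw [hwR a]
        refine Finset.sum_congr rfl fun c _ => ?_
        rw [Matrix.mul_diagonal, smul_smul, mul_assoc, hss, mul_one]
      · rw [Matrix.det_mul, Matrix.det_diagonal, hprod]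
        linarith
    · left
      refine ⟨?_, ?_, ?_⟩
      · have h1 := dz_comb hwR 0
        rw [dz_zero, hd] at h1
        simpa using h1
      · intro x
        rw [DD_comm, DD_comb hwR, hd, zero_mul]
      · intro z
        rw [dz_comb hwR, hd]
        simp
    · right
      exact frame_aux hf hwR hd
  · left
    exact ⟨DD_dep hw w, DD_dep hw, dz_dep hw⟩

theorem gg_nonneg (e w : Fin i → Cn n) : 0 ≤ gg e w :=
  integral_nonneg fun _ => abs_nonneg _

private theorem cont_DD (e w : Fin i → Cn n) :
    Continuous (fun φ : Un n => |DD (fun a => uni φ (e a)) w|) := by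
  refine Continuous.abs ?_
  have h1 : Continuous (fun φ : Un n => ((fun a => uni φ (e a), w) :
      (Fin i → Cn n) × (Fin i → Cn n))) :=
    (continuous_pi fun a => continuous_uni (e a)).prodMk continuous_const
  exact continuous_DD.comp h1

theorem integrable_DD (e w : Fin i → Cn n) :
    Integrable (fun φ : Un n => |DD (fun a => uni φ (e a)) w|) (haarU n) :=
  integrable_of_continuous (cont_DD e w)

theorem gg_symm (e w : Fin i → Cn n) : gg e w = gg w e := by
  unfold gg
  have h1 : ∀ φ : Un n, |DD (fun a => uni φ (e a)) w| =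
      (fun ψ : Un n => |DD (fun a => uni ψ (w a)) e|) φ⁻¹ := by
    intro φ
    have h2 : DD (fun a => uni φ (e a)) w = DD e (fun a => uni φ⁻¹ (w a)) := by
      rw [← DD_uni φ e]
      simp only [uni_uni_inv]
    simp only []
    rw [h2, DD_comm]
  simp_rw [h1]
  exact integral_inv (fun ψ : Un n => |DD (fun a => uni ψ (w a)) e|)

theorem gg_uni (ψ : Un n) (e w : Fin i → Cn n) : gg (fun a => uni ψ (e a)) w = gg e w := by
  unfold gg
  simp_rw [← uni_mul]
  exact integral_mulRight (fun φ : Un n => |DD (fun a => uni φ (e a)) w|) ψ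

theorem gg_comb {e e' : Fin i → Cn n} {R : Matrix (Fin i) (Fin i) ℝ}
    (h : ∀ a, e a = ∑ b, R a b • e' b) (w : Fin i → Cn n) : gg e w = |R.det| * gg e' w := by
  unfold gg
  rw [← integral_const_mul]
  refine integral_congr_ae (Filter.Eventually.of_forall fun φ => ?_)
  simp only []
  have h1 : ∀ a, uni φ (e a) = ∑ b, R a b • uni φ (e' b) := by
    intro a
    rw [h a, map_sum]
    refine Finset.sum_congr rfl fun b _ => ?_
    rw [map_smul]
  rw [DD_comb h1, abs_mul]

theorem gg_self_pos {e : Fin i → Cn n} (he : Orthonormal ℝ e) : 0 < gg e e := by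
  unfold gg
  refine (cont_DD e e).integral_pos_of_hasCompactSupport_nonneg_nonzero
    (HasCompactSupport.of_compactSpace _) (fun _ => abs_nonneg _) (x := 1) ?_
  simp only [uni_one]
  have h1 := GG_orth he
  unfold GG at h1
  rw [h1]
  simp

end Pool.Agent.H35.NI
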