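import Mathlib
import Pool.Agent.H35.NI.Lin

set_option autoImplicit false

/-!
# NFu: families with the same complex Gram matrix differ by a unitary map

The map `∑ x_a f_a ↦ ∑ x_a e_a` is a well defined linear isometry from the complex span of `f` to
`ℂⁿ` (norms are given by the Gram matrices); extend it to `ℂⁿ` (`LinearIsometry.extend`), take the
matrix of this isometry (as `M3_uni_basis` in `H35/T3/Mean3.lean`: the image of the standard basis
is an orthonormal basis).
-/

open MeasureTheory Pool.Agent.H61.UProj Pool.Agent.H89.CZ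

noncomputable section

namespace Pool.Agent.H35.NI

variable {n i : ℕ}

private theorem NFu_inner {e f : Fin i → Cn n}
    (h : ∀ a b, (inner ℂ (e a) (e b) : ℂ) = inner ℂ (f a) (f b)) (x y : Fin i → ℂ) :
    (inner ℂ (∑ a, x a • e a) (∑ a, y a • e a) : ℂ) =
      inner ℂ (∑ a, x a • f a) (∑ a, y a • f a) := by
  rw [sum_inner, sum_inner]
  refine Finset.sum_congr rfl fun a _ => ?_
  rw [inner_sum, inner_sum]
  refine Finset.sum_congr rfl fun b _ => ?_
  rw [inner_smul_left, inner_smul_right, inner_smul_left, inner_smul_right, h]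

private theorem NFu_norm {e f : Fin i → Cn n}
    (h : ∀ a b, (inner ℂ (e a) (e b) : ℂ) = inner ℂ (f a) (f b)) (x : Fin i → ℂ) :
    ‖∑ a, x a • e a‖ = ‖∑ a, x a • f a‖ := by
  have h1 := NFu_inner h x x
  rw [inner_self_eq_norm_sq_to_K, inner_self_eq_norm_sq_to_K] at h1
  have h2 : ‖∑ a, x a • e a‖ ^ 2 = ‖∑ a, x a • f a‖ ^ 2 := by exact_mod_cast h1
  exact (sq_eq_sq₀ (norm_nonneg _) (norm_nonneg _)).1 h2

private theorem NFu_ext {e f : Fin i → Cn n}
    (h : ∀ a b, (inner ℂ (e a) (e b) : ℂ) = inner ℂ (f a) (f b)) :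
    ∃ E : Cn n →ₗᵢ[ℂ] Cn n, ∀ a, E (f a) = e a := by
  classical
  let Tf : (Fin i → ℂ) →ₗ[ℂ] Cn n := Fintype.linearCombination ℂ f
  let Te : (Fin i → ℂ) →ₗ[ℂ] Cn n := Fintype.linearCombination ℂ e
  have hTf : ∀ x, Tf x = ∑ a, x a • f a := fun x => Fintype.linearCombination_apply ℂ f x
  have hTe : ∀ x, Te x = ∑ a, x a • e a := fun x => Fintype.linearCombination_apply ℂ e x
  have hn : ∀ x, ‖Te x‖ = ‖Tf x‖ := fun x => by rw [hTe, hTf, NFu_norm h]
  have hker : LinearMap.ker Tf ≤ LinearMap.ker Te := by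
    intro x hx
    rw [LinearMap.mem_ker] at hx ⊢
    rw [← norm_eq_zero, hn, hx, norm_zero]
  let L0 : LinearMap.range Tf →ₗ[ℂ] Cn n :=
    ((LinearMap.ker Tf).liftQ Te hker).comp Tf.quotKerEquivRange.symm.toLinearMap
  have hL0 : ∀ (x : Fin i → ℂ) (hx : Tf x ∈ LinearMap.range Tf), L0 ⟨Tf x, hx⟩ = Te x := by
    intro x hx
    have h1 : Tf.quotKerEquivRange.symm ⟨Tf x, hx⟩ = (LinearMap.ker Tf).mkQ x := by
      rw [LinearEquiv.symm_apply_eq]
      ext1
      rfl
    show ((LinearMap.ker Tf).liftQ Te hker) (Tf.quotKerEquivRange.symm ⟨Tf x, hx⟩) = Te x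
    rw [h1, Submodule.mkQ_apply, Submodule.liftQ_apply]
  let L : LinearMap.range Tf →ₗᵢ[ℂ] Cn n :=
    ⟨L0, by
      rintro ⟨y, hy⟩
      obtain ⟨x, rfl⟩ := hy
      have h1 := hL0 x (LinearMap.mem_range_self Tf x)
      exact (congrArg norm h1).trans (hn x)⟩
  refine ⟨L.extend, fun a => ?_⟩
  have hfa : Tf (Pi.single a 1) = f a := by
    rw [hTf, Finset.sum_eq_single a]
    · simp
    · intro b _ hb
      simp [hb]
    · simp
  have hea : Te (Pi.single a 1) = e a := by
    rw [hTe, Finset.sum_eq_single a]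
    · simp
    · intro b _ hb
      simp [hb]
    · simp
  have h1 := L.extend_apply ⟨Tf (Pi.single a 1), LinearMap.mem_range_self Tf _⟩
  have h2 : L ⟨Tf (Pi.single a 1), LinearMap.mem_range_self Tf _⟩ = Te (Pi.single a 1) := hL0 _ _
  rw [h2, hea] at h1
  rw [← hfa]
  exact h1

private theorem NFu_mat (E : Cn n →ₗᵢ[ℂ] Cn n) : ∃ φ : Un n, ∀ x, uni φ x = E x := by
  classical
  let s : Fin n → Cn n := fun j => EuclideanSpace.single j 1
  let M : Matrix (Fin n) (Fin n) ℂ := fun l j => E (s j) l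
  have hs : Orthonormal ℂ s := EuclideanSpace.orthonormal_single
  have hMM : M.conjTranspose * M = 1 := by
    ext i j
    rw [Matrix.mul_apply, Matrix.one_apply]
    have h2 : inner ℂ (E (s i)) (E (s j)) = if i = j then (1 : ℂ) else 0 := by
      rw [E.inner_map_map]
      exact orthonormal_iff_ite.1 hs i j
    rw [← h2, PiLp.inner_apply]
    refine Finset.sum_congr rfl fun l _ => ?_
    rw [RCLike.inner_apply, Matrix.conjTranspose_apply, mul_comm]
    rfl
  refine ⟨⟨M, Matrix.mem_unitaryGroup_iff'.2 hMM⟩, fun x => ?_⟩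
  have hx : x = ∑ j, x j • s j := by
    ext l
    simp [s, Finset.sum_apply, Pi.single_apply]
  have h3 : E x = ∑ j, x j • E (s j) := by
    conv_lhs => rw [hx]
    rw [map_sum]
    refine Finset.sum_congr rfl fun j _ => ?_
    rw [map_smul]
  rw [h3]
  ext l
  rw [uni_apply]
  simp [M, mul_comm]

theorem uni_of_gram {e f : Fin i → Cn n}
    (h : ∀ a b, (inner ℂ (e a) (e b) : ℂ) = inner ℂ (f a) (f b)) :
    ∃ ψ : Un n, ∀ a, e a = uni ψ (f a) := by
  obtain ⟨E, hE⟩ := NFu_ext h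
  obtain ⟨ψ, hψ⟩ := NFu_mat E
  exact ⟨ψ, fun a => by rw [hψ, hE]⟩

end Pool.Agent.H35.NI
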