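import Mathlib

set_option autoImplicit false

/-!
# NFa: real normal form of an antisymmetric matrix

Proof: strong induction on the dimension for a skew-adjoint `A` on a real inner product space `E`.
If `A = 0` take any orthonormal basis.  Otherwise the symmetric map `A²` has an orthonormal basis of
eigenvectors and `A x ≠ 0` for one of them; `c = ‖A x‖`, `y = -A x / c`: `A x = -c y`, `A y = c x`,
and `A` maps the orthogonal complement of `x, y` to itself.
-/

noncomputable section

namespace Pool.Agent.H35.NI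

/-- the normal form -/
private def pt (c : ℕ → ℝ) (a b : ℕ) : ℝ :=
  if a % 2 = 0 ∧ b = a + 1 then c (a / 2)
  else if b % 2 = 0 ∧ a = b + 1 then -c (b / 2) else 0

private theorem pt_succ (c : ℕ → ℝ) (a b : ℕ) :
    pt c (a + 2) (b + 2) = pt (fun j => c (j + 1)) a b := by
  unfold pt
  have h1 : ((a + 2) % 2 = 0 ∧ b + 2 = a + 2 + 1) ↔ (a % 2 = 0 ∧ b = a + 1) := by omega
  have h2 : ((b + 2) % 2 = 0 ∧ a + 2 = b + 2 + 1) ↔ (b % 2 = 0 ∧ a = b + 1) := by omega
  have h3 : (a + 2) / 2 = a / 2 + 1 := by omega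
  have h4 : (b + 2) / 2 = b / 2 + 1 := by omega
  rw [if_congr h1 rfl rfl, if_congr h2 rfl rfl, h3, h4]

private theorem pt_zero (a b : ℕ) : pt (fun _ => 0) a b = 0 := by
  unfold pt
  split_ifs <;> simp

private theorem exists_pair {E : Type} [NormedAddCommGroup E] [InnerProductSpace ℝ E]
    [FiniteDimensional ℝ E] (A : E →ₗ[ℝ] E) (hA : ∀ x y, (inner ℝ (A x) y : ℝ) = -inner ℝ x (A y))
    (h0 : A ≠ 0) : ∃ (x y : E) (c : ℝ), 0 ≤ c ∧ ‖x‖ = 1 ∧ ‖y‖ = 1 ∧ (inner ℝ x y : ℝ) = 0 ∧
      A x = -(c • y) ∧ A y = c • x := by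
  have hS : (A ∘ₗ A).IsSymmetric := by
    intro x y
    simp only [LinearMap.comp_apply]
    rw [hA, hA, neg_neg]
  have hn : Module.finrank ℝ E = Module.finrank ℝ E := rfl
  let b := hS.eigenvectorBasis hn
  obtain ⟨j, hj⟩ : ∃ j, A (b j) ≠ 0 := by
    by_contra hcon
    push Not at hcon
    apply h0
    refine b.toBasis.ext fun j => ?_
    simpa using hcon j
  have hxx : ∀ x : E, (inner ℝ x (A x) : ℝ) = 0 := by
    intro x
    have h1 := hA x x
    rw [real_inner_comm] at h1
    linarith
  have hev : A (A (b j)) = (hS.eigenvalues hn j) • b j := by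
    have h := hS.apply_eigenvectorBasis hn j
    simpa only [LinearMap.comp_apply, RCLike.ofReal_real_eq_id, id] using h
  have hb : ‖b j‖ = 1 := b.orthonormal.1 j
  have hc : 0 < ‖A (b j)‖ := norm_pos_iff.2 hj
  have hμ : hS.eigenvalues hn j = -‖A (b j)‖ ^ 2 := by
    have h1 := hA (A (b j)) (b j)
    rw [hev, inner_smul_left, real_inner_self_eq_norm_sq, real_inner_self_eq_norm_sq, hb] at h1
    simpa using h1
  refine ⟨b j, -(‖A (b j)‖⁻¹ • A (b j)), ‖A (b j)‖, hc.le, hb, ?_, ?_, ?_, ?_⟩
  · rw [norm_neg, norm_smul, norm_inv, norm_norm, inv_mul_cancel₀ hc.ne']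
  · rw [inner_neg_right, inner_smul_right, hxx, mul_zero, neg_zero]
  · rw [smul_neg, neg_neg, smul_smul, mul_inv_cancel₀ hc.ne', one_smul]
  · rw [map_neg, map_smul, hev, hμ, smul_smul, ← neg_smul]
    congr 1
    field_simp

private theorem main (N : ℕ) : ∀ (E : Type) [NormedAddCommGroup E] [InnerProductSpace ℝ E]
    [FiniteDimensional ℝ E], Module.finrank ℝ E = N → ∀ (A : E →ₗ[ℝ] E),
    (∀ x y, (inner ℝ (A x) y : ℝ) = -inner ℝ x (A y)) →
    ∃ (r : Fin N → E) (c : ℕ → ℝ), Orthonormal ℝ r ∧ (∀ j, 0 ≤ c j) ∧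
      (∀ j, N / 2 ≤ j → c j = 0) ∧ ∀ a b, (inner ℝ (r a) (A (r b)) : ℝ) = pt c a b := by
  induction N using Nat.strong_induction_on with
  | _ N ih =>
    intro E _ _ _ hN A hA
    by_cases h0 : A = 0
    · subst hN
      refine ⟨stdOrthonormalBasis ℝ E, fun _ => 0, (stdOrthonormalBasis ℝ E).orthonormal,
        fun _ => le_rfl, fun _ _ => rfl, fun a b => ?_⟩
      rw [h0, LinearMap.zero_apply, inner_zero_right, pt_zero]
    obtain ⟨x, y, c0, hc0, hx, hy, hxy, hAx, hAy⟩ := exists_pair A hA h0
    have hyx : (inner ℝ y x : ℝ) = 0 := by rw [real_inner_comm, hxy]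
    have hon : Orthonormal ℝ ![x, y] := by
      rw [orthonormal_iff_ite]
      intro a b
      fin_cases a <;> fin_cases b <;>
        simp [hxy, hyx, hx, hy]
    set S : Submodule ℝ E := Submodule.span ℝ (Set.range ![x, y]) with hS
    have hfS : Module.finrank ℝ S = 2 := by
      have h := finrank_span_eq_card hon.linearIndependent
      simpa using h
    have hsum := Submodule.finrank_add_finrank_orthogonal S
    obtain ⟨m, rfl⟩ : ∃ m, N = m + 2 := ⟨Module.finrank ℝ Sᗮ, by omega⟩
    have hm : Module.finrank ℝ Sᗮ = m := by omega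
    have hxS : x ∈ S := Submodule.subset_span ⟨0, rfl⟩
    have hyS : y ∈ S := Submodule.subset_span ⟨1, rfl⟩
    have hmem : ∀ z : E, (inner ℝ x z : ℝ) = 0 → (inner ℝ y z : ℝ) = 0 → z ∈ Sᗮ := by
      intro z h1 h2
      rw [Submodule.mem_orthogonal]
      intro u hu
      rw [hS] at hu
      induction hu using Submodule.span_induction with
      | mem u hu =>
        obtain ⟨k, rfl⟩ := hu
        fin_cases k
        · exact h1
        · exact h2
      | zero => exact inner_zero_left _
      | add u v _ _ hu hv => rw [inner_add_left, hu, hv, add_zero]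
      | smul t u _ hu => rw [inner_smul_left, hu, mul_zero]
    have hz : ∀ z ∈ Sᗮ, (inner ℝ x z : ℝ) = 0 ∧ (inner ℝ y z : ℝ) = 0 := fun z hz =>
      ⟨(Submodule.mem_orthogonal _ _).1 hz x hxS, (Submodule.mem_orthogonal _ _).1 hz y hyS⟩
    have hxA : ∀ z : E, (inner ℝ x (A z) : ℝ) = c0 * inner ℝ y z := by
      intro z
      have h1 := hA x z
      rw [hAx, inner_neg_left, inner_smul_left] at h1
      simp only [conj_trivial] at h1
      linarith
    have hyA : ∀ z : E, (inner ℝ y (A z) : ℝ) = -(c0 * inner ℝ x z) := by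
      intro z
      have h1 := hA y z
      rw [hAy, inner_smul_left] at h1
      simp only [conj_trivial] at h1
      linarith
    have hinv : ∀ z ∈ Sᗮ, A z ∈ Sᗮ := by
      intro z h1
      obtain ⟨h2, h3⟩ := hz z h1
      refine hmem _ ?_ ?_
      · rw [hxA, h3, mul_zero]
      · rw [hyA, h2, mul_zero, neg_zero]
    obtain ⟨r, c, hr, hc, hcz, hpt⟩ := ih m (by omega) Sᗮ hm (A.restrict hinv) (by
      intro u v
      exact hA u v)
    have hr' := orthonormal_iff_ite.1 hr
    refine ⟨Fin.cons x (Fin.cons y (fun a => (r a : E)) : Fin (m + 1) → E),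
      fun j => if j = 0 then c0 else c (j - 1), ?_, ?_, ?_, ?_⟩
    · rw [orthonormal_iff_ite]
      intro a b
      refine Fin.cases ?_ (fun a => Fin.cases ?_ (fun a => ?_) a) a <;>
        refine Fin.cases ?_ (fun b => Fin.cases ?_ (fun b => ?_) b) b
      · simp [hx]
      · simp [hxy]
      · rw [if_neg (fun h => by simpa using congrArg Fin.val h)]
        exact (hz (r b) (r b).2).1
      · simp [hyx]
      · simp [hy]
      · rw [if_neg (fun h => by simpa using congrArg Fin.val h)]
        exact (hz (r b) (r b).2).2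
      · rw [if_neg (fun h => by simpa using congrArg Fin.val h), real_inner_comm]
        exact (hz (r a) (r a).2).1
      · rw [if_neg (fun h => by simpa using congrArg Fin.val h), real_inner_comm]
        exact (hz (r a) (r a).2).2
      · have h1 := hr' a b
        simpa using h1
    · intro j
      by_cases hj : j = 0
      · simp only [hj, if_true]
        exact hc0
      · simp only [hj, if_false]
        exact hc _
    · intro j hj
      have h1 : j ≠ 0 := by omega
      simp only [h1, if_false]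
      exact hcz _ (by omega)
    · have hsh : ∀ a b : ℕ, pt (fun j => if j = 0 then c0 else c (j - 1)) (a + 2) (b + 2) =
          pt c a b := by
        intro a b
        rw [pt_succ]
        rfl
      intro a b
      refine Fin.cases ?_ (fun a => Fin.cases ?_ (fun a => ?_) a) a <;>
        refine Fin.cases ?_ (fun b => Fin.cases ?_ (fun b => ?_) b) b
      · rw [Fin.cons_zero, hxA, hyx]
        simp [pt]
      · rw [Fin.cons_zero, Fin.cons_succ, Fin.cons_zero, hxA, real_inner_self_eq_norm_sq, hy]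
        simp [pt]
      · rw [Fin.cons_zero, Fin.cons_succ, Fin.cons_succ, hxA, (hz (r b) (r b).2).2]
        simp [pt]
      · rw [Fin.cons_succ, Fin.cons_zero, Fin.cons_zero, hyA, real_inner_self_eq_norm_sq, hx]
        simp [pt]
      · rw [Fin.cons_succ, Fin.cons_zero, hyA, hxy]
        simp [pt]
      · rw [Fin.cons_succ, Fin.cons_zero, Fin.cons_succ, Fin.cons_succ, hyA,
          (hz (r b) (r b).2).1]
        simp [pt]
      · rw [Fin.cons_succ, Fin.cons_zero, Fin.cons_succ, hAx, inner_neg_right, inner_smul_right,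
          real_inner_comm, (hz (r a) (r a).2).2]
        simp [pt]
      · rw [Fin.cons_succ, Fin.cons_succ, Fin.cons_succ, Fin.cons_zero, hAy, inner_smul_right,
          real_inner_comm, (hz (r a) (r a).2).1]
        simp [pt]
      · rw [Fin.cons_succ, Fin.cons_succ, Fin.cons_succ, Fin.cons_succ]
        have h1 := hpt a b
        have h2 : ((a.succ.succ : Fin (m + 2)) : ℕ) = a + 2 := by simp
        have h3 : ((b.succ.succ : Fin (m + 2)) : ℕ) = b + 2 := by simp
        rw [h2, h3, hsh, ← h1]
        rfl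

theorem antisymm_nf (i : ℕ) (Ω : Matrix (Fin i) (Fin i) ℝ) (hΩ : Ω.transpose = -Ω) :
    ∃ (R : Matrix (Fin i) (Fin i) ℝ) (c : ℕ → ℝ), R * R.transpose = 1 ∧ (∀ j, 0 ≤ c j) ∧
      (∀ j, i / 2 ≤ j → c j = 0) ∧
      ∀ a b, (R * Ω * R.transpose) a b =
        if (a : ℕ) % 2 = 0 ∧ (b : ℕ) = a + 1 then c ((a : ℕ) / 2)
        else if (b : ℕ) % 2 = 0 ∧ (a : ℕ) = b + 1 then -c ((b : ℕ) / 2) else 0 := by
  have hA : ∀ x y : EuclideanSpace ℝ (Fin i), (inner ℝ (Matrix.toEuclideanLin Ω x) y : ℝ) =
      -inner ℝ x (Matrix.toEuclideanLin Ω y) := by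
    intro x y
    have h1 : ∀ a b, Ω a b = -Ω b a := by
      intro a b
      have h := congrFun (congrFun hΩ b) a
      rw [Matrix.transpose_apply, Matrix.neg_apply] at h
      exact h
    simp only [PiLp.inner_apply, Matrix.toLpLin_apply, Matrix.mulVec, dotProduct,
      RCLike.inner_apply, conj_trivial, Finset.mul_sum, Finset.sum_mul]
    rw [Finset.sum_comm, ← Finset.sum_neg_distrib]
    refine Finset.sum_congr rfl fun a _ => ?_
    rw [← Finset.sum_neg_distrib]
    refine Finset.sum_congr rfl fun b _ => ?_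
    rw [h1 b a]
    ring
  obtain ⟨r, c, hr, hc, hcz, hpt⟩ := main i (EuclideanSpace ℝ (Fin i)) (by simp)
    (Matrix.toEuclideanLin Ω) hA
  refine ⟨Matrix.of fun a b => r a b, c, ?_, hc, hcz, fun a b => ?_⟩
  · ext a b
    rw [Matrix.mul_apply, Matrix.one_apply, ← orthonormal_iff_ite.1 hr a b, PiLp.inner_apply]
    refine Finset.sum_congr rfl fun k _ => ?_
    rw [Matrix.transpose_apply, Matrix.of_apply, Matrix.of_apply]
    simp [mul_comm]
  · have h1 := hpt a b
    unfold pt at h1
    rw [← h1, Matrix.mul_apply, PiLp.inner_apply]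
    simp only [Matrix.mul_apply, Matrix.transpose_apply, Matrix.of_apply, Matrix.toLpLin_apply,
      Matrix.mulVec, dotProduct, RCLike.inner_apply, conj_trivial, Finset.sum_mul]
    rw [Finset.sum_comm]
    refine Finset.sum_congr rfl fun k _ => Finset.sum_congr rfl fun l _ => ?_
    ring

end Pool.Agent.H35.NI
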