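import Mathlib
import Pool.Agent.H35.NI.NFa
import Pool.Agent.H35.NI.NFu

set_option autoImplicit false

/-!
# NF: normal form of an orthonormal frame under `U(n)` and rotations of the frame

Let `Ω = om (e a) (e b)`; `antisymm_nf` gives `R`, `c`; put `e'_a = ∑ R a b e_b`: orthonormal, with
`om (e'_a) (e'_b) = (R Ω Rᵀ) a b = om (ef c a) (ef c b)` (`om_ef`); `c_j = om ≤ 1` by Cauchy-Schwarz
(`|om x y| ≤ ‖x‖ ‖y‖`).  So `e'` and `ef c` have the same complex Gram matrix (`⟨x,y⟩_ℂ = ⟨x,y⟩_ℝ ±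
i om x y`): `uni_of_gram`; `e = Rᵀ e'`.
`dz (ef hin c) z = ∏_{j < i/2} (1 + z² c_j²)`: block diagonal matrix (entries: `orthonormal_ef`,
`om_ef`); e.g. strong induction on `i` for the abstract matrix with `Matrix.det_succ_row` /
`Matrix.fromBlocks`, or `Matrix.det_blockDiagonal`.
-/

open MeasureTheory Pool.Agent.H61.UProj Pool.Agent.H89.CZ

noncomputable section

namespace Pool.Agent.H35.NI

variable {n i : ℕ}

/-- the entries of `om` on `ef` -/
private def wf (c : ℕ → ℝ) (a b : ℕ) : ℝ :=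
  if a % 2 = 0 ∧ b = a + 1 then c (a / 2)
  else if b % 2 = 0 ∧ a = b + 1 then -c (b / 2) else 0

private theorem nf_re (x y : Cn n) : (inner ℂ x y : ℂ).re = inner ℝ x y := by
  rw [PiLp.inner_apply, PiLp.inner_apply, Complex.re_sum]
  refine Finset.sum_congr rfl fun j _ => ?_
  rw [Complex.inner, RCLike.inner_apply]

private theorem ss_inner (j k : Fin n) (x y : ℂ) :
    inner ℂ (EuclideanSpace.single j x : Cn n) (EuclideanSpace.single k y) =
      if j = k then starRingEnd ℂ x * y else 0 := by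
  rw [EuclideanSpace.inner_single_left, PiLp.single_apply]
  split_ifs <;> simp

/-- the complex Gram matrix of `ef`, without a condition on `c` -/
private theorem gram_ef0 (hin : i ≤ n) (c : ℕ → ℝ) (a b : Fin i) :
    (inner ℂ (ef hin c a) (ef hin c b) : ℂ) =
      ((if a = b then (if (a : ℕ) % 2 = 0 then 1
        else c ((a : ℕ) / 2) ^ 2 + √(1 - c ((a : ℕ) / 2) ^ 2) ^ 2) else 0 : ℝ) : ℂ) +
        ((wf c a b : ℝ) : ℂ) * Complex.I := by
  by_cases ha : (a : ℕ) % 2 = 0 <;> by_cases hb : (b : ℕ) % 2 = 0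
  · rw [ef, ef, if_pos ha, if_pos hb, ss_inner]
    simp only [Fin.ext_iff, Fin.val_castLE, wf, if_pos ha]
    have h1 : ¬ ((a : ℕ) % 2 = 0 ∧ (b : ℕ) = a + 1) := by omega
    have h2 : ¬ ((b : ℕ) % 2 = 0 ∧ (a : ℕ) = b + 1) := by omega
    rw [if_neg h1, if_neg h2]
    split_ifs <;> simp
  · rw [ef, ef, if_pos ha, if_neg hb, inner_add_right, ss_inner, ss_inner]
    simp only [Fin.ext_iff, Fin.val_castLE, wf]
    have h2 : ¬ ((b : ℕ) % 2 = 0 ∧ (a : ℕ) = b + 1) := by omega
    have h3 : ¬ ((a : ℕ) = b) := by omega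
    rw [if_neg h2, if_neg h3, if_neg h3]
    by_cases h1 : (b : ℕ) = a + 1
    · have h4 : (a : ℕ) = b - 1 := by omega
      have h5 : (b : ℕ) / 2 = a / 2 := by omega
      rw [if_pos h4, if_pos ⟨ha, h1⟩, h5]
      simp
    · have h4 : ¬ ((a : ℕ) = b - 1) := by omega
      rw [if_neg h4, if_neg (fun h => h1 h.2)]
      simp
  · rw [ef, ef, if_neg ha, if_pos hb, inner_add_left, ss_inner, ss_inner]
    simp only [Fin.ext_iff, Fin.val_castLE, wf]
    have h2 : ¬ ((a : ℕ) % 2 = 0 ∧ (b : ℕ) = a + 1) := by omega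
    have h3 : ¬ ((a : ℕ) = b) := by omega
    rw [if_neg h2, if_neg h3, if_neg h3]
    by_cases h1 : (a : ℕ) = b + 1
    · have h4 : (a : ℕ) - 1 = b := by omega
      have h5 : (a : ℕ) / 2 = b / 2 := by omega
      rw [if_pos h4, if_pos ⟨hb, h1⟩, h5]
      simp
    · have h4 : ¬ ((a : ℕ) - 1 = b) := by omega
      rw [if_neg h4, if_neg (fun h => h1 h.2)]
      simp
  · rw [ef, ef, if_neg ha, if_neg hb, inner_add_left, inner_add_right, inner_add_right,
      ss_inner, ss_inner, ss_inner, ss_inner]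
    simp only [Fin.ext_iff, Fin.val_castLE, wf]
    have h1 : ¬ ((a : ℕ) % 2 = 0 ∧ (b : ℕ) = a + 1) := by omega
    have h2 : ¬ ((b : ℕ) % 2 = 0 ∧ (a : ℕ) = b + 1) := by omega
    have h3 : ¬ ((a : ℕ) - 1 = b) := by omega
    have h4 : ¬ ((a : ℕ) = b - 1) := by omega
    rw [if_neg h1, if_neg h2, if_neg h3, if_neg h4, if_neg ha]
    by_cases h5 : (a : ℕ) = b
    · have h6 : (a : ℕ) - 1 = b - 1 := by omega
      rw [if_pos h5, if_pos h5, if_pos h6, ← h5]
      simp only [map_mul, Complex.conj_ofReal, Complex.conj_I]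
      push_cast
      linear_combination (-(c ((a : ℕ) / 2) : ℂ) ^ 2) * Complex.I_sq
    · have h6 : ¬ ((a : ℕ) - 1 = b - 1) := by omega
      rw [if_neg h5, if_neg h5, if_neg h6]
      simp

private theorem gram_ef (hin : i ≤ n) {c : ℕ → ℝ} (hc : ∀ j, 0 ≤ c j ∧ c j ≤ 1) (a b : Fin i) :
    (inner ℂ (ef hin c a) (ef hin c b) : ℂ) =
      ((if a = b then 1 else 0 : ℝ) : ℂ) + ((wf c a b : ℝ) : ℂ) * Complex.I := by
  rw [gram_ef0]
  congr 2
  by_cases h : a = b
  · rw [if_pos h, if_pos h]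
    split_ifs
    · rfl
    · have h1 : 0 ≤ 1 - c ((a : ℕ) / 2) ^ 2 := by
        have h2 := hc ((a : ℕ) / 2)
        have h3 : c ((a : ℕ) / 2) ^ 2 ≤ 1 := pow_le_one₀ h2.1 h2.2
        linarith
      rw [Real.sq_sqrt h1]
      ring
  · rw [if_neg h, if_neg h]

theorem orthonormal_ef (hin : i ≤ n) {c : ℕ → ℝ} (hc : ∀ j, 0 ≤ c j ∧ c j ≤ 1) :
    Orthonormal ℝ (ef hin c) := by
  rw [orthonormal_iff_ite]
  intro a b
  rw [← nf_re, gram_ef hin hc]
  simp

theorem om_ef (hin : i ≤ n) (c : ℕ → ℝ) (a b : Fin i) : om (ef hin c a) (ef hin c b) =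
    if (a : ℕ) % 2 = 0 ∧ (b : ℕ) = a + 1 then c ((a : ℕ) / 2)
    else if (b : ℕ) % 2 = 0 ∧ (a : ℕ) = b + 1 then -c ((b : ℕ) / 2) else 0 := by
  rw [om, gram_ef0]
  have h : ∀ x y : ℝ, ((x : ℂ) + (y : ℂ) * Complex.I).im = y := by
    intro x y
    simp
  rw [h]
  rfl

/-- block diagonal determinant -/
private theorem det_wf : ∀ (m : ℕ) (c : ℕ → ℝ) (z : ℝ),
    (Matrix.of fun a b : Fin m => (if a = b then (1 : ℝ) else 0) + z * wf c a b).det =
      ∏ j ∈ Finset.range (m / 2), (1 + z ^ 2 * c j ^ 2)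
  | 0, c, z => by simp
  | 1, c, z => by
    rw [Matrix.det_fin_one]
    simp [wf]
  | (m + 2), c, z => by
    have ih := det_wf m (fun j => c (j + 1)) z
    have e : m + 2 = 2 + m := by omega
    rw [← Matrix.det_reindex_self ((finCongr e).trans finSumFinEquiv.symm)]
    have hM : (Matrix.reindex ((finCongr e).trans finSumFinEquiv.symm)
        ((finCongr e).trans finSumFinEquiv.symm))
        (Matrix.of fun a b : Fin (m + 2) => (if a = b then (1 : ℝ) else 0) + z * wf c a b) =
        Matrix.fromBlocks !![1, z * c 0; -(z * c 0), 1] 0 0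
          (Matrix.of fun a b : Fin m => (if a = b then (1 : ℝ) else 0) +
            z * wf (fun j => c (j + 1)) a b) := by
      ext p q
      have hs : ∀ r : Fin 2 ⊕ Fin m, ((((finCongr e).trans finSumFinEquiv.symm).symm r : Fin (m + 2)) : ℕ)
          = Sum.elim (fun k : Fin 2 => (k : ℕ)) (fun k : Fin m => 2 + (k : ℕ)) r := by
        intro r
        rcases r with k | k
        · simp
        · simp [add_comm]
      have hq : ∀ r s : Fin 2 ⊕ Fin m, (if ((finCongr e).trans finSumFinEquiv.symm).symm r =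
          ((finCongr e).trans finSumFinEquiv.symm).symm s then (1 : ℝ) else 0) =
          if r = s then 1 else 0 := by
        intro r s
        exact if_congr (Equiv.apply_eq_iff_eq _) rfl rfl
      rw [Matrix.reindex_apply, Matrix.submatrix_apply, Matrix.of_apply, hs, hs, hq]
      rcases p with p | p <;> rcases q with q | q
      · rw [Matrix.fromBlocks_apply₁₁]
        fin_cases p <;> fin_cases q <;> simp [wf]
      · rw [Matrix.fromBlocks_apply₁₂]
        have h1 : ¬ ((p : ℕ) % 2 = 0 ∧ 2 + (q : ℕ) = p + 1) := by omega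
        have h2 : ¬ ((2 + (q : ℕ)) % 2 = 0 ∧ (p : ℕ) = 2 + q + 1) := by omega
        rw [Sum.elim_inl, Sum.elim_inr, wf, if_neg h1, if_neg h2, if_neg (by simp)]
        simp
      · rw [Matrix.fromBlocks_apply₂₁]
        have h1 : ¬ ((2 + (p : ℕ)) % 2 = 0 ∧ (q : ℕ) = 2 + p + 1) := by omega
        have h2 : ¬ ((q : ℕ) % 2 = 0 ∧ 2 + (p : ℕ) = q + 1) := by omega
        rw [Sum.elim_inl, Sum.elim_inr, wf, if_neg h1, if_neg h2, if_neg (by simp)]
        simp
      · rw [Matrix.fromBlocks_apply₂₂]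
        have h1 : ∀ x : ℕ, (2 + x) % 2 = x % 2 := by intro x; omega
        have h2 : ∀ x : ℕ, (2 + x) / 2 = x / 2 + 1 := by intro x; omega
        have h3 : ∀ x y : ℕ, (2 + x = 2 + y + 1) = (x = y + 1) := by
          intro x y
          exact propext ⟨fun h => by omega, fun h => by omega⟩
        simp only [wf, Sum.elim_inr, h1, h2, h3, Matrix.of_apply, Sum.inr.injEq]
    rw [hM, Matrix.det_fromBlocks_zero₂₁, ih, Matrix.det_fin_two]
    have h4 : (m + 2) / 2 = m / 2 + 1 := by omega
    rw [h4, Finset.prod_range_succ']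
    simp
    ring

theorem dz_ef (hin : i ≤ n) {c : ℕ → ℝ} (hc : ∀ j, 0 ≤ c j ∧ c j ≤ 1) (z : ℝ) :
    dz (ef hin c) z = ∏ j ∈ Finset.range (i / 2), (1 + z ^ 2 * c j ^ 2) := by
  rw [← det_wf i c z, dz]
  congr 1
  ext a b
  rw [Matrix.of_apply, Matrix.of_apply, om_ef, orthonormal_iff_ite.1 (orthonormal_ef hin hc)]
  rfl

theorem normal_form (hin : i ≤ n) {e : Fin i → Cn n} (he : Orthonormal ℝ e) :
    ∃ (c : ℕ → ℝ) (ψ : Un n) (R : Matrix (Fin i) (Fin i) ℝ), (∀ j, 0 ≤ c j ∧ c j ≤ 1) ∧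
      |R.det| = 1 ∧ ∀ a, e a = ∑ b, R a b • uni ψ (ef hin c b) := by
  obtain ⟨R, c, hR, hc0, hcz, hRO⟩ := antisymm_nf i (Matrix.of fun a b => om (e a) (e b)) (by
    ext a b
    rw [Matrix.transpose_apply, Matrix.neg_apply, Matrix.of_apply, Matrix.of_apply, om_swap])
  set e' : Fin i → Cn n := fun a => ∑ b, R a b • e b with he'
  have hin' : ∀ a b, (inner ℝ (e' a) (e' b) : ℝ) = if a = b then 1 else 0 := by
    intro a b
    have h1 : (inner ℝ (e' a) (e' b) : ℝ) = (R * R.transpose) a b := by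
      simp only [he']
      rw [sum_inner, Matrix.mul_apply]
      refine Finset.sum_congr rfl fun k _ => ?_
      rw [inner_sum, Finset.sum_eq_single k]
      · rw [inner_smul_left, inner_smul_right, orthonormal_iff_ite.1 he, if_pos rfl,
          Matrix.transpose_apply]
        simp
      · intro l _ hl
        rw [inner_smul_left, inner_smul_right, orthonormal_iff_ite.1 he, if_neg (Ne.symm hl)]
        simp
      · intro h
        exact absurd (Finset.mem_univ k) h
    rw [h1, hR, Matrix.one_apply]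
  have hsum_l : ∀ (s : Finset (Fin i)) (f : Fin i → Cn n) (y : Cn n),
      om (∑ k ∈ s, f k) y = ∑ k ∈ s, om (f k) y := by
    intro s f y
    simp only [om]
    rw [sum_inner, Complex.im_sum]
  have hsum_r : ∀ (s : Finset (Fin i)) (x : Cn n) (f : Fin i → Cn n),
      om x (∑ k ∈ s, f k) = ∑ k ∈ s, om x (f k) := by
    intro s x f
    simp only [om]
    rw [inner_sum, Complex.im_sum]
  have hom' : ∀ a b, om (e' a) (e' b) = wf c a b := by
    intro a b
    have h1 : om (e' a) (e' b) =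
        (R * (Matrix.of fun a b => om (e a) (e b)) * R.transpose) a b := by
      simp only [he']
      rw [hsum_r, Matrix.mul_apply]
      refine Finset.sum_congr rfl fun l _ => ?_
      rw [hsum_l, Matrix.mul_apply, Finset.sum_mul]
      refine Finset.sum_congr rfl fun k _ => ?_
      rw [om_smul_left, om_smul_right, Matrix.of_apply, Matrix.transpose_apply]
      ring
    rw [h1, hRO]
    rfl
  have hnorm : ∀ a, ‖e' a‖ = 1 := by
    intro a
    have h1 := hin' a a
    rw [if_pos rfl, real_inner_self_eq_norm_sq] at h1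
    have h2 := norm_nonneg (e' a)
    nlinarith [sq_nonneg (‖e' a‖ - 1)]
  have hc1 : ∀ j, 0 ≤ c j ∧ c j ≤ 1 := by
    intro j
    refine ⟨hc0 j, ?_⟩
    by_cases hj : 2 * j + 1 < i
    · have h1 := hom' ⟨2 * j, by omega⟩ ⟨2 * j + 1, hj⟩
      have h2 : wf c (2 * j) (2 * j + 1) = c j := by
        rw [wf, if_pos ⟨by omega, rfl⟩]
        congr 1
        omega
      have h3 := abs_om_le (e' ⟨2 * j, by omega⟩) (e' ⟨2 * j + 1, hj⟩)
      rw [hnorm, hnorm, h1] at h3
      have h4 : c j ≤ |wf c (2 * j) (2 * j + 1)| := by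
        rw [h2]
        exact le_abs_self _
      linarith
    · rw [hcz j (by omega)]
      exact zero_le_one
  obtain ⟨ψ, hψ⟩ := uni_of_gram (e := e') (f := ef hin c) (by
    intro a b
    rw [gram_ef hin hc1, ← hin' a b, ← hom' a b, ← nf_re]
    exact (Complex.re_add_im _).symm)
  refine ⟨c, ψ, R.transpose, hc1, ?_, ?_⟩
  · rw [Matrix.det_transpose]
    have h1 : R.det * R.det = 1 := by
      have h2 := congrArg Matrix.det hR
      rwa [Matrix.det_mul, Matrix.det_transpose, Matrix.det_one] at h2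
    have h3 : |R.det| * |R.det| = 1 := by
      rw [← abs_mul, h1, abs_one]
    nlinarith [abs_nonneg R.det]
  · intro a
    have hR' : R.transpose * R = 1 := mul_eq_one_comm.1 hR
    calc e a = ∑ l, (R.transpose * R) a l • e l := by
          rw [hR', Finset.sum_eq_single a]
          · simp
          · intro b _ hb
            rw [Matrix.one_apply_ne (Ne.symm hb), zero_smul]
          · intro h
            exact absurd (Finset.mem_univ a) h
      _ = ∑ b, R.transpose a b • e' b := by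
          simp only [he', Finset.smul_sum]
          rw [Finset.sum_comm]
          refine Finset.sum_congr rfl fun l _ => ?_
          rw [Matrix.mul_apply, Finset.sum_smul]
          refine Finset.sum_congr rfl fun k _ => ?_
          rw [smul_smul]
      _ = _ := by
          refine Finset.sum_congr rfl fun b _ => ?_
          rw [hψ]

end Pool.Agent.H35.NI
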