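import Mathlib

set_option autoImplicit false

/-!
# Alg: symmetric functions which are affine in each variable

`f` is a function of `x_0, …, x_(p-1) ∈ [0,1]` (of a sequence `x : ℕ → ℝ`, depending only on the
first `p` terms), symmetric, affine in `x_0` (hence in each variable).  Then `f` is a linear
combination of the products `∏_{j<p} (1 + k² x_j)`, `k = 0, …, p`.
Proof: `f(x) = ∑_{S ⊆ range p} ∏_{j∈S} x_j ∏_{j∉S} (1-x_j) f(1_S)` (affine interpolation in each
variable), `f(1_S)` depends only on `|S|` by symmetry; with the weights `α` for which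
`∑_m α_m (1 + m²)^k = f(1_{range k})` for all `k ≤ p` (Vandermonde matrix of the nodes `1 + m²`),
`∑_S ∏_{j∈S} x_j ∏_{j∉S} (1-x_j) (1 + m²)^|S| = ∏_j (1 + m² x_j)` gives the result.
-/

noncomputable section

namespace Pool.Agent.H35.NI

open Matrix in
private theorem vand (p : ℕ) (c : ℕ → ℝ) : ∃ α : ℕ → ℝ, ∀ k, k ≤ p →
    ∑ m ∈ Finset.range (p + 1), α m * (1 + (m : ℝ) ^ 2) ^ k = c k := by
  classical
  let v : Fin (p + 1) → ℝ := fun m => 1 + ((m : ℕ) : ℝ) ^ 2
  have hinj : Function.Injective v := by
    intro a b hab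
    have h1 : ((a : ℕ) : ℝ) ^ 2 = ((b : ℕ) : ℝ) ^ 2 := by
      have h := hab
      simp only [v] at h
      linarith
    have h2 : ((a : ℕ) : ℝ) = ((b : ℕ) : ℝ) :=
      (pow_left_inj₀ (Nat.cast_nonneg _) (Nat.cast_nonneg _) two_ne_zero).1 h1
    exact Fin.ext (by exact_mod_cast h2)
  have hdet : (Matrix.vandermonde v)ᵀ.det ≠ 0 := by
    rw [Matrix.det_transpose]
    exact Matrix.det_vandermonde_ne_zero_iff.2 hinj
  have hu : IsUnit (Matrix.vandermonde v)ᵀ.det := isUnit_iff_ne_zero.2 hdet
  let cc : Fin (p + 1) → ℝ := fun k => c k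
  let al : Fin (p + 1) → ℝ := ((Matrix.vandermonde v)ᵀ)⁻¹ *ᵥ cc
  have hal : (Matrix.vandermonde v)ᵀ *ᵥ al = cc := by
    simp only [al, Matrix.mulVec_mulVec, Matrix.mul_nonsing_inv _ hu, Matrix.one_mulVec]
  refine ⟨fun m => if h : m < p + 1 then al ⟨m, h⟩ else 0, fun k hk => ?_⟩
  have h3 := congrFun hal ⟨k, by omega⟩
  rw [Matrix.mulVec, dotProduct] at h3
  have h4 : cc ⟨k, by omega⟩ = c k := rfl
  rw [← h4, ← h3, Finset.sum_range]
  refine Finset.sum_congr rfl fun m _ => ?_
  beta_reduce
  rw [dif_pos m.2, Matrix.transpose_apply, Matrix.vandermonde_apply]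
  simp only [v, Fin.eta]
  ring

private theorem aff_one {p : ℕ} {f : (ℕ → ℝ) → ℝ}
    (hsym : ∀ (σ : Equiv.Perm ℕ), (∀ j, p ≤ j → σ j = j) → ∀ x : ℕ → ℝ,
      (∀ j, 0 ≤ x j ∧ x j ≤ 1) → f (x ∘ σ) = f x)
    (haff : ∀ x : ℕ → ℝ, (∀ j, 0 ≤ x j ∧ x j ≤ 1) → ∃ P Q : ℝ, ∀ t : ℝ, 0 ≤ t → t ≤ 1 →
      f (Function.update x 0 t) = P + t * Q)
    {i : ℕ} (hi : i < p) (x : ℕ → ℝ) (hx : ∀ j, 0 ≤ x j ∧ x j ≤ 1)
    {t : ℝ} (ht0 : 0 ≤ t) (ht1 : t ≤ 1) :
    f (Function.update x i t) =
      (1 - t) * f (Function.update x i 0) + t * f (Function.update x i 1) := by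
  classical
  have hσ : ∀ j, p ≤ j → Equiv.swap 0 i j = j := fun j hj =>
    Equiv.swap_apply_of_ne_of_ne (by omega) (by omega)
  obtain ⟨P, Q, h⟩ := haff (x ∘ Equiv.swap 0 i) (fun j => hx _)
  have key : ∀ s : ℝ, 0 ≤ s → s ≤ 1 → f (Function.update x i s) = P + s * Q := by
    intro s hs0 hs1
    have h1 : f (Function.update x i s ∘ Equiv.swap 0 i) = f (Function.update x i s) := by
      refine hsym _ hσ _ fun j => ?_
      by_cases hj : j = i
      · subst hj; simp [hs0, hs1]
      · rw [Function.update_of_ne hj]; exact hx j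
    have h2 : Function.update x i s ∘ Equiv.swap 0 i =
        Function.update (x ∘ Equiv.swap 0 i) 0 s := by
      rw [Function.update_comp_equiv]
      simp
    rw [← h1, h2, h s hs0 hs1]
  rw [key t ht0 ht1, key 0 le_rfl zero_le_one, key 1 zero_le_one le_rfl]
  ring

private theorem interp {p : ℕ} {f : (ℕ → ℝ) → ℝ}
    (hsym : ∀ (σ : Equiv.Perm ℕ), (∀ j, p ≤ j → σ j = j) → ∀ x : ℕ → ℝ,
      (∀ j, 0 ≤ x j ∧ x j ≤ 1) → f (x ∘ σ) = f x)
    (haff : ∀ x : ℕ → ℝ, (∀ j, 0 ≤ x j ∧ x j ≤ 1) → ∃ P Q : ℝ, ∀ t : ℝ, 0 ≤ t → t ≤ 1 →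
      f (Function.update x 0 t) = P + t * Q)
    (x : ℕ → ℝ) (hx : ∀ j, 0 ≤ x j ∧ x j ≤ 1) (m : ℕ) (hm : m ≤ p) :
    f x = ∑ S ∈ (Finset.range m).powerset,
      ((∏ j ∈ S, x j) * ∏ j ∈ Finset.range m \ S, (1 - x j)) *
        f (fun j => if j < m then (if j ∈ S then 1 else 0) else x j) := by
  classical
  induction m with
  | zero => simp
  | succ m ih =>
    rw [ih (by omega), Finset.range_add_one,
      Finset.sum_powerset_insert Finset.notMem_range_self, ← Finset.sum_add_distrib]
    refine Finset.sum_congr rfl fun S hS => ?_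
    have hSm : m ∉ S := fun h => by
      have := Finset.mem_range.1 (Finset.mem_powerset.1 hS h)
      omega
    have h1 : insert m (Finset.range m) \ S = insert m (Finset.range m \ S) :=
      Finset.insert_sdiff_of_notMem _ hSm
    have h2 : insert m (Finset.range m) \ insert m S = Finset.range m \ S := by
      ext j
      simp only [Finset.mem_sdiff, Finset.mem_insert, Finset.mem_range]
      constructor
      · rintro ⟨h | h, h'⟩
        · exact absurd (Or.inl h) h'
        · exact ⟨h, fun h3 => h' (Or.inr h3)⟩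
      · rintro ⟨h, h'⟩
        refine ⟨Or.inr h, ?_⟩
        rintro (h3 | h3)
        · omega
        · exact h' h3
    have h3 : m ∉ Finset.range m \ S := by simp
    rw [h1, h2, Finset.prod_insert h3, Finset.prod_insert hSm]
    let y : ℕ → ℝ := fun j => if j < m then (if j ∈ S then 1 else 0) else x j
    have hy : ∀ j, 0 ≤ y j ∧ y j ≤ 1 := by
      intro j
      simp only [y]
      split_ifs
      · exact ⟨zero_le_one, le_rfl⟩
      · exact ⟨le_rfl, zero_le_one⟩
      · exact hx j
    have hym : y m = x m := by simp [y]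
    have h4 := aff_one hsym haff (i := m) (by omega) y hy (hx m).1 (hx m).2
    have h5 : Function.update y m (x m) = y := by rw [← hym]; exact Function.update_eq_self m y
    have h6 : Function.update y m 0 =
        fun j => if j < m + 1 then (if j ∈ S then 1 else 0) else x j := by
      funext j
      by_cases hj : j = m
      · subst hj
        simp [hSm]
      · rw [Function.update_of_ne hj]
        simp only [y]
        have : j < m ↔ j < m + 1 := by omega
        simp [this]
    have h7 : Function.update y m 1 =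
        fun j => if j < m + 1 then (if j ∈ insert m S then 1 else 0) else x j := by
      funext j
      by_cases hj : j = m
      · subst hj
        simp
      · rw [Function.update_of_ne hj]
        simp only [y]
        have : j < m ↔ j < m + 1 := by omega
        simp [this, hj]
    rw [h5, h6, h7] at h4
    change _ * f y = _
    rw [h4]
    ring

private theorem card_dep {p : ℕ} {f : (ℕ → ℝ) → ℝ}
    (hsym : ∀ (σ : Equiv.Perm ℕ), (∀ j, p ≤ j → σ j = j) → ∀ x : ℕ → ℝ,
      (∀ j, 0 ≤ x j ∧ x j ≤ 1) → f (x ∘ σ) = f x) (N : ℕ) :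
    ∀ S : Finset ℕ, S ⊆ Finset.range p → (S \ Finset.range S.card).card ≤ N →
      f (fun j => if j ∈ S then 1 else 0) =
        f (fun j => if j ∈ Finset.range S.card then 1 else 0) := by
  classical
  induction N with
  | zero =>
    intro S hS h
    have h1 : S ⊆ Finset.range S.card := by
      rw [← Finset.sdiff_eq_empty_iff_subset]
      exact Finset.card_eq_zero.1 (by omega)
    have h2 : S = Finset.range S.card := Finset.eq_of_subset_of_card_le h1 (by simp)
    rw [← h2]
  | succ N ih =>
    intro S hS h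
    by_cases h1 : S ⊆ Finset.range S.card
    · have h2 : S = Finset.range S.card := Finset.eq_of_subset_of_card_le h1 (by simp)
      rw [← h2]
    · obtain ⟨a, haS, haR⟩ := Finset.not_subset.1 h1
      have h3 : ¬ Finset.range S.card ⊆ S := fun h4 => by
        have h5 : Finset.range S.card = S := Finset.eq_of_subset_of_card_le h4 (by simp)
        rw [h5] at haR
        exact haR haS
      obtain ⟨b, hbR, hbS⟩ := Finset.not_subset.1 h3
      have hab : a ≠ b := fun h4 => hbS (h4 ▸ haS)
      let S' : Finset ℕ := insert b (S.erase a)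
      have hcard : S'.card = S.card := by
        have hb' : b ∉ S.erase a := fun h4 => hbS (Finset.mem_of_mem_erase h4)
        rw [Finset.card_insert_of_notMem hb', Finset.card_erase_of_mem haS]
        have : 0 < S.card := Finset.card_pos.2 ⟨a, haS⟩
        omega
      have hap : a < p := Finset.mem_range.1 (hS haS)
      have hSp : S.card ≤ p := by
        have := Finset.card_le_card hS
        simpa using this
      have hbp : b < p := by
        have := Finset.mem_range.1 hbR
        omega
      have hS' : S' ⊆ Finset.range p := by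
        intro j hj
        rcases Finset.mem_insert.1 hj with h4 | h4
        · rw [h4]; exact Finset.mem_range.2 hbp
        · exact hS (Finset.mem_of_mem_erase h4)
      have hsub : S' \ Finset.range S'.card ⊆ (S \ Finset.range S.card).erase a := by
        intro j hj
        rw [hcard] at hj
        obtain ⟨h4, h5⟩ := Finset.mem_sdiff.1 hj
        rcases Finset.mem_insert.1 h4 with h6 | h6
        · rw [h6] at h5; exact absurd hbR h5
        · obtain ⟨h7, h8⟩ := Finset.mem_erase.1 h6
          exact Finset.mem_erase.2 ⟨h7, Finset.mem_sdiff.2 ⟨h8, h5⟩⟩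
      have hle : (S' \ Finset.range S'.card).card ≤ N := by
        have h4 := Finset.card_le_card hsub
        have h5 : a ∈ S \ Finset.range S.card := Finset.mem_sdiff.2 ⟨haS, haR⟩
        rw [Finset.card_erase_of_mem h5] at h4
        omega
      have h6 := ih S' hS' hle
      rw [hcard] at h6
      rw [← h6]
      have h7 : (fun j => if j ∈ S then (1 : ℝ) else 0) =
          (fun j => if j ∈ S' then (1 : ℝ) else 0) ∘ Equiv.swap a b := by
        funext j
        simp only [Function.comp_apply]
        by_cases hja : j = a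
        · subst hja
          rw [Equiv.swap_apply_left, if_pos haS, if_pos (Finset.mem_insert_self _ _)]
        · by_cases hjb : j = b
          · subst hjb
            have h8 : a ∉ S' := by
              simp only [S', Finset.mem_insert, Finset.mem_erase]
              rintro (h9 | h9)
              · exact hab h9
              · exact h9.1 rfl
            rw [Equiv.swap_apply_right, if_neg hbS, if_neg h8]
          · rw [Equiv.swap_apply_of_ne_of_ne hja hjb]
            have h8 : j ∈ S ↔ j ∈ S' := by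
              simp only [S', Finset.mem_insert, Finset.mem_erase]
              constructor
              · intro h9; exact Or.inr ⟨hja, h9⟩
              · rintro (h9 | h9)
                · exact absurd h9 hjb
                · exact h9.2
            by_cases h9 : j ∈ S
            · rw [if_pos h9, if_pos (h8.1 h9)]
            · rw [if_neg h9, if_neg (fun h10 => h9 (h8.2 h10))]
      rw [h7]
      refine hsym _ (fun j hj => Equiv.swap_apply_of_ne_of_ne (by omega) (by omega)) _ fun j => ?_
      split_ifs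
      · exact ⟨zero_le_one, le_rfl⟩
      · exact ⟨le_rfl, zero_le_one⟩

theorem sym_aff (p : ℕ) (f : (ℕ → ℝ) → ℝ)
    (hdep : ∀ x y : ℕ → ℝ, (∀ j < p, x j = y j) → f x = f y)
    (hsym : ∀ (σ : Equiv.Perm ℕ), (∀ j, p ≤ j → σ j = j) → ∀ x : ℕ → ℝ,
      (∀ j, 0 ≤ x j ∧ x j ≤ 1) → f (x ∘ σ) = f x)
    (haff : ∀ x : ℕ → ℝ, (∀ j, 0 ≤ x j ∧ x j ≤ 1) → ∃ P Q : ℝ, ∀ t : ℝ, 0 ≤ t → t ≤ 1 →
      f (Function.update x 0 t) = P + t * Q) :
    ∃ α : ℕ → ℝ, ∀ x : ℕ → ℝ, (∀ j, 0 ≤ x j ∧ x j ≤ 1) →
      f x = ∑ k ∈ Finset.range (p + 1), α k * ∏ j ∈ Finset.range p, (1 + (k : ℝ) ^ 2 * x j) := by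
  classical
  obtain ⟨α, hα⟩ := vand p (fun k => f (fun j => if j ∈ Finset.range k then 1 else 0))
  refine ⟨α, fun x hx => ?_⟩
  have h1 : ∀ S ∈ (Finset.range p).powerset,
      ((∏ j ∈ S, x j) * ∏ j ∈ Finset.range p \ S, (1 - x j)) *
        f (fun j => if j < p then (if j ∈ S then 1 else 0) else x j) =
      ∑ m ∈ Finset.range (p + 1), α m * ((∏ j ∈ S, ((1 + (m : ℝ) ^ 2) * x j)) *
        ∏ j ∈ Finset.range p \ S, (1 - x j)) := by
    intro S hS
    have hS' := Finset.mem_powerset.1 hS
    have h2 : f (fun j => if j < p then (if j ∈ S then 1 else 0) else x j) =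
        f (fun j => if j ∈ S then 1 else 0) :=
      hdep _ _ fun j hj => if_pos hj
    have h3 : S.card ≤ p := by
      have := Finset.card_le_card hS'
      simpa using this
    rw [h2, card_dep hsym _ S hS' le_rfl, ← hα S.card h3, Finset.mul_sum]
    refine Finset.sum_congr rfl fun m _ => ?_
    rw [Finset.prod_mul_distrib, Finset.prod_const]
    ring
  rw [interp hsym haff x hx p le_rfl, Finset.sum_congr rfl h1, Finset.sum_comm]
  refine Finset.sum_congr rfl fun m _ => ?_
  rw [← Finset.mul_sum, ← Finset.prod_add]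
  congr 1
  refine Finset.prod_congr rfl fun j _ => ?_
  ring

end Pool.Agent.H35.NI
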