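import Mathlib
import Pool.Agent.H35.NI.Defs

set_option autoImplicit false

/-!
# Plu: the three-term Grassmann-Plücker relation for `BC C x y = det (x, y, C)`

If `BC C p q ≠ 0` for some `p q`, then the rows `p, q, C` are a basis of `ℝ^(m+2)`, so every `x` is
`a p + b q` modulo the span of the `C_j`, and `BC` is alternating, linear in `x`, `y` and vanishes
if one of them is in the span of `C`.  So `BC C x y = (a b' - b a') BC C p q`.
-/

noncomputable section

namespace Pool.Agent.H35.NI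

variable {m : ℕ}

private theorem BC_eq (C : Fin m → Fin (m + 2) → ℝ) (x y : Fin (m + 2) → ℝ) :
    BC C x y = (Matrix.detRowAlternating : (Fin (m + 2) → ℝ) [⋀^Fin (m + 2)]→ₗ[ℝ] ℝ)
      (Fin.cons x (Fin.cons y C : Fin (m + 1) → Fin (m + 2) → ℝ) :
        Fin (m + 2) → Fin (m + 2) → ℝ) := rfl

theorem BC_swap (C : Fin m → Fin (m + 2) → ℝ) (x y : Fin (m + 2) → ℝ) :
    BC C y x = -BC C x y := by
  rw [BC_eq, BC_eq, ← (Matrix.detRowAlternating :
    (Fin (m + 2) → ℝ) [⋀^Fin (m + 2)]→ₗ[ℝ] ℝ).map_swap _ (show (0 : Fin (m + 2)) ≠ 1 from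
      Fin.zero_ne_one)]
  congr 1
  funext k
  refine Fin.cases ?_ (fun k => Fin.cases ?_ (fun k => ?_) k) k
  · simp only [Function.comp_apply, Equiv.swap_apply_left]
    rfl
  · have h1 : (Fin.succ 0 : Fin (m + 2)) = 1 := rfl
    simp only [Function.comp_apply, h1, Equiv.swap_apply_right]
    rfl
  · have h2 : (Equiv.swap (0 : Fin (m + 2)) 1) k.succ.succ = k.succ.succ := by
      refine Equiv.swap_apply_of_ne_of_ne (Fin.succ_ne_zero _) ?_
      intro h
      have h3 := congrArg Fin.val h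
      simp at h3
    simp only [Function.comp_apply, h2]
    rfl

theorem BC_self (C : Fin m → Fin (m + 2) → ℝ) (x : Fin (m + 2) → ℝ) : BC C x x = 0 := by
  have h := BC_swap C x x
  linarith

theorem BC_add_left (C : Fin m → Fin (m + 2) → ℝ) (x x' y : Fin (m + 2) → ℝ) :
    BC C (x + x') y = BC C x y + BC C x' y := by
  have h := (Matrix.detRowAlternating : (Fin (m + 2) → ℝ) [⋀^Fin (m + 2)]→ₗ[ℝ] ℝ).map_update_add
    (Fin.cons x (Fin.cons y C : Fin (m + 1) → Fin (m + 2) → ℝ)) 0 x x'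
  simp only [Fin.update_cons_zero] at h
  rw [BC_eq, BC_eq, BC_eq]
  exact h

theorem BC_smul_left (C : Fin m → Fin (m + 2) → ℝ) (t : ℝ) (x y : Fin (m + 2) → ℝ) :
    BC C (t • x) y = t * BC C x y := by
  have h := (Matrix.detRowAlternating : (Fin (m + 2) → ℝ) [⋀^Fin (m + 2)]→ₗ[ℝ] ℝ).map_update_smul
    (Fin.cons x (Fin.cons y C : Fin (m + 1) → Fin (m + 2) → ℝ)) 0 t x
  simp only [Fin.update_cons_zero, smul_eq_mul] at h
  rw [BC_eq, BC_eq]
  exact h

private theorem BC_zero_left (C : Fin m → Fin (m + 2) → ℝ) (y : Fin (m + 2) → ℝ) :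
    BC C 0 y = 0 := by
  have h := BC_smul_left C 0 0 y
  rw [zero_smul, zero_mul] at h
  exact h

private theorem BC_sum_left (C : Fin m → Fin (m + 2) → ℝ) {ι : Type*} (s : Finset ι)
    (g : ι → Fin (m + 2) → ℝ) (y : Fin (m + 2) → ℝ) :
    BC C (∑ k ∈ s, g k) y = ∑ k ∈ s, BC C (g k) y := by
  classical
  induction s using Finset.induction_on with
  | empty => simp [BC_zero_left]
  | insert a s ha ih => rw [Finset.sum_insert ha, Finset.sum_insert ha, BC_add_left, ih]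

private theorem BC_mem (C : Fin m → Fin (m + 2) → ℝ) (j : Fin m) (y : Fin (m + 2) → ℝ) :
    BC C (C j) y = 0 := by
  unfold BC
  refine Matrix.det_zero_of_row_eq (i := 0) (j := j.succ.succ) (Fin.succ_ne_zero _).symm ?_
  rfl

/-- coordinates with respect to `p, q, C` -/
private theorem BC_coord (C : Fin m → Fin (m + 2) → ℝ) {p q : Fin (m + 2) → ℝ}
    (h : BC C p q ≠ 0) (x : Fin (m + 2) → ℝ) :
    ∃ a b : ℝ, ∀ z, BC C x z = a * BC C p z + b * BC C q z := by
  set M : Matrix (Fin (m + 2)) (Fin (m + 2)) ℝ :=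
    Matrix.of (Fin.cons p (Fin.cons q C : Fin (m + 1) → Fin (m + 2) → ℝ) :
      Fin (m + 2) → Fin (m + 2) → ℝ) with hM
  have hdet : IsUnit M.det := isUnit_iff_ne_zero.2 h
  have h1 : Matrix.vecMul (Matrix.vecMul x M⁻¹) M = x := by
    rw [Matrix.vecMul_vecMul, Matrix.nonsing_inv_mul M hdet, Matrix.vecMul_one]
  obtain ⟨v, hv⟩ : ∃ v : Fin (m + 2) → ℝ, v = Matrix.vecMul x M⁻¹ := ⟨_, rfl⟩
  rw [← hv] at h1
  have h2 : x = v 0 • p + (v 1 • q + ∑ j : Fin m, v j.succ.succ • C j) := by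
    conv_lhs => rw [← h1]
    rw [Matrix.vecMul_eq_sum, Fin.sum_univ_succ, Fin.sum_univ_succ]
    rfl
  refine ⟨v 0, v 1, fun z => ?_⟩
  conv_lhs => rw [h2]
  rw [BC_add_left, BC_add_left, BC_smul_left, BC_smul_left, BC_sum_left]
  have h3 : ∑ j : Fin m, BC C (v j.succ.succ • C j) z = 0 :=
    Finset.sum_eq_zero fun j _ => by rw [BC_smul_left, BC_mem, mul_zero]
  rw [h3, add_zero]

theorem BC_plu (C : Fin m → Fin (m + 2) → ℝ) (x1 x2 x3 x4 : Fin (m + 2) → ℝ) :
    BC C x1 x2 * BC C x3 x4 - BC C x1 x3 * BC C x2 x4 + BC C x1 x4 * BC C x2 x3 = 0 := by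
  by_cases h : ∃ p q, BC C p q ≠ 0
  · obtain ⟨p, q, hpq⟩ := h
    have key : ∀ x, ∃ a b : ℝ, ∀ z, BC C x z = a * BC C p z + b * BC C q z :=
      fun x => BC_coord C hpq x
    have hp : ∀ x (a b : ℝ), (∀ z, BC C x z = a * BC C p z + b * BC C q z) →
        BC C p x = b * BC C p q ∧ BC C q x = -(a * BC C p q) := by
      intro x a b hx
      have h1 := hx p
      have h2 := hx q
      rw [BC_self, mul_zero, zero_add, BC_swap C p q, BC_swap C p x] at h1
      rw [BC_self, mul_zero, add_zero, BC_swap C q x] at h2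
      constructor
      · linarith
      · linarith
    obtain ⟨a1, b1, h1⟩ := key x1
    obtain ⟨a2, b2, h2⟩ := key x2
    obtain ⟨a3, b3, h3⟩ := key x3
    obtain ⟨a4, b4, h4⟩ := key x4
    obtain ⟨p2, q2⟩ := hp x2 a2 b2 h2
    obtain ⟨p3, q3⟩ := hp x3 a3 b3 h3
    obtain ⟨p4, q4⟩ := hp x4 a4 b4 h4
    rw [h1 x2, h1 x3, h1 x4, h2 x3, h2 x4, h3 x4, p2, q2, p3, q3, p4, q4]
    ring
  · push Not at h
    simp only [h]
    ring

end Pool.Agent.H35.NI
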