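import Mathlib
import Pool.Agent.H35.NI.Lin
import Pool.Agent.H35.NI.Plu
import Pool.Agent.H35.T3.GMean
import Pool.Agent.H89.CZ.TEmb

set_option autoImplicit false

/-!
# MeanI: affine dependence on the square of the first Kähler cosine

`n = N + 2`; the frame is `(s0, c i s0 + s s1, h_0, …)` with `c² + s² = 1` and vectors `h_b` whose
coordinates 0 and 1 vanish.  `DD (φ w) frame = det` of the matrix with columns
`x = Re (φw)_0`, `c Im (φw)_0 + s Re (φw)_1`, `⟨φw, h_b⟩`; with `p_k = Re (φ w)_k`,
`q_k = Im (φ w)_k ∈ ℝ^(m+2)` (vectors indexed by `a`), `C_b = (⟨φ w_a, h_b⟩)_a`: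
`DD = c BC(p0, q0) + s BC(p0, p1)` (transpose of the matrix).
`W = BC(p0,q0) + BC(p1,q1)`, `S = BC(p0,q0) - BC(p1,q1)`,
`D = BC(p0,p1) - BC(q0,q1) + i (BC(p0,q1) + BC(q0,p1))`,
`Z = BC(p0,p1) + BC(q0,q1) + i (BC(p0,q1) - BC(q0,p1))`, so `DD = (c W + s Re D + c S + s Re Z)/2`.
`W² + |D|² = S² + |Z|²` is the Plücker relation `BC_plu`.  Then `mean_gen` (`H35/T3/GMean.lean`)
for `φ ↦ W(φ)` …: the unitary maps acting on the coordinates 0, 1 by `g ∈ U(2)` (first row
`α, β`, second row `-conj β, conj α`) resp. by a phase `ζ` and trivially on the other coordinates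
leave the `C_b` unchanged.
-/

open MeasureTheory Pool.Agent.H61.UProj Pool.Agent.H89.CZ

noncomputable section

namespace Pool.Agent.H35.NI

variable {N m : ℕ}

/-! ### Bilinearity in the second argument -/

private theorem BC_add_right (C : Fin m → Fin (m + 2) → ℝ) (x y y' : Fin (m + 2) → ℝ) :
    BC C x (y + y') = BC C x y + BC C x y' := by
  rw [BC_swap C (y + y') x, BC_add_left, BC_swap C y x, BC_swap C y' x]
  ring

private theorem BC_smul_right (C : Fin m → Fin (m + 2) → ℝ) (t : ℝ) (x y : Fin (m + 2) → ℝ) :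
    BC C x (t • y) = t * BC C x y := by
  rw [BC_swap C (t • y) x, BC_smul_left, BC_swap C y x]
  ring

private theorem continuous_BC {X : Type*} [TopologicalSpace X]
    {C : X → Fin m → Fin (m + 2) → ℝ} {x y : X → Fin (m + 2) → ℝ}
    (hC : ∀ b a, Continuous fun t => C t b a) (hx : ∀ a, Continuous fun t => x t a)
    (hy : ∀ a, Continuous fun t => y t a) : Continuous fun t => BC (C t) (x t) (y t) := by
  unfold BC
  refine Continuous.matrix_det ?_
  refine continuous_matrix fun k a => ?_
  simp only [Matrix.of_apply]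
  refine Fin.cases ?_ (fun k => Fin.cases ?_ (fun k => ?_) k) k
  · simpa using hx a
  · simpa using hy a
  · simpa using hC k a

/-! ### The action on the first two coordinates -/

private theorem act {a b c d : ℂ} (h1 : a * starRingEnd ℂ a + b * starRingEnd ℂ b = 1)
    (h2 : c * starRingEnd ℂ c + d * starRingEnd ℂ d = 1)
    (h3 : a * starRingEnd ℂ c + b * starRingEnd ℂ d = 0) :
    ∃ H : Un (N + 2), ∀ z : Cn (N + 2), (uni H z) 0 = a * z 0 + b * z 1 ∧
      (uni H z) 1 = c * z 0 + d * z 1 ∧ ∀ j : Fin N, (uni H z) j.succ.succ = z j.succ.succ := by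
  have h4 : c * starRingEnd ℂ a + d * starRingEnd ℂ b = 0 := by
    have h := congrArg (starRingEnd ℂ) h3
    simp only [map_add, map_mul, Complex.conj_conj, map_zero] at h
    linear_combination h
  let r : Fin (N + 2) → Fin (N + 2) → ℂ :=
    Fin.cons (Fin.cons a (Fin.cons b 0 : Fin (N + 1) → ℂ) : Fin (N + 2) → ℂ)
      (Fin.cons (Fin.cons c (Fin.cons d 0 : Fin (N + 1) → ℂ) : Fin (N + 2) → ℂ)
        (fun j => Pi.single j.succ.succ 1) : Fin (N + 1) → Fin (N + 2) → ℂ)
  have r00 : r 0 0 = a := rfl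
  have r01 : r 0 1 = b := rfl
  have r0 : ∀ j : Fin N, r 0 j.succ.succ = 0 := fun j => rfl
  have r10 : r 1 0 = c := rfl
  have r11 : r 1 1 = d := rfl
  have r1 : ∀ j : Fin N, r 1 j.succ.succ = 0 := fun j => rfl
  have rj0 : ∀ i : Fin N, r i.succ.succ 0 = 0 := by
    intro i
    change (Pi.single i.succ.succ 1 : Fin (N + 2) → ℂ) 0 = 0
    exact Pi.single_eq_of_ne (Fin.succ_ne_zero _).symm _
  have rj1 : ∀ i : Fin N, r i.succ.succ 1 = 0 := by
    intro i
    change (Pi.single i.succ.succ 1 : Fin (N + 2) → ℂ) (Fin.succ 0) = 0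
    refine Pi.single_eq_of_ne ?_ _
    intro h
    exact Fin.succ_ne_zero _ (Fin.succ_injective _ h).symm
  have rjj : ∀ i j : Fin N, r i.succ.succ j.succ.succ = if i = j then 1 else 0 := by
    intro i j
    change (Pi.single i.succ.succ 1 : Fin (N + 2) → ℂ) j.succ.succ = _
    rw [Pi.single_apply]
    simp only [Fin.succ_inj, eq_comm]
  have hM : (Matrix.of r) * star (Matrix.of r) = 1 := by
    ext i j
    rw [Matrix.mul_apply, Fin.sum_univ_succ, Fin.sum_univ_succ, Matrix.one_apply]
    simp only [Matrix.star_apply, Matrix.of_apply, RCLike.star_def]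
    induction i using Fin.cases with
    | zero =>
      induction j using Fin.cases with
      | zero => simpa [r00, r01, r0] using h1
      | succ j =>
        induction j using Fin.cases with
        | zero =>
          rw [if_neg (Fin.succ_ne_zero _).symm]
          simpa [r00, r01, r0, r10, r11, r1] using h3
        | succ j =>
          rw [if_neg (Fin.succ_ne_zero _).symm]
          simp [r0, rj0, rj1]
    | succ i =>
      induction i using Fin.cases with
      | zero =>
        induction j using Fin.cases with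
        | zero =>
          rw [if_neg (Fin.succ_ne_zero _)]
          simpa [r00, r01, r0, r10, r11, r1] using h4
        | succ j =>
          induction j using Fin.cases with
          | zero =>
            rw [if_pos rfl]
            simpa [r10, r11, r1] using h2
          | succ j =>
            rw [if_neg (fun h => Fin.succ_ne_zero _ (Fin.succ_injective _ h).symm)]
            simp [r1, rj0, rj1]
      | succ i =>
        induction j using Fin.cases with
        | zero =>
          rw [if_neg (Fin.succ_ne_zero _)]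
          simp [r0, rj0, rj1]
        | succ j =>
          induction j using Fin.cases with
          | zero =>
            rw [if_neg (fun h => Fin.succ_ne_zero _ (Fin.succ_injective _ h))]
            simp [r1, rj0, rj1]
          | succ j =>
            simp [rj0, rj1, rjj, Fin.succ_inj, eq_comm]
  refine ⟨⟨Matrix.of r, Matrix.mem_unitaryGroup_iff.2 hM⟩, fun z => ⟨?_, ?_, fun j => ?_⟩⟩
  · rw [uni_apply, Fin.sum_univ_succ, Fin.sum_univ_succ]
    simp only [Fin.succ_zero_eq_one, Matrix.of_apply, r00, r01, r0, zero_mul,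
      Finset.sum_const_zero, add_zero]
  · rw [uni_apply, Fin.sum_univ_succ, Fin.sum_univ_succ]
    simp only [Fin.succ_zero_eq_one, Matrix.of_apply, r10, r11, r1, zero_mul,
      Finset.sum_const_zero, add_zero]
  · rw [uni_apply, Fin.sum_univ_succ, Fin.sum_univ_succ]
    simp [rj0, rj1, rjj]

/-! ### The vectors -/

private def pv (z : Fin (m + 2) → Cn (N + 2)) (k : Fin (N + 2)) : Fin (m + 2) → ℝ :=
  fun a => (z a k).re

private def qv (z : Fin (m + 2) → Cn (N + 2)) (k : Fin (N + 2)) : Fin (m + 2) → ℝ :=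
  fun a => (z a k).im

private def Cv (h : Fin m → Cn (N + 2)) (z : Fin (m + 2) → Cn (N + 2)) :
    Fin m → Fin (m + 2) → ℝ := fun b a => inner ℝ (z a) (h b)

private theorem inner_single' (a : Cn (N + 2)) (k : Fin (N + 2)) (z : ℂ) :
    inner ℝ a (EuclideanSpace.single k z) = (starRingEnd ℂ (a k) * z).re := by
  rw [real_inner_eq]
  congr 1
  rw [Finset.sum_eq_single k]
  · simp
  · intro j _ hj
    simp [hj]
  · intro hk
    exact absurd (Finset.mem_univ k) hk

private theorem DD_frame (h : Fin m → Cn (N + 2)) (z : Fin (m + 2) → Cn (N + 2)) (c s : ℝ) :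
    DD z (Fin.cons (EuclideanSpace.single 0 1)
        (Fin.cons (EuclideanSpace.single 0 (c * Complex.I) + EuclideanSpace.single 1 (s : ℂ))
          h : Fin (m + 1) → Cn (N + 2)) : Fin (m + 2) → Cn (N + 2)) =
      BC (Cv h z) (pv z 0) (c • qv z 0 + s • pv z 1) := by
  unfold DD BC
  rw [← Matrix.det_transpose]
  congr 1
  ext b a
  simp only [Matrix.transpose_apply, Matrix.of_apply]
  induction b using Fin.cases with
  | zero =>
    simp only [Fin.cons_zero, inner_single', pv]
    simp
  | succ b =>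
    induction b using Fin.cases with
    | zero =>
      simp only [Fin.cons_succ, Fin.cons_zero, inner_add_right, inner_single', pv, qv,
        Pi.add_apply, Pi.smul_apply, smul_eq_mul]
      simp [mul_comm]
    | succ b =>
      simp only [Fin.cons_succ, Cv]

private theorem Cv_act {h : Fin m → Cn (N + 2)} (hh : ∀ b, h b 0 = 0 ∧ h b 1 = 0)
    {H : Un (N + 2)} (hH : ∀ (z : Cn (N + 2)) (j : Fin N), (uni H z) j.succ.succ = z j.succ.succ)
    (z : Fin (m + 2) → Cn (N + 2)) : Cv h (fun a => uni H (z a)) = Cv h z := by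
  funext b a
  have h1 : h b (Fin.succ 0) = 0 := (hh b).2
  simp only [Cv, real_inner_eq]
  rw [Fin.sum_univ_succ, Fin.sum_univ_succ, Fin.sum_univ_succ, Fin.sum_univ_succ]
  simp only [(hh b).1, h1, mul_zero, zero_add, hH]

/-! ### The four functions -/

private def Wf (h : Fin m → Cn (N + 2)) (z : Fin (m + 2) → Cn (N + 2)) : ℝ :=
  BC (Cv h z) (pv z 0) (qv z 0) + BC (Cv h z) (pv z 1) (qv z 1)

private def Sf (h : Fin m → Cn (N + 2)) (z : Fin (m + 2) → Cn (N + 2)) : ℝ :=
  BC (Cv h z) (pv z 0) (qv z 0) - BC (Cv h z) (pv z 1) (qv z 1)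

private def Df (h : Fin m → Cn (N + 2)) (z : Fin (m + 2) → Cn (N + 2)) : ℂ :=
  ⟨BC (Cv h z) (pv z 0) (pv z 1) - BC (Cv h z) (qv z 0) (qv z 1),
    BC (Cv h z) (pv z 0) (qv z 1) + BC (Cv h z) (qv z 0) (pv z 1)⟩

private def Zf (h : Fin m → Cn (N + 2)) (z : Fin (m + 2) → Cn (N + 2)) : ℂ :=
  ⟨BC (Cv h z) (pv z 0) (pv z 1) + BC (Cv h z) (qv z 0) (qv z 1),
    BC (Cv h z) (pv z 0) (qv z 1) - BC (Cv h z) (qv z 0) (pv z 1)⟩

private theorem sq_f (h : Fin m → Cn (N + 2)) (z : Fin (m + 2) → Cn (N + 2)) :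
    Wf h z ^ 2 + Complex.normSq (Df h z) = Sf h z ^ 2 + Complex.normSq (Zf h z) := by
  have hp := BC_plu (Cv h z) (pv z 0) (qv z 0) (pv z 1) (qv z 1)
  simp only [Wf, Sf, Df, Zf, Complex.normSq_apply]
  linear_combination 4 * hp

private theorem DD_f (h : Fin m → Cn (N + 2)) (z : Fin (m + 2) → Cn (N + 2)) (c s : ℝ) :
    DD z (Fin.cons (EuclideanSpace.single 0 1)
        (Fin.cons (EuclideanSpace.single 0 (c * Complex.I) + EuclideanSpace.single 1 (s : ℂ))
          h : Fin (m + 1) → Cn (N + 2)) : Fin (m + 2) → Cn (N + 2)) =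
      (c * Wf h z + s * (Df h z).re + c * Sf h z + s * (Zf h z).re) / 2 := by
  rw [DD_frame, BC_add_right, BC_smul_right, BC_smul_right]
  simp only [Wf, Sf, Df, Zf]
  ring

private theorem f_emb (h : Fin m → Cn (N + 2)) {z z' : Fin (m + 2) → Cn (N + 2)} {α β : ℂ}
    (hrow : Complex.normSq α + Complex.normSq β = 1) (hC : Cv h z' = Cv h z)
    (h0 : ∀ a, z' a 0 = α * z a 0 + β * z a 1)
    (h1 : ∀ a, z' a 1 = -starRingEnd ℂ β * z a 0 + starRingEnd ℂ α * z a 1) :
    Wf h z' = Wf h z ∧ Df h z' = Df h z ∧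
      Sf h z' = Sf h z * (Complex.normSq α - Complex.normSq β) +
        2 * ((Complex.I * starRingEnd ℂ (Zf h z)) * α * starRingEnd ℂ β).re := by
  have p0 : pv z' 0 = (α.re • pv z 0 + (-α.im) • qv z 0) + (β.re • pv z 1 + (-β.im) • qv z 1) := by
    funext a
    simp only [pv, qv, h0, Pi.add_apply, Pi.smul_apply, smul_eq_mul, Complex.add_re,
      Complex.mul_re]
    ring
  have q0 : qv z' 0 = (α.im • pv z 0 + α.re • qv z 0) + (β.im • pv z 1 + β.re • qv z 1) := by
    funext a
    simp only [pv, qv, h0, Pi.add_apply, Pi.smul_apply, smul_eq_mul, Complex.add_im,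
      Complex.mul_im]
    ring
  have p1 : pv z' 1 = ((-β.re) • pv z 0 + (-β.im) • qv z 0) +
      (α.re • pv z 1 + α.im • qv z 1) := by
    funext a
    simp only [pv, qv, h1, Pi.add_apply, Pi.smul_apply, smul_eq_mul, Complex.add_re,
      Complex.mul_re, Complex.neg_re, Complex.neg_im, Complex.conj_re, Complex.conj_im]
    ring
  have q1 : qv z' 1 = (β.im • pv z 0 + (-β.re) • qv z 0) +
      ((-α.im) • pv z 1 + α.re • qv z 1) := by
    funext a
    simp only [pv, qv, h1, Pi.add_apply, Pi.smul_apply, smul_eq_mul, Complex.add_im,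
      Complex.mul_im, Complex.neg_re, Complex.neg_im, Complex.conj_re, Complex.conj_im]
    ring
  have hr := hrow
  simp only [Complex.normSq_apply] at hr
  set P0 := pv z 0
  set Q0 := qv z 0
  set P1 := pv z 1
  set Q1 := qv z 1
  set C := Cv h z
  have s1 := BC_swap C P0 Q0
  have s2 := BC_swap C P0 P1
  have s3 := BC_swap C P0 Q1
  have s4 := BC_swap C Q0 P1
  have s5 := BC_swap C Q0 Q1
  have s6 := BC_swap C P1 Q1
  refine ⟨?_, ?_, ?_⟩
  · simp only [Wf, hC, p0, q0, p1, q1, BC_add_left, BC_add_right, BC_smul_left, BC_smul_right,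
      BC_self, s1, s2, s3, s4, s5, s6]
    linear_combination (BC C P0 Q0 + BC C P1 Q1) * hr
  · apply Complex.ext
    · simp only [Df, hC, p0, q0, p1, q1, BC_add_left, BC_add_right, BC_smul_left, BC_smul_right,
        BC_self, s1, s2, s3, s4, s5, s6]
      linear_combination (BC C P0 P1 - BC C Q0 Q1) * hr
    · simp only [Df, hC, p0, q0, p1, q1, BC_add_left, BC_add_right, BC_smul_left, BC_smul_right,
        BC_self, s1, s2, s3, s4, s5, s6]
      linear_combination (BC C P0 Q1 + BC C Q0 P1) * hr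
  · simp only [Sf, Zf, hC, p0, q0, p1, q1, BC_add_left, BC_add_right, BC_smul_left,
      BC_smul_right, BC_self, s1, s2, s3, s4, s5, s6, Complex.normSq_apply, Complex.mul_re,
      Complex.mul_im, Complex.conj_re, Complex.conj_im, Complex.I_re, Complex.I_im]
    ring

private theorem f_phase (h : Fin m → Cn (N + 2)) {z z' : Fin (m + 2) → Cn (N + 2)} {ζ : ℂ}
    (hζ : Complex.normSq ζ = 1) (hC : Cv h z' = Cv h z)
    (h0 : ∀ a, z' a 0 = ζ * z a 0) (h1 : ∀ a, z' a 1 = ζ * z a 1) :
    Wf h z' = Wf h z ∧ Df h z' = ζ ^ 2 * Df h z ∧ Sf h z' = Sf h z := by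
  have p0 : pv z' 0 = ζ.re • pv z 0 + (-ζ.im) • qv z 0 := by
    funext a
    simp only [pv, qv, h0, Pi.add_apply, Pi.smul_apply, smul_eq_mul, Complex.mul_re]
    ring
  have q0 : qv z' 0 = ζ.im • pv z 0 + ζ.re • qv z 0 := by
    funext a
    simp only [pv, qv, h0, Pi.add_apply, Pi.smul_apply, smul_eq_mul, Complex.mul_im]
    ring
  have p1 : pv z' 1 = ζ.re • pv z 1 + (-ζ.im) • qv z 1 := by
    funext a
    simp only [pv, qv, h1, Pi.add_apply, Pi.smul_apply, smul_eq_mul, Complex.mul_re]
    ring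
  have q1 : qv z' 1 = ζ.im • pv z 1 + ζ.re • qv z 1 := by
    funext a
    simp only [pv, qv, h1, Pi.add_apply, Pi.smul_apply, smul_eq_mul, Complex.mul_im]
    ring
  have hr := hζ
  simp only [Complex.normSq_apply] at hr
  set P0 := pv z 0
  set Q0 := qv z 0
  set P1 := pv z 1
  set Q1 := qv z 1
  set C := Cv h z
  have s1 := BC_swap C P0 Q0
  have s2 := BC_swap C P0 P1
  have s3 := BC_swap C P0 Q1
  have s4 := BC_swap C Q0 P1
  have s5 := BC_swap C Q0 Q1
  have s6 := BC_swap C P1 Q1
  refine ⟨?_, ?_, ?_⟩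
  · simp only [Wf, hC, p0, q0, p1, q1, BC_add_left, BC_add_right, BC_smul_left, BC_smul_right,
      BC_self, s1, s2, s3, s4, s5, s6]
    linear_combination (BC C P0 Q0 + BC C P1 Q1) * hr
  · rw [pow_two]
    apply Complex.ext
    · simp only [Df, hC, p0, q0, p1, q1, BC_add_left, BC_add_right, BC_smul_left, BC_smul_right,
        BC_self, s1, s2, s3, s4, s5, s6, Complex.mul_re, Complex.mul_im]
      ring
    · simp only [Df, hC, p0, q0, p1, q1, BC_add_left, BC_add_right, BC_smul_left, BC_smul_right,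
        BC_self, s1, s2, s3, s4, s5, s6, Complex.mul_re, Complex.mul_im]
      ring
  · simp only [Sf, hC, p0, q0, p1, q1, BC_add_left, BC_add_right, BC_smul_left, BC_smul_right,
      BC_self, s1, s2, s3, s4, s5, s6]
    linear_combination (BC C P0 Q0 - BC C P1 Q1) * hr

/-! ### Continuity -/

private theorem cont_coord (w : Cn (N + 2)) (k : Fin (N + 2)) :
    Continuous (fun φ : Un (N + 2) => (uni φ w) k) :=
  (EuclideanSpace.proj k : Cn (N + 2) →L[ℂ] ℂ).continuous.comp (continuous_uni w)

private theorem cont_B (h : Fin m → Cn (N + 2)) (w : Fin (m + 2) → Cn (N + 2))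
    {x y : Un (N + 2) → Fin (m + 2) → ℝ} (hx : ∀ a, Continuous fun φ => x φ a)
    (hy : ∀ a, Continuous fun φ => y φ a) :
    Continuous fun φ : Un (N + 2) => BC (Cv h (fun a => uni φ (w a))) (x φ) (y φ) :=
  continuous_BC (fun b a => (continuous_uni (w a)).inner continuous_const) hx hy

private theorem cont_p (w : Fin (m + 2) → Cn (N + 2)) (k : Fin (N + 2)) (a : Fin (m + 2)) :
    Continuous fun φ : Un (N + 2) => pv (fun a => uni φ (w a)) k a :=
  Complex.continuous_re.comp (cont_coord (w a) k)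

private theorem cont_q (w : Fin (m + 2) → Cn (N + 2)) (k : Fin (N + 2)) (a : Fin (m + 2)) :
    Continuous fun φ : Un (N + 2) => qv (fun a => uni φ (w a)) k a :=
  Complex.continuous_im.comp (cont_coord (w a) k)

private theorem cont_mk {X : Type*} [TopologicalSpace X] {f g : X → ℝ} (hf : Continuous f)
    (hg : Continuous g) : Continuous fun x => (⟨f x, g x⟩ : ℂ) := by
  have h : (fun x => (⟨f x, g x⟩ : ℂ)) = fun x => (f x : ℂ) + (g x : ℂ) * Complex.I := by
    funext x
    exact Complex.mk_eq_add_mul_I _ _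
  rw [h]
  exact (Complex.continuous_ofReal.comp hf).add
    ((Complex.continuous_ofReal.comp hg).mul continuous_const)

theorem meanI {N m : ℕ} (h : Fin m → Cn (N + 2)) (hh : ∀ b, h b 0 = 0 ∧ h b 1 = 0)
    (w : Fin (m + 2) → Cn (N + 2)) :
    ∃ P Q : ℝ, ∀ c s : ℝ, c ^ 2 + s ^ 2 = 1 →
      ∫ φ, |DD (fun a => uni φ (w a)) (Fin.cons (EuclideanSpace.single 0 1)
        (Fin.cons (EuclideanSpace.single 0 (c * Complex.I) + EuclideanSpace.single 1 (s : ℂ))
          h : Fin (m + 1) → Cn (N + 2)) : Fin (m + 2) → Cn (N + 2))| ∂(haarU (N + 2)) =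
        P + c ^ 2 * Q := by
  obtain ⟨P, Q, hPQ⟩ := Pool.Agent.H35.T3.mean_gen (N := N + 2)
    (W := fun φ => Wf h (fun a => uni φ (w a)))
    (S := fun φ => Sf h (fun a => uni φ (w a)))
    (D := fun φ => Df h (fun a => uni φ (w a)))
    (Z := fun φ => Zf h (fun a => uni φ (w a)))
    ((cont_B h w (cont_p w 0) (cont_q w 0)).add (cont_B h w (cont_p w 1) (cont_q w 1)))
    ((cont_B h w (cont_p w 0) (cont_q w 0)).sub (cont_B h w (cont_p w 1) (cont_q w 1)))
    (cont_mk ((cont_B h w (cont_p w 0) (cont_p w 1)).sub (cont_B h w (cont_q w 0) (cont_q w 1)))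
      ((cont_B h w (cont_p w 0) (cont_q w 1)).add (cont_B h w (cont_q w 0) (cont_p w 1))))
    (cont_mk ((cont_B h w (cont_p w 0) (cont_p w 1)).add (cont_B h w (cont_q w 0) (cont_q w 1)))
      ((cont_B h w (cont_p w 0) (cont_q w 1)).sub (cont_B h w (cont_q w 0) (cont_p w 1))))
    (fun φ => sq_f h _)
    (by
      intro g
      have hrow := first_row g
      set α := (g : Matrix (Fin 2) (Fin 2) ℂ) 0 0
      set β := (g : Matrix (Fin 2) (Fin 2) ℂ) 0 1
      have hrow' : α * starRingEnd ℂ α + β * starRingEnd ℂ β = 1 := by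
        rw [Complex.mul_conj, Complex.mul_conj]
        exact_mod_cast hrow
      obtain ⟨H, hH⟩ := act (N := N) (a := α) (b := β) (c := -starRingEnd ℂ β)
        (d := starRingEnd ℂ α) hrow'
        (by
          rw [map_neg, Complex.conj_conj, Complex.conj_conj]
          linear_combination hrow')
        (by
          rw [map_neg, Complex.conj_conj, Complex.conj_conj]
          ring)
      refine ⟨H, fun φ => ?_⟩
      have hz : (fun a => uni (H * φ) (w a)) = fun a => uni H (uni φ (w a)) := by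
        funext a
        exact uni_mul _ _ _
      simp only [hz]
      have key := f_emb h (z := fun a => uni φ (w a)) (z' := fun a => uni H (uni φ (w a)))
        hrow (Cv_act hh (fun z j => (hH z).2.2 j) _) (fun a => (hH _).1) (fun a => (hH _).2.1)
      rw [Complex.normSq_eq_norm_sq, Complex.normSq_eq_norm_sq] at key
      exact key)
    (by
      intro ζ hζ
      have hz1 : Complex.normSq ζ = 1 := by
        rw [Complex.normSq_eq_norm_sq, hζ]
        norm_num
      have hz2 : ζ * starRingEnd ℂ ζ = 1 := by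
        rw [Complex.mul_conj, hz1]
        simp
      obtain ⟨H, hH⟩ := act (N := N) (a := ζ) (b := 0) (c := 0) (d := ζ)
        (by rw [map_zero]; linear_combination hz2) (by rw [map_zero]; linear_combination hz2)
        (by rw [map_zero]; ring)
      refine ⟨H, fun φ => ?_⟩
      have hz : (fun a => uni (H * φ) (w a)) = fun a => uni H (uni φ (w a)) := by
        funext a
        exact uni_mul _ _ _
      simp only [hz]
      exact f_phase h (z := fun a => uni φ (w a)) (z' := fun a => uni H (uni φ (w a)))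
        hz1 (Cv_act hh (fun z j => (hH z).2.2 j) _)
        (fun a => by rw [(hH _).1, zero_mul, add_zero])
        (fun a => by rw [(hH _).2.1, zero_mul, zero_add]))
  refine ⟨P, Q, fun c s hcs => ?_⟩
  rw [← hPQ c s hcs]
  simp only [DD_f]

end Pool.Agent.H35.NI
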