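import Mathlib
import Pool.Agent.H35.NI.MeanI
import Pool.Agent.H35.NI.Alg
import Pool.Agent.H35.NI.NF

set_option autoImplicit false

/-!
# Aff: `gg e w` as a linear combination of `dz e k`, `k ≤ i/2`, for fixed `w`

Let `f(x) = gg (ef hin (√x)) w`, `x : ℕ → ℝ` with values in `[0,1]`, `p = i / 2`.
* it depends only on `x_j`, `j < p`;
* symmetric: a permutation `σ` of the blocks `(2j, 2j+1)`, `j < p`, of coordinates is a unitary
  permutation `ψ` of `ℂⁿ` and an (even) permutation of the frame: `ef (c ∘ σ)` is, up to the order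
  of the vectors, `ψ (ef c)`; `gg_uni`, and `|DD|` does not depend on the order (`gg_comb` with a
  permutation matrix, `|det| = 1`);
* affine in `x_0`: `meanI` (if `2 ≤ i`; `gg_symm`; the frame is
  `Fin.cons s0 (Fin.cons (…) h)`); if `i < 2` then `p = 0` and there is nothing to show.
`sym_aff`, `dz_ef`, `normal_form`, `gg_comb`, `dz_comb`, `gg_uni`, `dz_uni`.
-/

open MeasureTheory Pool.Agent.H61.UProj Pool.Agent.H89.CZ

noncomputable section

namespace Pool.Agent.H35.NI

variable {n i : ℕ}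

private theorem re_inner (x y : Cn n) : (inner ℂ x y : ℂ).re = inner ℝ x y := by
  rw [PiLp.inner_apply, PiLp.inner_apply, Complex.re_sum]
  refine Finset.sum_congr rfl fun j _ => ?_
  rw [Complex.inner, RCLike.inner_apply]

/-- The order of the vectors does not matter. -/
private theorem gg_perm (π : Equiv.Perm (Fin i)) (e w : Fin i → Cn n) :
    gg (fun a => e (π a)) w = gg e w := by
  unfold gg
  refine integral_congr_ae (Filter.Eventually.of_forall fun φ => ?_)
  have h : DD (fun a => uni φ (e (π a))) w =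
      ((Equiv.Perm.sign π : ℤ) : ℝ) * DD (fun a => uni φ (e a)) w := by
    unfold DD
    rw [← Matrix.det_permute π]
    rfl
  simp only []
  rw [h, abs_mul]
  have h2 : |((Equiv.Perm.sign π : ℤ) : ℝ)| = 1 := by
    rcases Int.units_eq_one_or (Equiv.Perm.sign π) with h3 | h3 <;> rw [h3] <;> simp
  rw [h2, one_mul]

private theorem dep {w : Fin i → Cn n} (hin : i ≤ n) {x y : ℕ → ℝ}
    (h : ∀ j < i / 2, x j = y j) :
    gg (ef hin fun j => √(x j)) w = gg (ef hin fun j => √(y j)) w := by
  congr 1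
  funext a
  unfold ef
  by_cases ha : (a : ℕ) % 2 = 0
  · rw [if_pos ha, if_pos ha]
  · have h1 := a.2
    have h2 := h ((a : ℕ) / 2) (by omega)
    simp only [if_neg ha, h2]

/-- The permutation of the indices for a permutation of the blocks. -/
private theorem exists_block {σ : Equiv.Perm ℕ} (hσ : ∀ j, i / 2 ≤ j → σ j = j) :
    ∃ π : Equiv.Perm (Fin i), ∀ a, (π a : ℕ) = 2 * σ ((a : ℕ) / 2) + (a : ℕ) % 2 := by
  have hlt : ∀ (τ : Equiv.Perm ℕ), (∀ j, i / 2 ≤ j → τ j = j) → ∀ a : Fin i,
      2 * τ ((a : ℕ) / 2) + (a : ℕ) % 2 < i := by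
    intro τ hτ a
    have h1 := a.2
    by_cases h2 : i / 2 ≤ (a : ℕ) / 2
    · rw [hτ _ h2]
      omega
    · have h3 : τ ((a : ℕ) / 2) < i / 2 := by
        by_contra h4
        have h5 := hτ _ (not_lt.1 h4)
        have h6 := τ.injective h5
        omega
      omega
  have hσ' : ∀ j, i / 2 ≤ j → σ.symm j = j := fun j hj => by
    rw [Equiv.symm_apply_eq]
    exact (hσ j hj).symm
  refine ⟨⟨fun a => ⟨_, hlt σ hσ a⟩, fun a => ⟨_, hlt σ.symm hσ' a⟩, ?_, ?_⟩, fun a => rfl⟩
  · intro a
    apply Fin.ext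
    simp only
    have h1 : (2 * σ ((a : ℕ) / 2) + (a : ℕ) % 2) / 2 = σ ((a : ℕ) / 2) := by omega
    have h2 : (2 * σ ((a : ℕ) / 2) + (a : ℕ) % 2) % 2 = (a : ℕ) % 2 := by omega
    rw [h1, h2, Equiv.symm_apply_apply]
    omega
  · intro a
    apply Fin.ext
    simp only
    have h1 : (2 * σ.symm ((a : ℕ) / 2) + (a : ℕ) % 2) / 2 = σ.symm ((a : ℕ) / 2) := by omega
    have h2 : (2 * σ.symm ((a : ℕ) / 2) + (a : ℕ) % 2) % 2 = (a : ℕ) % 2 := by omega
    rw [h1, h2, Equiv.apply_symm_apply]
    omega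

private theorem sym {w : Fin i → Cn n} (hin : i ≤ n) {σ : Equiv.Perm ℕ}
    (hσ : ∀ j, i / 2 ≤ j → σ j = j) {c : ℕ → ℝ} (hc : ∀ j, 0 ≤ c j ∧ c j ≤ 1) :
    gg (ef hin fun j => c (σ j)) w = gg (ef hin c) w := by
  obtain ⟨π, hπ⟩ := exists_block hσ
  obtain ⟨ψ, hψ⟩ := uni_of_gram (e := ef hin fun j => c (σ j)) (f := fun a => ef hin c (π a)) (by
    intro a b
    apply Complex.ext
    · rw [re_inner, re_inner, orthonormal_iff_ite.1 (orthonormal_ef hin fun j => hc (σ j)),
        orthonormal_iff_ite.1 (orthonormal_ef hin hc)]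
      exact if_congr (π.apply_eq_iff_eq (x := a) (y := b)).symm rfl rfl
    · have h1 := om_ef hin (fun j => c (σ j)) a b
      have h2 := om_ef hin c (π a) (π b)
      unfold om at h1 h2
      rw [h1, h2]
      have hd : ∀ a : Fin i, (π a : ℕ) / 2 = σ ((a : ℕ) / 2) := fun a => by rw [hπ]; omega
      have hm : ∀ a : Fin i, (π a : ℕ) % 2 = (a : ℕ) % 2 := fun a => by rw [hπ]; omega
      have hs : ∀ a b : Fin i, ((π a : ℕ) % 2 = 0 ∧ (π b : ℕ) = π a + 1) ↔
          ((a : ℕ) % 2 = 0 ∧ (b : ℕ) = a + 1) := by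
        intro a b
        have h3 := hd a
        have h4 := hd b
        have h5 := hm a
        have h6 := hm b
        constructor
        · rintro ⟨h7, h8⟩
          have h9 : σ ((a : ℕ) / 2) = σ ((b : ℕ) / 2) := by omega
          have h10 := σ.injective h9
          omega
        · rintro ⟨h7, h8⟩
          have h9 : (b : ℕ) / 2 = (a : ℕ) / 2 := by omega
          rw [h9] at h4
          omega
      rw [hd, hd]
      exact (if_congr (hs a b) rfl (if_congr (hs b a) rfl rfl)).symm)
  have h : (ef hin fun j => c (σ j)) = fun a => uni ψ (ef hin c (π a)) := funext hψ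
  rw [h, gg_uni ψ (fun a => ef hin c (π a)) w, gg_perm π]

private theorem aff0 {w : Fin i → Cn n} (hin : i ≤ n) (x : ℕ → ℝ) :
    ∃ P Q : ℝ, ∀ t : ℝ, 0 ≤ t → t ≤ 1 →
      gg (ef hin fun j => √(Function.update x 0 t j)) w = P + t * Q := by
  by_cases hi : i < 2
  · refine ⟨gg (ef hin fun j => √(x j)) w, 0, fun t _ _ => ?_⟩
    rw [mul_zero, add_zero]
    exact dep hin fun j hj => by omega
  obtain ⟨m, rfl⟩ : ∃ m, i = m + 2 := ⟨i - 2, by omega⟩
  obtain ⟨N, rfl⟩ : ∃ N, n = N + 2 := ⟨n - 2, by omega⟩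
  obtain ⟨P, Q, hPQ⟩ := meanI (N := N) (m := m)
    (fun b => ef hin (fun j => √(x j)) b.succ.succ) (by
      intro b
      have h1 : ((b.succ.succ : Fin (m + 2)) : ℕ) = b + 2 := by simp
      have h2 := b.2
      unfold ef
      by_cases hb : ((b.succ.succ : Fin (m + 2)) : ℕ) % 2 = 0
      · rw [if_pos hb]
        constructor
        · rw [PiLp.single_apply, if_neg]
          intro h
          have h3 := congrArg Fin.val h
          simp at h3
        · rw [PiLp.single_apply, if_neg]
          intro h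
          have h3 := congrArg Fin.val h
          simp at h3
      · rw [if_neg hb]
        constructor
        · rw [PiLp.add_apply, PiLp.single_apply, PiLp.single_apply, if_neg, if_neg, add_zero]
          · intro h
            have h3 := congrArg Fin.val h
            simp at h3
          · intro h
            have h3 := congrArg Fin.val h
            simp at h3
        · rw [PiLp.add_apply, PiLp.single_apply, PiLp.single_apply, if_neg, if_neg, add_zero]
          · intro h
            have h3 := congrArg Fin.val h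
            simp at h3
          · intro h
            have h3 := congrArg Fin.val h
            simp at h3
            omega) w
  refine ⟨P, Q, fun t ht0 ht1 => ?_⟩
  have hs : √t ^ 2 + √(1 - t) ^ 2 = 1 := by
    rw [Real.sq_sqrt ht0, Real.sq_sqrt (by linarith)]
    ring
  have h1 := hPQ (√t) (√(1 - t)) hs
  rw [Real.sq_sqrt ht0] at h1
  rw [gg_symm, ← h1]
  unfold gg
  refine integral_congr_ae (Filter.Eventually.of_forall fun φ => ?_)
  simp only []
  congr 2
  funext a
  refine Fin.cases ?_ (fun a => Fin.cases ?_ (fun b => ?_) a) a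
  · rw [Fin.cons_zero, ef, if_pos (by simp)]
    rfl
  · rw [Fin.cons_succ, Fin.cons_zero, ef, if_neg (by simp)]
    have h3 : ((Fin.succ 0 : Fin (m + 2)) : ℕ) = 1 := by simp
    have h4 : ((Fin.succ 0 : Fin (m + 2)) : ℕ) / 2 = 0 := by simp
    have h5 : Real.sqrt (Function.update x 0 t 0) ^ 2 = t := by
      rw [Function.update_self, Real.sq_sqrt ht0]
    simp only [h4, h5]
    rw [Function.update_self]
    congr 1
  · rw [Fin.cons_succ, Fin.cons_succ]
    unfold ef
    have h3 : ((b.succ.succ : Fin (m + 2)) : ℕ) / 2 ≠ 0 := by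
      have h4 : ((b.succ.succ : Fin (m + 2)) : ℕ) = b + 2 := by simp
      omega
    simp only [Function.update_of_ne h3]

theorem gg_aff (hin : i ≤ n) (w : Fin i → Cn n) :
    ∃ α : ℕ → ℝ, ∀ e : Fin i → Cn n, Orthonormal ℝ e →
      gg e w = ∑ k ∈ Finset.range (i / 2 + 1), α k * dz e k := by
  obtain ⟨α, hα⟩ := sym_aff (i / 2) (fun x => gg (ef hin fun j => √(x j)) w)
    (fun x y h => dep hin h)
    (fun σ hσ x hx => sym hin hσ (c := fun j => √(x j)) fun j =>
      ⟨Real.sqrt_nonneg _, Real.sqrt_le_one.2 (hx j).2⟩)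
    (fun x _ => aff0 hin x)
  refine ⟨α, fun e he => ?_⟩
  obtain ⟨c, ψ, R, hc, hR, hcomb⟩ := normal_form hin he
  have h1 := hα (fun j => c j ^ 2) fun j => ⟨sq_nonneg _, pow_le_one₀ (hc j).1 (hc j).2⟩
  have h2 : (fun j => √(c j ^ 2)) = c := funext fun j => Real.sqrt_sq (hc j).1
  simp only [h2] at h1
  rw [gg_comb hcomb, hR, one_mul, gg_uni ψ (ef hin c) w, h1]
  refine Finset.sum_congr rfl fun k _ => ?_
  have h3 : R.det ^ 2 = 1 := by rw [← sq_abs, hR, one_pow]
  rw [dz_comb hcomb, h3, one_mul, dz_uni ψ (ef hin c), dz_ef hin hc]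

end Pool.Agent.H35.NI
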