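import Mathlib
import Pool.Agent.H35.NI.Aff

set_option autoImplicit false

/-!
# Str: the structure of `gg`

Let `p = i/2`.  The `p+1` frames `e^j = ef hin (1,…,1,0,…)` (`j` ones, `j = 0, …, p`) have
`dz e^j k = (1 + k²)^j`, `k ≤ p`: an invertible (Vandermonde) matrix.  So in `gg_aff` the
coefficients are `α_k(w) = ∑_j m k j gg e^j w`.  For orthonormal `w`: `gg e^j w = gg w e^j =
∑_l α_l(e^j) dz w l` (`gg_symm`, `gg_aff` for the fixed second argument `e^j`).  For general `w`:
`frame` (both sides are multiplied by `t²`, or vanish).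
-/

open MeasureTheory Pool.Agent.H61.UProj Pool.Agent.H89.CZ

noncomputable section

namespace Pool.Agent.H35.NI

variable {n i : ℕ}

open Matrix in
/-- Interpolation at the nodes `1 + k²`, `k ≤ p`, by a polynomial of degree at most `p`. -/
private theorem str_vand (p : ℕ) (c : ℕ → ℝ) : ∃ m : ℕ → ℝ, ∀ k, k ≤ p →
    ∑ j ∈ Finset.range (p + 1), m j * (1 + (k : ℝ) ^ 2) ^ j = c k := by
  classical
  let v : Fin (p + 1) → ℝ := fun m => 1 + ((m : ℕ) : ℝ) ^ 2
  have hinj : Function.Injective v := by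
    intro a b hab
    have h1 : ((a : ℕ) : ℝ) ^ 2 = ((b : ℕ) : ℝ) ^ 2 := by
      have h := hab
      simp only [v] at h
      linarith
    have h2 : ((a : ℕ) : ℝ) = ((b : ℕ) : ℝ) :=
      (pow_left_inj₀ (Nat.cast_nonneg _) (Nat.cast_nonneg _) two_ne_zero).1 h1
    exact Fin.ext (by exact_mod_cast h2)
  have hdet : (Matrix.vandermonde v).det ≠ 0 := Matrix.det_vandermonde_ne_zero_iff.2 hinj
  have hu : IsUnit (Matrix.vandermonde v).det := isUnit_iff_ne_zero.2 hdet
  let cc : Fin (p + 1) → ℝ := fun k => c k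
  let al : Fin (p + 1) → ℝ := (Matrix.vandermonde v)⁻¹ *ᵥ cc
  have hal : Matrix.vandermonde v *ᵥ al = cc := by
    simp only [al, Matrix.mulVec_mulVec, Matrix.mul_nonsing_inv _ hu, Matrix.one_mulVec]
  refine ⟨fun m => if h : m < p + 1 then al ⟨m, h⟩ else 0, fun k hk => ?_⟩
  have h3 := congrFun hal ⟨k, by omega⟩
  rw [Matrix.mulVec, dotProduct] at h3
  have h4 : cc ⟨k, by omega⟩ = c k := rfl
  rw [← h4, ← h3, Finset.sum_range]
  refine Finset.sum_congr rfl fun m _ => ?_
  beta_reduce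
  rw [dif_pos m.2, Matrix.vandermonde_apply]
  simp only [v, Fin.eta]
  ring

/-- The cosines `1, …, 1, 0, …` (`j` ones). -/
private def sc (j m : ℕ) : ℝ := if m < j then 1 else 0

private theorem sc_bd (j m : ℕ) : 0 ≤ sc j m ∧ sc j m ≤ 1 := by
  unfold sc
  split_ifs <;> norm_num

private theorem dz_sc (hin : i ≤ n) {j : ℕ} (hj : j ≤ i / 2) (z : ℝ) :
    dz (ef hin (sc j)) z = (1 + z ^ 2) ^ j := by
  rw [dz_ef hin (sc_bd j) z]
  have h1 : ∀ m, (1 + z ^ 2 * sc j m ^ 2 : ℝ) = if m < j then 1 + z ^ 2 else 1 := by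
    intro m
    unfold sc
    split_ifs <;> simp
  simp only [h1]
  rw [Finset.prod_ite, Finset.prod_const_one, mul_one, Finset.prod_const]
  congr 1
  have h2 : (Finset.range (i / 2)).filter (fun m => m < j) = Finset.range j := by
    ext m
    simp only [Finset.mem_filter, Finset.mem_range]
    omega
  rw [h2, Finset.card_range]

/-- The case of two orthonormal frames. -/
private theorem str_orth (hin : i ≤ n) : ∃ Γ : ℕ → ℕ → ℝ, ∀ e : Fin i → Cn n,
    Orthonormal ℝ e → ∀ w : Fin i → Cn n, Orthonormal ℝ w →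
      gg e w = ∑ l ∈ Finset.range (i / 2 + 1),
        (∑ k ∈ Finset.range (i / 2 + 1), Γ k l * dz e k) * dz w l := by
  set p := i / 2 with hp
  have hm : ∀ k : ℕ, ∃ m : ℕ → ℝ, ∀ k', k' ≤ p →
      ∑ j ∈ Finset.range (p + 1), m j * (1 + (k' : ℝ) ^ 2) ^ j = if k' = k then 1 else 0 :=
    fun k => str_vand p fun k' => if k' = k then 1 else 0
  choose m hm using hm
  have hα : ∀ j : ℕ, ∃ α : ℕ → ℝ, ∀ e : Fin i → Cn n, Orthonormal ℝ e →
      gg e (ef hin (sc j)) = ∑ k ∈ Finset.range (p + 1), α k * dz e k :=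
    fun j => gg_aff hin (ef hin (sc j))
  choose α hα using hα
  refine ⟨fun k l => ∑ j ∈ Finset.range (p + 1), m k j * α j l, fun e he w hw => ?_⟩
  obtain ⟨β, hβ⟩ := gg_aff hin w
  have h1 : ∀ k, k ≤ p → β k = ∑ j ∈ Finset.range (p + 1), m k j *
      ∑ l ∈ Finset.range (p + 1), α j l * dz w l := by
    intro k hk
    have h2 : ∀ j ∈ Finset.range (p + 1), m k j *
        ∑ l ∈ Finset.range (p + 1), α j l * dz w l =
        ∑ k' ∈ Finset.range (p + 1), β k' * (m k j * (1 + (k' : ℝ) ^ 2) ^ j) := by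
      intro j hj
      have hj' : j ≤ i / 2 := by
        have := Finset.mem_range.1 hj
        omega
      rw [← hα j w hw, gg_symm, hβ _ (orthonormal_ef hin (sc_bd j)), Finset.mul_sum]
      refine Finset.sum_congr rfl fun k' _ => ?_
      rw [dz_sc hin hj']
      ring
    rw [Finset.sum_congr rfl h2, Finset.sum_comm]
    simp_rw [← Finset.mul_sum]
    rw [Finset.sum_congr rfl (fun k' hk' => by
      rw [hm k k' (by have := Finset.mem_range.1 hk'; omega)])]
    rw [Finset.sum_eq_single k]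
    · simp
    · intro b _ hb
      simp [hb]
    · intro hk'
      exact absurd (Finset.mem_range.2 (by omega)) hk'
  rw [hβ e he]
  have h3 : ∀ k ∈ Finset.range (p + 1), β k * dz e k =
      ∑ l ∈ Finset.range (p + 1), (∑ j ∈ Finset.range (p + 1), m k j * α j l) * dz e k *
        dz w l := by
    intro k hk
    rw [h1 k (by have := Finset.mem_range.1 hk; omega), Finset.sum_mul]
    simp_rw [Finset.mul_sum, Finset.sum_mul]
    rw [Finset.sum_comm]
    refine Finset.sum_congr rfl fun l _ => Finset.sum_congr rfl fun j _ => ?_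
    ring
  rw [Finset.sum_congr rfl h3, Finset.sum_comm]
  refine Finset.sum_congr rfl fun l _ => ?_
  rw [Finset.sum_mul]

theorem gg_str (hi : 0 < i) (hin : i ≤ n) : ∃ Γ : ℕ → ℕ → ℝ, ∀ e : Fin i → Cn n,
    Orthonormal ℝ e → ∀ w : Fin i → Cn n,
      gg e w * √(GG w) = ∑ l ∈ Finset.range (i / 2 + 1),
        (∑ k ∈ Finset.range (i / 2 + 1), Γ k l * dz e k) * dz w l := by
  obtain ⟨Γ, hΓ⟩ := str_orth (n := n) hin
  refine ⟨Γ, fun e he w => ?_⟩
  rcases frame hi w with ⟨h0, _, hz⟩ | ⟨f, t, hf, ht, hG, hD, hz⟩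
  · rw [h0, Real.sqrt_zero, mul_zero]
    symm
    refine Finset.sum_eq_zero fun l _ => ?_
    rw [hz, mul_zero]
  · have h1 : gg e w = t * gg e f := by
      unfold gg
      rw [← integral_const_mul]
      refine integral_congr_ae (Filter.Eventually.of_forall fun φ => ?_)
      simp only []
      rw [hD, abs_mul, abs_of_pos ht]
    rw [h1, hG, Real.sqrt_sq ht.le, hΓ e he f hf]
    simp_rw [hz]
    rw [Finset.mul_sum, Finset.sum_mul]
    refine Finset.sum_congr rfl fun l _ => ?_
    ring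

end Pool.Agent.H35.NI
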