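import Mathlib
import Pool.Agent.H35.NI.Lin

set_option autoImplicit false

/-!
# Dua: orthogonal complements

Let `i + j = 2n`, `o = (e, e')`, `p = (w, w')` orthonormal bases of `ℂⁿ` (index `Fin i ⊕ Fin j`).
Block matrices: if `M = (A B; C D)`, `M' = (A' B'; C' D')` and `M M' = q`, then
`M (1 B'; 0 D') = (A 0; C q)`, so `det M det D' = det A q^j`.
(1) `M = (⟨o_a, p_b⟩)`, `M' = Mᵀ`, `q = 1`: `|det M| = 1`, so `|DD e w| = |DD e' w'|`.
(2) `M = 1 + z Ω`, `M' = 1 - z Ω`, `Ω = (om o_a o_b)`, `Ω² = -1` (see `Min.lean`), `q = 1 + z²`,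
`det M = (1 + z²)^n` (`det M ^ 2 = det M det Mᵀ = (1+z²)^(2n)`, and `det M > 0`: it is nonzero for
all `z`, continuous, `1` at `z = 0`; or by `IsPreconnected`/`IVT`), `det D' = dz e' (-z) = dz e' z`
(transpose).
-/

open MeasureTheory Pool.Agent.H61.UProj Pool.Agent.H89.CZ

noncomputable section

namespace Pool.Agent.H35.NI

variable {n i j : ℕ}

private theorem om_innerD (x y : Cn n) : om x y = (inner ℝ (Complex.I • x) y : ℝ) := by
  rw [real_inner_eq, om, PiLp.inner_apply, Complex.im_sum, Complex.re_sum]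
  refine Finset.sum_congr rfl fun j _ => ?_
  rw [RCLike.inner_apply, PiLp.smul_apply, smul_eq_mul, map_mul, Complex.conj_I]
  simp only [Complex.mul_re, Complex.mul_im, Complex.neg_re, Complex.neg_im, Complex.I_re,
    Complex.I_im, Complex.conj_re, Complex.conj_im]
  ring

private theorem inner_ID (x y : Cn n) :
    (inner ℝ (Complex.I • x) (Complex.I • y) : ℝ) = inner ℝ x y := by
  rw [real_inner_eq, real_inner_eq]
  congr 1
  refine Finset.sum_congr rfl fun j _ => ?_
  rw [PiLp.smul_apply, PiLp.smul_apply, smul_eq_mul, smul_eq_mul, map_mul, Complex.conj_I]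
  have h := Complex.I_mul_I
  linear_combination (-((starRingEnd ℂ) (x j) * y j)) * h

private theorem finrank_CnD : Module.finrank ℝ (Cn n) = 2 * n := by
  rw [finrank_real_of_complex, finrank_euclideanSpace_fin]

private theorem onb_of {ι : Type*} [Fintype ι] {o : ι → Cn n} (ho : Orthonormal ℝ o)
    (hc : Fintype.card ι = 2 * n) :
    ∃ b : OrthonormalBasis ι ℝ (Cn n), ∀ a, b a = o a := by
  have hsp : Submodule.span ℝ (Set.range o) = ⊤ :=
    ho.linearIndependent.span_eq_top_of_card_eq_finrank' (by rw [finrank_CnD, hc])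
  exact ⟨OrthonormalBasis.mk ho hsp.ge, fun a => by rw [OrthonormalBasis.coe_mk]⟩

private theorem orth_sum {e : Fin i → Cn n} {e' : Fin j → Cn n} (h : Cpl e e') :
    Orthonormal ℝ (Sum.elim e e') := by
  rw [orthonormal_iff_ite]
  rintro (a | a) (b | b)
  · simp [orthonormal_iff_ite.1 h.1]
  · simp [h.2.2]
  · rw [real_inner_comm]
    simp [h.2.2]
  · simp [orthonormal_iff_ite.1 h.2.1]

private theorem blk {A : Matrix (Fin i) (Fin i) ℝ} {B : Matrix (Fin i) (Fin j) ℝ}
    {C : Matrix (Fin j) (Fin i) ℝ} {D : Matrix (Fin j) (Fin j) ℝ}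
    {A' : Matrix (Fin i) (Fin i) ℝ} {B' : Matrix (Fin i) (Fin j) ℝ}
    {C' : Matrix (Fin j) (Fin i) ℝ} {D' : Matrix (Fin j) (Fin j) ℝ} {q : ℝ}
    (h : Matrix.fromBlocks A B C D * Matrix.fromBlocks A' B' C' D' = q • 1) :
    (Matrix.fromBlocks A B C D).det * D'.det = A.det * q ^ j := by
  rw [Matrix.fromBlocks_multiply, ← Matrix.fromBlocks_one, Matrix.fromBlocks_smul,
    Matrix.fromBlocks_inj] at h
  obtain ⟨-, h12, -, h22⟩ := h
  have h1 : Matrix.fromBlocks A B C D * Matrix.fromBlocks 1 B' 0 D' =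
      Matrix.fromBlocks A 0 C (q • (1 : Matrix (Fin j) (Fin j) ℝ)) := by
    rw [Matrix.fromBlocks_multiply, h12, h22]
    simp
  have h2 := congrArg Matrix.det h1
  rw [Matrix.det_mul, Matrix.det_fromBlocks_zero₂₁, Matrix.det_fromBlocks_zero₁₂,
    Matrix.det_one, one_mul, Matrix.det_smul, Matrix.det_one, mul_one, Fintype.card_fin] at h2
  exact h2

theorem exists_cpl (hij : i + j = 2 * n) {e : Fin i → Cn n} (he : Orthonormal ℝ e) :
    ∃ e' : Fin j → Cn n, Cpl e e' := by
  classical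
  have hc : Module.finrank ℝ (Cn n) = Fintype.card (Fin i ⊕ Fin j) := by
    rw [finrank_CnD, Fintype.card_sum, Fintype.card_fin, Fintype.card_fin, hij]
  have hv : Orthonormal ℝ ((Set.range (Sum.inl : Fin i → Fin i ⊕ Fin j)).domRestrict
      (Sum.elim e (fun _ : Fin j => (0 : Cn n)))) := by
    rw [orthonormal_iff_ite]
    rintro ⟨x, a, rfl⟩ ⟨y, b, rfl⟩
    change (inner ℝ (e a) (e b) : ℝ) = _
    rw [orthonormal_iff_ite.1 he]
    simp
  obtain ⟨b, hb⟩ := Orthonormal.exists_orthonormalBasis_extension_of_card_eq hc hv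
  have hbe : ∀ a, b (Sum.inl a) = e a := fun a => hb _ ⟨a, rfl⟩
  have hbo := orthonormal_iff_ite.1 b.orthonormal
  refine ⟨fun a => b (Sum.inr a), he, ?_, ?_⟩
  · rw [orthonormal_iff_ite]
    intro a c
    rw [hbo]
    simp
  · intro a c
    rw [← hbe, hbo]
    simp

theorem Cpl.symm {e : Fin i → Cn n} {e' : Fin j → Cn n} (h : Cpl e e') : Cpl e' e :=
  ⟨h.2.1, h.1, fun a b => by rw [real_inner_comm]; exact h.2.2 b a⟩

private theorem orth_uni {e : Fin i → Cn n} (h : Orthonormal ℝ e) (φ : Un n) :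
    Orthonormal ℝ (fun a => uni φ (e a)) := by
  rw [orthonormal_iff_ite] at h ⊢
  intro a b
  rw [LinearIsometry.inner_map_map, h]

theorem Cpl.uni {e : Fin i → Cn n} {e' : Fin j → Cn n} (h : Cpl e e') (φ : Un n) :
    Cpl (fun a => uni φ (e a)) (fun a => uni φ (e' a)) :=
  ⟨orth_uni h.1 φ, orth_uni h.2.1 φ, fun a b => by
    rw [LinearIsometry.inner_map_map, h.2.2]⟩

theorem Cpl.DD_abs (hij : i + j = 2 * n) {e w : Fin i → Cn n} {e' w' : Fin j → Cn n}
    (h : Cpl e e') (k : Cpl w w') : |DD e w| = |DD e' w'| := by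
  classical
  have hc : Fintype.card (Fin i ⊕ Fin j) = 2 * n := by
    rw [Fintype.card_sum, Fintype.card_fin, Fintype.card_fin, hij]
  have ho := orthonormal_iff_ite.1 (orth_sum h)
  obtain ⟨b, hb⟩ := onb_of (orth_sum k) hc
  set M : Matrix (Fin i ⊕ Fin j) (Fin i ⊕ Fin j) ℝ :=
    Matrix.fromBlocks (Matrix.of fun a b => (inner ℝ (e a) (w b) : ℝ))
      (Matrix.of fun a b => (inner ℝ (e a) (w' b) : ℝ))
      (Matrix.of fun a b => (inner ℝ (e' a) (w b) : ℝ))
      (Matrix.of fun a b => (inner ℝ (e' a) (w' b) : ℝ)) with hM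
  have hMa : ∀ x y, M x y = (inner ℝ (Sum.elim e e' x) (Sum.elim w w' y) : ℝ) := by
    rintro (x | x) (y | y) <;> rfl
  have hMM : M * M.transpose = (1 : ℝ) • 1 := by
    rw [one_smul]
    ext x y
    rw [Matrix.mul_apply]
    have h1 : ∀ c, M x c * M.transpose c y =
        (inner ℝ (Sum.elim e e' x) (b c) : ℝ) * inner ℝ (b c) (Sum.elim e e' y) := by
      intro c
      rw [Matrix.transpose_apply, hMa, hMa, hb, real_inner_comm (Sum.elim e e' y)]
    rw [Finset.sum_congr rfl fun c _ => h1 c, b.sum_inner_mul_inner, ho, Matrix.one_apply]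
  have hd : M.det * M.det = 1 := by
    have h1 := congrArg Matrix.det hMM
    rwa [Matrix.det_mul, Matrix.det_transpose, one_smul, Matrix.det_one] at h1
  have hda : |M.det| = 1 := by
    have h1 : |M.det| * |M.det| = 1 := by rw [← abs_mul, hd, abs_one]
    nlinarith [abs_nonneg M.det]
  have h2 := hMM
  rw [hM, Matrix.fromBlocks_transpose] at h2
  have h3 := blk h2
  rw [Matrix.det_transpose, one_pow, mul_one, ← hM] at h3
  have h4 := congrArg abs h3
  rw [abs_mul, hda, one_mul] at h4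
  exact h4.symm

theorem Cpl.gg_eq (hij : i + j = 2 * n) {e w : Fin i → Cn n} {e' w' : Fin j → Cn n}
    (h : Cpl e e') (k : Cpl w w') : gg e w = gg e' w' := by
  unfold gg
  refine integral_congr_ae (Filter.Eventually.of_forall fun φ => ?_)
  exact Cpl.DD_abs hij (h.uni φ) k

private def OmD {ι : Type*} (o : ι → Cn n) : Matrix ι ι ℝ :=
  Matrix.of fun a b => om (o a) (o b)

private theorem OmD_sq {ι : Type*} [Fintype ι] [DecidableEq ι] {o : ι → Cn n}
    (ho : Orthonormal ℝ o) (hc : Fintype.card ι = 2 * n) : OmD o * OmD o = -1 := by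
  obtain ⟨b, hb⟩ := onb_of ho hc
  ext a c
  rw [Matrix.mul_apply, Matrix.neg_apply]
  have h1 : ∀ j, OmD o a j * OmD o j c =
      -((inner ℝ (Complex.I • o a) (b j) : ℝ) * inner ℝ (b j) (Complex.I • o c)) := fun j => by
    change om (o a) (o j) * om (o j) (o c) = _
    rw [om_swap (o c) (o j), om_innerD, om_innerD, hb, real_inner_comm (o j) (Complex.I • o c)]
    ring
  rw [Finset.sum_congr rfl fun j _ => h1 j, Finset.sum_neg_distrib, b.sum_inner_mul_inner,
    inner_ID, orthonormal_iff_ite.1 ho a c, Matrix.one_apply]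

private theorem OmD_mul {ι : Type*} [Fintype ι] [DecidableEq ι] {o : ι → Cn n}
    (ho : Orthonormal ℝ o) (hc : Fintype.card ι = 2 * n) (z : ℝ) :
    (1 + z • OmD o) * (1 + (-z) • OmD o) = (1 + z ^ 2) • (1 : Matrix ι ι ℝ) := by
  rw [add_mul, mul_add, mul_add]
  simp only [Matrix.smul_mul, Matrix.mul_smul, OmD_sq ho hc, Matrix.one_mul, Matrix.mul_one]
  module

private theorem OmD_transpose {ι : Type*} (o : ι → Cn n) : (OmD o).transpose = -OmD o := by
  ext a b
  exact om_swap _ _

private theorem OmD_det {ι : Type*} [Fintype ι] [DecidableEq ι] {o : ι → Cn n}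
    (ho : Orthonormal ℝ o) (hc : Fintype.card ι = 2 * n) (z : ℝ) :
    (1 + z • OmD o).det = (1 + z ^ 2) ^ n := by
  have hsq : ∀ t : ℝ, (1 + t • OmD o).det ^ 2 = ((1 + t ^ 2) ^ n) ^ 2 := by
    intro t
    have h := congrArg Matrix.det (OmD_mul ho hc t)
    have ht : (1 + (-t) • OmD o) = (1 + t • OmD o).transpose := by
      rw [Matrix.transpose_add, Matrix.transpose_smul, OmD_transpose, Matrix.transpose_one]
      module
    rw [Matrix.det_mul, ht, Matrix.det_transpose, Matrix.det_smul, Matrix.det_one, mul_one,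
      hc] at h
    rw [sq, h]
    ring
  have hpos : ∀ t : ℝ, 0 < (1 + t ^ 2) ^ n := fun t => by positivity
  rcases sq_eq_sq_iff_eq_or_eq_neg.1 (hsq z) with h | h
  · exact h
  · exfalso
    set f : ℝ → ℝ := fun t => (1 + t • OmD o).det with hf
    have hcont : Continuous f := by
      refine Continuous.matrix_det ?_
      exact continuous_const.add (continuous_id.smul continuous_const)
    have h0 : f 0 = 1 := by simp [hf]
    have hz : f z < 0 := by
      change (1 + z • OmD o).det < 0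
      rw [h]
      linarith [hpos z]
    have h1 := intermediate_value_uIcc (a := z) (b := 0) hcont.continuousOn
    have h2 : (0 : ℝ) ∈ Set.uIcc (f z) (f 0) := by
      rw [Set.mem_uIcc]
      left
      exact ⟨hz.le, by rw [h0]; norm_num⟩
    obtain ⟨t, -, ht⟩ := h1 h2
    have h3 := hsq t
    have h4 : (1 + t • OmD o).det = 0 := ht
    rw [h4] at h3
    have h5 := hpos t
    nlinarith

theorem Cpl.dz_eq (hij : i + j = 2 * n) {e : Fin i → Cn n} {e' : Fin j → Cn n}
    (h : Cpl e e') (z : ℝ) : (1 + z ^ 2) ^ j * dz e z = (1 + z ^ 2) ^ n * dz e' z := by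
  classical
  have hc : Fintype.card (Fin i ⊕ Fin j) = 2 * n := by
    rw [Fintype.card_sum, Fintype.card_fin, Fintype.card_fin, hij]
  have ho := orth_sum h
  have hoi := orthonormal_iff_ite.1 ho
  have hb : ∀ t : ℝ, 1 + t • OmD (Sum.elim e e') =
      Matrix.fromBlocks
        (Matrix.of fun a b => (inner ℝ (e a) (e b) : ℝ) + t * om (e a) (e b))
        (Matrix.of fun a b => (inner ℝ (e a) (e' b) : ℝ) + t * om (e a) (e' b))
        (Matrix.of fun a b => (inner ℝ (e' a) (e b) : ℝ) + t * om (e' a) (e b))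
        (Matrix.of fun a b => (inner ℝ (e' a) (e' b) : ℝ) + t * om (e' a) (e' b)) := by
    intro t
    ext x y
    rw [Matrix.add_apply, Matrix.one_apply, ← hoi x y]
    rcases x with x | x <;> rcases y with y | y <;> rfl
  have h1 := OmD_mul ho hc z
  have h2 := OmD_det ho hc z
  rw [hb z] at h1 h2
  rw [hb (-z)] at h1
  have h3 := blk h1
  rw [h2] at h3
  have h4 : (Matrix.of fun a b => (inner ℝ (e' a) (e' b) : ℝ) + (-z) * om (e' a) (e' b)).det =
      dz e' z := by
    unfold dz
    rw [← Matrix.det_transpose]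
    congr 1
    ext a b
    rw [Matrix.transpose_apply, Matrix.of_apply, Matrix.of_apply, real_inner_comm,
      om_swap (e' a) (e' b)]
    ring
  rw [h4] at h3
  unfold dz at h3 ⊢
  rw [h3]
  ring

end Pool.Agent.H35.NI
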