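import Mathlib
import Pool.Agent.H35.NI.Lin
import Pool.Agent.H89.CZ.GAdj

set_option autoImplicit false

/-!
# VEI: `V_E` of a zonotope

As `VE_zon3` in `H35/T3/VE3.lean` and `VE_zon` in `H89/CZ/GAdj.lean`.
-/

open MeasureTheory Pool.Agent.H61.UProj Pool.Agent.H89.CZ
open scoped ENNReal

noncomputable section

namespace Pool.Agent.H35.NI

variable {n i : ℕ}

private theorem VEI_coord (J : Rn i →ₗᵢ[ℝ] Cn n) (z : Cn n) (l : Fin i) :
    (adj J z) l = inner ℝ (J (EuclideanSpace.single l (1 : ℝ))) z := by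
  rw [inner_adj, EuclideanSpace.inner_single_left]
  simp

private theorem VEI_absdet (J : Rn i →ₗᵢ[ℝ] Cn n) (w : Fin i → Cn n) :
    absdet i (fun k => adj J (w k)) =
      |DD (fun a => J (EuclideanSpace.single a (1 : ℝ))) w| := by
  unfold absdet DD
  rw [← Matrix.det_transpose]
  congr 2
  ext a b
  rw [Matrix.transpose_apply, Matrix.of_apply, Matrix.of_apply, VEI_coord]

private theorem VEI_cont (e w : Fin i → Cn n) :
    Continuous (fun φ : Un n => |DD (fun a => uni φ (e a)) w|) := by
  refine Continuous.abs (Continuous.matrix_det ?_)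
  refine continuous_matrix fun a b => ?_
  exact Continuous.inner (continuous_uni (e a)) continuous_const

theorem VE_zonI (J : Rn i →ₗᵢ[ℝ] Cn n) {N : ℕ} (v : Fin N → Cn n) :
    VE (LinearMap.range J.toLinearMap) (zon v) =
      ENNReal.ofReal (PZ i (gg fun k => J (EuclideanSpace.single k 1)) v) := by
  rw [VE_range]
  obtain ⟨F, hF⟩ : ∃ F : (Fin i → Fin N) → Un n → ℝ, F = fun f φ =>
      |DD (fun a => uni φ (J (EuclideanSpace.single a (1 : ℝ)))) (v ∘ f)| := ⟨_, rfl⟩
  have h1 : ∀ φ : Un n, volume (adj ((uni φ).comp J) '' zon v) =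
      ENNReal.ofReal ((∑ f : Fin i → Fin N, F f φ) / (Nat.factorial i : ℝ)) := by
    intro φ
    have h2 : adj ((uni φ).comp J) '' zon v = zon (fun j => adj ((uni φ).comp J) (v j)) :=
      image_zon ((adj ((uni φ).comp J)) : Cn n →ₗ[ℝ] Rn i) v
    rw [h2, volume_zon]
    unfold PZ
    refine congrArg ENNReal.ofReal (congrArg (fun x => x / (Nat.factorial i : ℝ)) ?_)
    refine Finset.sum_congr rfl fun f _ => ?_
    rw [hF]
    exact VEI_absdet ((uni φ).comp J) (v ∘ f)
  rw [lintegral_congr h1]
  have hi : ∀ f : Fin i → Fin N, Integrable (F f) (haarU n) := by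
    intro f
    rw [hF]
    exact integrable_of_continuous (VEI_cont _ _)
  rw [← ofReal_integral_eq_lintegral_ofReal]
  · rw [integral_div, integral_finsetSum _ (fun f _ => hi f), hF]
    rfl
  · exact (integrable_finsetSum _ (fun f _ => hi f)).div_const _
  · refine Filter.Eventually.of_forall fun φ => div_nonneg
      (Finset.sum_nonneg fun f _ => ?_) (Nat.cast_nonneg _)
    rw [hF]
    exact abs_nonneg _

end Pool.Agent.H35.NI
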