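import Mathlib
import Pool.Agent.H35.NI.VEI
import Pool.Agent.H89.CZ.ZonBM
import Pool.Agent.H89.CZ.ZI
import Pool.Agent.H89.CZ.ZL

set_option autoImplicit false

/-!
# BMI: from the Lorentzian property in each link to zonoids

As `bm_all`, `bm_VE` (`H89/CZ/ZonBM.lean`), `bm_zonotope` (`ZI.lean`), `bm_limit` (`ZL.lean`), with
`G f = gg e (v ∘ f)`, `e k = J s_k`; `G f > 0` iff `v ∘ f` is linearly independent, `G` symmetric,
and the hyperbolicity in each link is the hypothesis `hhyp`.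
-/

open MeasureTheory Pool.Agent.H61.UProj Pool.Agent.H89.CZ
open scoped ENNReal Pointwise

noncomputable section

namespace Pool.Agent.H35.NI

variable {n m k i : ℕ}

private theorem BMI_perm (e : Fin i → Cn n) (σ : Equiv.Perm (Fin i)) (w : Fin i → Cn n) :
    gg e (w ∘ σ) = gg e w := by
  unfold gg
  refine integral_congr_ae (Filter.Eventually.of_forall fun φ => ?_)
  simp only []
  have h1 : DD (fun a => uni φ (e a)) (w ∘ σ) =
      ((Equiv.Perm.sign σ : ℤ) : ℝ) * DD (fun a => uni φ (e a)) w := by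
    unfold DD
    rw [← Matrix.det_permute']
    rfl
  rw [h1, abs_mul]
  have h2 : |((Equiv.Perm.sign σ : ℤ) : ℝ)| = 1 := by
    rcases Int.units_eq_one_or (Equiv.Perm.sign σ) with h | h
    · rw [h]; simp
    · rw [h]; simp
  rw [h2, one_mul]

private theorem BMI_dep (e w : Fin i → Cn n) (h : ¬ LinearIndependent ℝ w) : gg e w = 0 := by
  unfold gg
  have h0 : ∀ φ : Un n, DD (fun a => uni φ (e a)) w = 0 := by
    intro φ
    rw [Fintype.not_linearIndependent_iff] at h
    obtain ⟨g, hg, l, hl⟩ := h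
    unfold DD
    rw [← Matrix.exists_mulVec_eq_zero_iff]
    refine ⟨g, fun h0 => hl (congrFun h0 l), ?_⟩
    ext a
    simp only [Matrix.mulVec, dotProduct, Matrix.of_apply, Pi.zero_apply]
    have h1 : ∑ b, (inner ℝ (uni φ (e a)) (w b) : ℝ) * g b =
        inner ℝ (uni φ (e a)) (∑ b, g b • w b) := by
      rw [inner_sum]
      refine Finset.sum_congr rfl fun b _ => ?_
      rw [real_inner_smul_right, mul_comm]
    rw [h1, hg, inner_zero_right]
  simp [h0]

private theorem BMI_eq_zero (e w : Fin i → Cn n) (x y : Fin i) (hne : x ≠ y) (h : w x = w y) :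
    gg e w = 0 := by
  refine BMI_dep e w fun hli => hne ?_
  exact hli.injective h

private theorem BMI_GG_pos {w : Fin i → Cn n} (h : LinearIndependent ℝ w) : 0 < GG w := by
  have hne : GG w ≠ 0 := by
    intro h0
    unfold GG DD at h0
    rw [← Matrix.exists_mulVec_eq_zero_iff] at h0
    obtain ⟨g, hg, h1⟩ := h0
    have h2 : ∑ b, g b • w b = 0 := by
      rw [← norm_eq_zero, ← sq_eq_zero_iff, ← real_inner_self_eq_norm_sq, sum_inner]
      refine Finset.sum_eq_zero fun a _ => ?_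
      rw [real_inner_smul_left, inner_sum]
      have h3 := congrFun h1 a
      simp only [Matrix.mulVec, dotProduct, Matrix.of_apply, Pi.zero_apply] at h3
      have h4 : ∑ b, (inner ℝ (w a) (g b • w b) : ℝ) = 0 := by
        rw [← h3]
        refine Finset.sum_congr rfl fun b _ => ?_
        rw [real_inner_smul_right, mul_comm]
      rw [h4, mul_zero]
    rw [Fintype.linearIndependent_iff] at h
    exact hg (funext (h g h2))
  rcases Nat.eq_zero_or_pos i with rfl | hi
  · have : GG w = 1 := by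
      unfold GG DD
      simp
    rw [this]
    exact one_pos
  · rcases frame hi w with ⟨h1, -, -⟩ | ⟨f, t, -, ht, hG, -, -⟩
    · exact absurd h1 hne
    · rw [hG]
      positivity

private theorem BMI_pos {e : Fin i → Cn n}
    (hpos : ∃ C : ℝ, 0 < C ∧ ∀ w : Fin i → Cn n, C * √(GG w) ≤ gg e w)
    {w : Fin i → Cn n} (h : LinearIndependent ℝ w) : 0 < gg e w := by
  obtain ⟨C, hC, h1⟩ := hpos
  exact (mul_pos hC (Real.sqrt_pos.2 (BMI_GG_pos h))).trans_le (h1 w)

private theorem BMI_smul (e : Fin i → Cn n) (t : Fin i → ℝ) (w : Fin i → Cn n) :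
    gg e (fun l => t l • w l) = (∏ l, |t l|) * gg e w := by
  rw [gg_symm e, gg_symm e, gg_comb (e := fun l => t l • w l) (e' := w)
    (R := Matrix.diagonal t), Matrix.det_diagonal, Finset.abs_prod]
  intro a
  rw [Finset.sum_eq_single a]
  · rw [Matrix.diagonal_apply_eq]
  · intro b _ hb
    rw [Matrix.diagonal_apply_ne _ hb.symm, zero_smul]
  · intro h
    exact absurd (Finset.mem_univ a) h

private theorem BMI_all (e : Fin (k + 2) → Cn n)
    (hpos0 : ∃ C : ℝ, 0 < C ∧ ∀ w : Fin (k + 2) → Cn n, C * √(GG w) ≤ gg e w)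
    (hhyp0 : ∀ (W : Fin k → Cn n) {N : ℕ} (p : Fin N → Cn n) (u t : Fin N → ℝ),
      (∀ j, 0 ≤ t j) →
      (∑ j, ∑ l, u j * u l * gg e
          (Fin.cons (p j) (Fin.cons (p l) W : Fin (k + 1) → Cn n) : Fin (k + 2) → Cn n)) *
        (∑ j, ∑ l, t j * t l * gg e
          (Fin.cons (p j) (Fin.cons (p l) W : Fin (k + 1) → Cn n) : Fin (k + 2) → Cn n)) ≤
      (∑ j, ∑ l, u j * t l * gg e
          (Fin.cons (p j) (Fin.cons (p l) W : Fin (k + 1) → Cn n) : Fin (k + 2) → Cn n)) ^ 2)
    {N : ℕ} (v : Fin N → Cn n)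
    (lam mu : Fin N → ℝ) (hlam : ∀ l, 0 ≤ lam l) (hmu : ∀ l, 0 ≤ mu l) :
    (PW (k + 2) (fun f : Fin (k + 2) → Fin N => gg e (v ∘ f)) lam) ^ (1 / ((k : ℝ) + 2)) +
      (PW (k + 2) (fun f : Fin (k + 2) → Fin N => gg e (v ∘ f)) mu) ^ (1 / ((k : ℝ) + 2)) ≤
      (PW (k + 2) (fun f : Fin (k + 2) → Fin N => gg e (v ∘ f)) (lam + mu)) ^
        (1 / ((k : ℝ) + 2)) := by
  classical
  set G : (Fin (k + 2) → Fin N) → ℝ := fun f => gg e (v ∘ f) with hG
  have hsym : ∀ (σ : Equiv.Perm (Fin (k + 2))) (f : Fin (k + 2) → Fin N), G (f ∘ σ) = G f := by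
    intro σ f
    exact BMI_perm e σ (v ∘ f)
  have hzero : ∀ f : Fin (k + 2) → Fin N, ¬ Function.Injective f → G f = 0 := by
    intro f hf
    rw [Function.Injective] at hf
    push Not at hf
    obtain ⟨x, y, hxy, hne⟩ := hf
    exact BMI_eq_zero e (v ∘ f) x y hne (by simp [hxy])
  rw [ZonBM_PW G hsym hzero, ZonBM_PW G hsym hzero, ZonBM_PW G hsym hzero]
  set κ : Finset (Fin N) → ℝ := ZonBM_kap (k + 2) G with hκ
  have hκ0 : ∀ J, 0 ≤ κ J := by
    intro J
    simp only [hκ, ZonBM_kap]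
    split_ifs
    · exact gg_nonneg _ _
    · exact le_rfl
  have hpos1 : ∀ J : Finset (Fin N), J.card = k + 2 →
      (0 < κ J ↔ LinearIndepOn ℝ v (J : Set (Fin N))) := by
    intro J hJ
    rw [← ZonBM_indep_iff v J hJ]
    simp only [hκ, ZonBM_kap]
    rw [dif_pos hJ]
    constructor
    · intro h
      by_contra h2
      have := BMI_dep e (v ∘ J.orderEmbOfFin hJ) h2
      simp only [hG] at h
      rw [this] at h
      exact lt_irrefl _ h
    · intro h
      exact BMI_pos hpos0 h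
  have hconn : H85.BMT.Conn (k + 2) κ := H85.BMT.conn_of_indep (k + 2) κ v hpos1
  have hbase : ∀ S : Finset (Fin N), S.card + 2 = k + 2 → ∃ m : Fin N → ℝ, ∀ y : Fin N → ℝ,
      ∑ a, m a * y a = 0 →
      ∑ a, ∑ b, (if a ∉ S ∧ b ∉ S ∧ a ≠ b then κ (insert a (insert b S)) else 0)
        * (y a * y b) ≤ 0 := by
    intro S hS
    have hSk : S.card = k := by omega
    set w : Fin k → Fin N := fun x => S.orderEmbOfFin hSk x with hw
    have hwinj : Function.Injective w := (S.orderEmbOfFin hSk).injective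
    have hwmem : ∀ x, w x ∈ S := fun x => Finset.orderEmbOfFin_mem S hSk x
    have hwrange : ∀ j ∈ S, ∃ x, w x = j := by
      intro j hj
      have : j ∈ Set.range (S.orderEmbOfFin hSk) := by
        rw [Finset.range_orderEmbOfFin]; exact hj
      exact this
    set M : Fin N → Fin N → ℝ := fun l m => gg e
      (Fin.cons (v l) (Fin.cons (v m) (v ∘ w) : Fin (k + 1) → Cn n) : Fin (k + 2) → Cn n) with hM
    have hcomp : ∀ l m, (Fin.cons (v l) (Fin.cons (v m) (v ∘ w) : Fin (k + 1) → Cn n) :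
        Fin (k + 2) → Cn n)
        = v ∘ (Fin.cons l (Fin.cons m w : Fin (k + 1) → Fin N) : Fin (k + 2) → Fin N) := by
      intro l m
      funext x
      refine Fin.cases ?_ (fun x => ?_) x
      · simp
      · refine Fin.cases ?_ (fun x => ?_) x
        · simp
        · simp
    have hMG : ∀ l m, M l m
        = G (Fin.cons l (Fin.cons m w : Fin (k + 1) → Fin N) : Fin (k + 2) → Fin N) := by
      intro l m
      simp only [hM, hG]
      rw [hcomp]
    have hentry : ∀ l m, (if l ∉ S ∧ m ∉ S ∧ l ≠ m then κ (insert l (insert m S)) else 0)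
        = M l m := by
      intro l m
      by_cases h : l ∉ S ∧ m ∉ S ∧ l ≠ m
      · rw [if_pos h, hMG]
        refine ZonBM_kap_eq G hsym _ ?_ _ ?_
        · rw [Fin.cons_injective_iff]
          refine ⟨?_, ?_⟩
          · rintro ⟨x, hx'⟩
            revert hx'
            refine Fin.cases ?_ (fun x => ?_) x
            · intro hx'
              simp only [Fin.cons_zero] at hx'
              exact h.2.2 hx'.symm
            · intro hx'
              simp only [Fin.cons_succ] at hx'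
              exact h.1 (hx' ▸ hwmem x)
          · rw [Fin.cons_injective_iff]
            refine ⟨?_, hwinj⟩
            rintro ⟨x, hx'⟩
            exact h.2.1 (hx' ▸ hwmem x)
        · ext j
          simp only [Finset.mem_image, Finset.mem_univ, true_and, Finset.mem_insert]
          constructor
          · rintro ⟨x, rfl⟩
            refine Fin.cases ?_ (fun x => ?_) x
            · simp
            · refine Fin.cases ?_ (fun x => ?_) x
              · simp
              · simp [hwmem x]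
          · rintro (rfl | rfl | hj)
            · exact ⟨0, by simp⟩
            · exact ⟨1, by simp⟩
            · obtain ⟨x, hx'⟩ := hwrange j hj
              exact ⟨x.succ.succ, by simp [hx']⟩
      · rw [if_neg h, hMG]
        symm
        apply hzero
        rw [Fin.cons_injective_iff, Fin.cons_injective_iff]
        rintro ⟨h1, h2, -⟩
        apply h
        refine ⟨?_, ?_, ?_⟩
        · intro hl
          obtain ⟨x, hx'⟩ := hwrange l hl
          exact h1 ⟨x.succ, by simp [hx']⟩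
        · intro hm
          obtain ⟨x, hx'⟩ := hwrange m hm
          exact h2 ⟨x, hx'⟩
        · intro hlm
          exact h1 ⟨0, by simp [hlm]⟩
    simp only [hentry]
    have hM0 : ∀ l m, 0 ≤ M l m := fun l m => gg_nonneg _ _
    refine ⟨fun l => ∑ m, M l m, fun y hy => ?_⟩
    have h1 := hhyp0 (v ∘ w) v y (fun _ => 1) (fun _ => zero_le_one)
    have hT : ∑ l, ∑ m, (1:ℝ) * 1 * M l m = ∑ l, ∑ m, M l m := by simp
    have hyM : ∑ l, ∑ m, y l * 1 * M l m = 0 := by
      rw [← hy]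
      refine Finset.sum_congr rfl fun l _ => ?_
      rw [Finset.sum_mul]
      exact Finset.sum_congr rfl fun m _ => by ring
    change (∑ l, ∑ m, y l * y m * M l m) * (∑ l, ∑ m, (1:ℝ) * 1 * M l m)
      ≤ (∑ l, ∑ m, y l * 1 * M l m) ^ 2 at h1
    rw [hT, hyM] at h1
    have hT0 : 0 ≤ ∑ l, ∑ m, M l m :=
      Finset.sum_nonneg fun l _ => Finset.sum_nonneg fun m _ => hM0 l m
    have hgoal : ∑ l, ∑ m, M l m * (y l * y m) = ∑ l, ∑ m, y l * y m * M l m :=
      Finset.sum_congr rfl fun l _ => Finset.sum_congr rfl fun m _ => by ring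
    rw [hgoal]
    rcases hT0.lt_or_eq with hlt | heq
    · by_contra hcon
      push Not at hcon
      have := mul_pos hcon hlt
      simp only [ne_eq, OfNat.ofNat_ne_zero, not_false_eq_true, zero_pow] at h1
      linarith
    · have hz : ∀ l m, M l m = 0 := by
        intro l m
        have t1 := (Finset.sum_eq_zero_iff_of_nonneg
          (fun l _ => Finset.sum_nonneg fun m _ => hM0 l m)).mp heq.symm l (Finset.mem_univ l)
        exact (Finset.sum_eq_zero_iff_of_nonneg (fun m _ => hM0 l m)).mp t1 m (Finset.mem_univ m)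
      simp [hz]
  have hfin := H85.BMT.superadd (i := k + 2) (κ := κ) (by omega) hκ0 hconn hbase lam mu hlam hmu
  push_cast at hfin
  exact hfin

private theorem BMI_VE (J : Rn (k + 2) →ₗᵢ[ℝ] Cn n)
    (hpos : ∃ C : ℝ, 0 < C ∧ ∀ w : Fin (k + 2) → Cn n,
      C * √(GG w) ≤ gg (fun l => J (EuclideanSpace.single l 1)) w)
    (hhyp : ∀ (W : Fin k → Cn n) {N : ℕ} (p : Fin N → Cn n) (u t : Fin N → ℝ),
      (∀ j, 0 ≤ t j) →
      (∑ j, ∑ l, u j * u l * gg (fun l => J (EuclideanSpace.single l 1))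
          (Fin.cons (p j) (Fin.cons (p l) W : Fin (k + 1) → Cn n) : Fin (k + 2) → Cn n)) *
        (∑ j, ∑ l, t j * t l * gg (fun l => J (EuclideanSpace.single l 1))
          (Fin.cons (p j) (Fin.cons (p l) W : Fin (k + 1) → Cn n) : Fin (k + 2) → Cn n)) ≤
      (∑ j, ∑ l, u j * t l * gg (fun l => J (EuclideanSpace.single l 1))
          (Fin.cons (p j) (Fin.cons (p l) W : Fin (k + 1) → Cn n) : Fin (k + 2) → Cn n)) ^ 2)
    {N : ℕ} (v : Fin N → Cn n)
    (lam mu : Fin N → ℝ) (hlam : ∀ l, 0 ≤ lam l) (hmu : ∀ l, 0 ≤ mu l) :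
    (VE (LinearMap.range J.toLinearMap) (zon fun j => lam j • v j)) ^ (1 / ((k : ℝ) + 2)) +
      (VE (LinearMap.range J.toLinearMap) (zon fun j => mu j • v j)) ^ (1 / ((k : ℝ) + 2)) ≤
      (VE (LinearMap.range J.toLinearMap)
        (zon (fun j => lam j • v j) + zon (fun j => mu j • v j))) ^ (1 / ((k : ℝ) + 2)) := by
  have hr : (0 : ℝ) ≤ 1 / ((k : ℝ) + 2) := by positivity
  set e : Fin (k + 2) → Cn n := fun l => J (EuclideanSpace.single l 1) with he
  have hPZ : ∀ nu : Fin N → ℝ, (∀ l, 0 ≤ nu l) →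
      PZ (k + 2) (gg e) (fun j => nu j • v j)
        = PW (k + 2) (fun f : Fin (k + 2) → Fin N => gg e (v ∘ f)) nu :=
    fun nu hnu => PZ_smul (k + 2) (gg e) (fun t w => BMI_smul e t w) v nu hnu
  have hP0 : ∀ nu : Fin N → ℝ, 0 ≤ PZ (k + 2) (gg e) (fun j => nu j • v j) :=
    fun nu => PZ_nonneg (k + 2) _ (fun w => gg_nonneg _ w) _
  rw [zon_add v lam mu hlam hmu, VE_zonI J, VE_zonI J, VE_zonI J,
    ENNReal.ofReal_rpow_of_nonneg (hP0 lam) hr, ENNReal.ofReal_rpow_of_nonneg (hP0 mu) hr,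
    ENNReal.ofReal_rpow_of_nonneg (hP0 fun j => lam j + mu j) hr,
    ← ENNReal.ofReal_add (Real.rpow_nonneg (hP0 lam) _) (Real.rpow_nonneg (hP0 mu) _)]
  apply ENNReal.ofReal_le_ofReal
  rw [hPZ lam hlam, hPZ mu hmu, hPZ (fun j => lam j + mu j) (fun l => add_nonneg (hlam l) (hmu l))]
  exact BMI_all e hpos hhyp v lam mu hlam hmu

/-- a Minkowski sum of translates -/
private theorem BMI_add (c c' : Cn n) (K L : Set (Cn n)) :
    (fun z => c + z) '' K + (fun z => c' + z) '' L = (fun z => (c + c') + z) '' (K + L) := by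
  ext z
  constructor
  · rintro ⟨_, ⟨x, hx, rfl⟩, _, ⟨y, hy, rfl⟩, rfl⟩
    refine ⟨x + y, Set.add_mem_add hx hy, ?_⟩
    show c + c' + (x + y) = c + x + (c' + y)
    abel
  · rintro ⟨_, ⟨x, hx, y, hy, rfl⟩, rfl⟩
    refine ⟨c + x, ⟨x, hx, rfl⟩, c' + y, ⟨y, hy, rfl⟩, ?_⟩
    show c + x + (c' + y) = c + c' + (x + y)
    abel

private theorem BMI_zonotope (J : Rn (k + 2) →ₗᵢ[ℝ] Cn n)
    (hpos : ∃ C : ℝ, 0 < C ∧ ∀ w : Fin (k + 2) → Cn n,
      C * √(GG w) ≤ gg (fun l => J (EuclideanSpace.single l 1)) w)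
    (hhyp : ∀ (W : Fin k → Cn n) {N : ℕ} (p : Fin N → Cn n) (u t : Fin N → ℝ),
      (∀ j, 0 ≤ t j) →
      (∑ j, ∑ l, u j * u l * gg (fun l => J (EuclideanSpace.single l 1))
          (Fin.cons (p j) (Fin.cons (p l) W : Fin (k + 1) → Cn n) : Fin (k + 2) → Cn n)) *
        (∑ j, ∑ l, t j * t l * gg (fun l => J (EuclideanSpace.single l 1))
          (Fin.cons (p j) (Fin.cons (p l) W : Fin (k + 1) → Cn n) : Fin (k + 2) → Cn n)) ≤
      (∑ j, ∑ l, u j * t l * gg (fun l => J (EuclideanSpace.single l 1))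
          (Fin.cons (p j) (Fin.cons (p l) W : Fin (k + 1) → Cn n) : Fin (k + 2) → Cn n)) ^ 2)
    (Z Z' : Set (Cn n)) (hZ : SD.IsZonotope Z) (hZ' : SD.IsZonotope Z') :
    (VE (LinearMap.range J.toLinearMap) Z) ^ (1 / ((k : ℝ) + 2)) +
        (VE (LinearMap.range J.toLinearMap) Z') ^ (1 / ((k : ℝ) + 2)) ≤
      (VE (LinearMap.range J.toLinearMap) (Z + Z')) ^ (1 / ((k : ℝ) + 2)) := by
  rw [isZonotope_iff] at hZ hZ'
  obtain ⟨N, c, v, rfl⟩ := hZ
  obtain ⟨N', c', v', rfl⟩ := hZ'
  rw [BMI_add, VE_add_const, VE_add_const, VE_add_const]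
  have h := BMI_VE J hpos hhyp (Fin.append v v')
    (Fin.append (fun _ : Fin N => (1 : ℝ)) (fun _ : Fin N' => (0 : ℝ)))
    (Fin.append (fun _ : Fin N => (0 : ℝ)) (fun _ : Fin N' => (1 : ℝ)))
    (fun l => by
      refine Fin.addCases (fun l => ?_) (fun l => ?_) l
      · rw [Fin.append_left]; exact zero_le_one
      · rw [Fin.append_right])
    (fun l => by
      refine Fin.addCases (fun l => ?_) (fun l => ?_) l
      · rw [Fin.append_left]
      · rw [Fin.append_right]; exact zero_le_one)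
  have h1 : (fun j => (Fin.append (fun _ : Fin N => (1 : ℝ)) (fun _ : Fin N' => (0 : ℝ))) j •
      (Fin.append v v') j) = Fin.append v (fun _ : Fin N' => (0 : Cn n)) := by
    funext l
    refine Fin.addCases (fun l => ?_) (fun l => ?_) l
    · rw [Fin.append_left, Fin.append_left, Fin.append_left, one_smul]
    · rw [Fin.append_right, Fin.append_right, Fin.append_right, zero_smul]
  have h2 : (fun j => (Fin.append (fun _ : Fin N => (0 : ℝ)) (fun _ : Fin N' => (1 : ℝ))) j •
      (Fin.append v v') j) = Fin.append (fun _ : Fin N => (0 : Cn n)) v' := by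
    funext l
    refine Fin.addCases (fun l => ?_) (fun l => ?_) l
    · rw [Fin.append_left, Fin.append_left, Fin.append_left, zero_smul]
    · rw [Fin.append_right, Fin.append_right, Fin.append_right, one_smul]
  rw [h1, h2, zon_append_zero, zon_zero_append] at h
  exact h

theorem bm_zonoidI (J : Rn (m + 2) →ₗᵢ[ℝ] Cn n)
    (hpos : ∃ C : ℝ, 0 < C ∧ ∀ w : Fin (m + 2) → Cn n,
      C * √(GG w) ≤ gg (fun k => J (EuclideanSpace.single k 1)) w)
    (hhyp : ∀ (W : Fin m → Cn n) {N : ℕ} (p : Fin N → Cn n) (u t : Fin N → ℝ),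
      (∀ j, 0 ≤ t j) →
      (∑ j, ∑ k, u j * u k * gg (fun k => J (EuclideanSpace.single k 1))
          (Fin.cons (p j) (Fin.cons (p k) W : Fin (m + 1) → Cn n) : Fin (m + 2) → Cn n)) *
        (∑ j, ∑ k, t j * t k * gg (fun k => J (EuclideanSpace.single k 1))
          (Fin.cons (p j) (Fin.cons (p k) W : Fin (m + 1) → Cn n) : Fin (m + 2) → Cn n)) ≤
      (∑ j, ∑ k, u j * t k * gg (fun k => J (EuclideanSpace.single k 1))
          (Fin.cons (p j) (Fin.cons (p k) W : Fin (m + 1) → Cn n) : Fin (m + 2) → Cn n)) ^ 2)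
    {K L : Set (Cn n)} (hK : SD.IsZonoid K) (hL : SD.IsZonoid L) :
    (VE (LinearMap.range J.toLinearMap) K) ^ (1 / ((m : ℝ) + 2)) +
        (VE (LinearMap.range J.toLinearMap) L) ^ (1 / ((m : ℝ) + 2)) ≤
      (VE (LinearMap.range J.toLinearMap) (K + L)) ^ (1 / ((m : ℝ) + 2)) :=
  bm_limit J (1 / ((m : ℝ) + 2)) (by positivity)
    (fun Z Z' hZ hZ' => BMI_zonotope J hpos hhyp Z Z' hZ hZ') hK hL

end Pool.Agent.H35.NI
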