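import Mathlib
import Pool.Agent.H35.NI.Defs

set_option autoImplicit false

/-!
# GegA: `AA n i q` is the coefficient of `y^i` in `(1 + 2 y + q y²)^n`

(a) Expand `(q y² + (1 + 2 y))^n` with the binomial theorem twice (`n.choose j` times
`(n - j).choose (i - 2 j)`).
(b) `q = 1`: `(1 + 2y + y²)^n = (1 + y)^(2n)`.
(c) Taylor: for a polynomial `P`, `P^(i)(x) = i!` times the coefficient of `h^i` in `P(x + h)`
(`Polynomial.taylor_coeff`, `Polynomial.hasseDeriv`, `Polynomial.factorial_smul_hasseDeriv`), and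
`(x+h)² - 1 = (x²-1) + 2xh + h²`; expand as in (a): the coefficient is
`∑_j C(n,j) C(n-j,i-2j) (2x)^(i-2j) (x²-1)^(n-i+j)` `= (x²-1)^(n-i) x^i AA n i ((x²-1)/x²)`.
-/

open Polynomial

noncomputable section

namespace Pool.Agent.H35.NI

/-- The coefficients of a power of a linear polynomial. -/
private theorem coeff_lin (u v : ℝ) (N m : ℕ) :
    ((C v + C u * X) ^ N).coeff m = (N.choose m : ℝ) * u ^ m * v ^ (N - m) := by
  have h1 : (C v + C u * X : ℝ[X]) ^ N =
      ∑ k ∈ Finset.range (N + 1), C ((N.choose k : ℝ) * u ^ k * v ^ (N - k)) * X ^ k := by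
    rw [add_comm, add_pow]
    refine Finset.sum_congr rfl fun k _ => ?_
    rw [mul_pow]
    simp only [map_mul, map_pow, map_natCast]
    ring
  rw [h1, finsetSum_coeff]
  simp only [coeff_C_mul_X_pow]
  rw [Finset.sum_ite_eq (Finset.range (N + 1)) m]
  split_ifs with h
  · rfl
  · have h2 : N < m := by simpa [Nat.lt_succ_iff, Finset.mem_range] using h
    rw [Nat.choose_eq_zero_of_lt h2]
    simp

/-- The coefficients of a power of a quadratic polynomial. -/
private theorem coeff_quad (u v c : ℝ) {n i : ℕ} (hin : i ≤ n) :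
    ((C c * X ^ 2 + (C v + C u * X)) ^ n).coeff i =
      ∑ j ∈ Finset.range (i / 2 + 1), (n.choose j : ℝ) * ((n - j).choose (i - 2 * j) : ℝ) *
        u ^ (i - 2 * j) * c ^ j * v ^ (n - i + j) := by
  have h1 : (C c * X ^ 2 + (C v + C u * X) : ℝ[X]) ^ n =
      ∑ j ∈ Finset.range (n + 1), C ((n.choose j : ℝ) * c ^ j) *
        (X ^ (2 * j) * (C v + C u * X) ^ (n - j)) := by
    rw [add_pow]
    refine Finset.sum_congr rfl fun j _ => ?_
    rw [mul_pow, ← pow_mul]
    simp only [map_mul, map_pow, map_natCast]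
    ring
  have h2 : ∀ j, (C ((n.choose j : ℝ) * c ^ j) *
      (X ^ (2 * j) * (C v + C u * X) ^ (n - j))).coeff i =
      if 2 * j ≤ i then (n.choose j : ℝ) * ((n - j).choose (i - 2 * j) : ℝ) *
        u ^ (i - 2 * j) * c ^ j * v ^ (n - i + j) else 0 := by
    intro j
    rw [coeff_C_mul]
    split_ifs with h
    · have h3 : i = (i - 2 * j) + 2 * j := by omega
      have h4 : (X ^ (2 * j) * (C v + C u * X) ^ (n - j) : ℝ[X]).coeff i =
          ((C v + C u * X) ^ (n - j)).coeff (i - 2 * j) := by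
        conv_lhs => rw [h3]
        rw [coeff_X_pow_mul]
      rw [h4, coeff_lin]
      have h5 : n - j - (i - 2 * j) = n - i + j := by omega
      rw [h5]
      ring
    · rw [coeff_X_pow_mul', if_neg h, mul_zero]
  rw [h1, finsetSum_coeff]
  simp only [h2]
  rw [← Finset.sum_filter]
  refine Finset.sum_congr ?_ fun j _ => rfl
  ext j
  simp only [Finset.mem_filter, Finset.mem_range]
  omega

private theorem AA_eq_coeff {n i : ℕ} (hin : i ≤ n) (q : ℝ) :
    AA n i q = ((C q * X ^ 2 + (C 1 + C 2 * X)) ^ n).coeff i := by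
  rw [coeff_quad 2 1 q hin, AA]
  refine Finset.sum_congr rfl fun j _ => ?_
  rw [one_pow, mul_one]

theorem AA_one {n i : ℕ} (hin : i ≤ n) : AA n i 1 = ((2 * n).choose i : ℝ) := by
  rw [AA_eq_coeff hin]
  have h1 : (C 1 * X ^ 2 + (C 1 + C 2 * X) : ℝ[X]) ^ n = (1 + X) ^ (2 * n) := by
    rw [pow_mul]
    congr 1
    have h2 : (C (2 : ℝ) : ℝ[X]) = 2 := map_ofNat C 2
    rw [h2, map_one]
    ring
  rw [h1, coeff_one_add_X_pow]

theorem deriv_AA {n i : ℕ} (hin : i ≤ n) {x : ℝ} (hx : x ≠ 0) :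
    (derivative^[i] ((X ^ 2 - 1 : ℝ[X]) ^ n)).eval x =
      (i.factorial : ℝ) * (x ^ 2 - 1) ^ (n - i) * x ^ i * AA n i (1 - 1 / x ^ 2) := by
  have h1 : (derivative^[i] ((X ^ 2 - 1 : ℝ[X]) ^ n)).eval x =
      (i.factorial : ℝ) * ((hasseDeriv i ((X ^ 2 - 1 : ℝ[X]) ^ n)).eval x) := by
    have h3 : (i.factorial • hasseDeriv i) ((X ^ 2 - 1 : ℝ[X]) ^ n) =
        derivative^[i] ((X ^ 2 - 1 : ℝ[X]) ^ n) := by
      rw [← factorial_smul_hasseDeriv]
    rw [← h3]
    simp [nsmul_eq_mul]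
  rw [h1, ← taylor_coeff]
  have h4 : taylor x ((X ^ 2 - 1 : ℝ[X]) ^ n) =
      (C 1 * X ^ 2 + (C (x ^ 2 - 1) + C (2 * x) * X)) ^ n := by
    rw [taylor_pow]
    congr 1
    rw [map_sub, taylor_pow, taylor_X, taylor_one]
    simp only [map_sub, map_pow, map_mul, map_one]
    have h2 : (C (2 : ℝ) : ℝ[X]) = 2 := map_ofNat C 2
    rw [h2]
    ring
  rw [h4, coeff_quad (2 * x) (x ^ 2 - 1) 1 hin, AA, Finset.mul_sum, Finset.mul_sum]
  refine Finset.sum_congr rfl fun j hj => ?_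
  have hj2 : 2 * j ≤ i := by
    have := Finset.mem_range.1 hj
    omega
  have h5 : x ^ i * (1 - 1 / x ^ 2) ^ j = x ^ (i - 2 * j) * (x ^ 2 - 1) ^ j := by
    have h6 : x ^ i = x ^ (i - 2 * j) * (x ^ 2) ^ j := by
      rw [← pow_mul, ← pow_add]
      congr 1
      omega
    rw [h6, mul_assoc, ← mul_pow]
    congr 2
    field_simp
  rw [mul_pow, pow_add, one_pow]
  linear_combination (-(i.factorial : ℝ) * (n.choose j : ℝ) *
    ((n - j).choose (i - 2 * j) : ℝ) * 2 ^ (i - 2 * j) * (x ^ 2 - 1) ^ (n - i)) * h5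

end Pool.Agent.H35.NI
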