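import Mathlib

set_option autoImplicit false

/-!
# GegR: zeros of the derivatives of `(x² - 1)^n`

`f_k = D^k (x² - 1)^n` vanishes at `±1` for `k < n` (`(x²-1)^(n-k)` divides `f_k`).  By induction on
`k ≤ n` there are `k` distinct zeros of `f_k` in `(-1, 1)` (Rolle between the zeros
`-1 < x_1 < … < x_k < 1` of `f_k`, `k < n`; e.g. with a strictly monotone list / `Fin (k+2) → ℝ`).
`f_i` is even or odd (`f_i(-x) = (-1)^i f_i(x)`), and nonzero; so among its `i` distinct zeros in
`(-1,1)` (at most one is `0`; if `i` is even and one is `0`, …) at least `i / 2` distinct ones are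
positive: the set of zeros in `(-1,1)` is symmetric; take the positive ones, their number `P`
satisfies `2 P + 1 ≥ i`, so `P ≥ i/2` (for `i` even: `2P + 1 ≥ i` gives `P ≥ i/2` as well).
-/

open Polynomial

noncomputable section

namespace Pool.Agent.H35.NI

private theorem eval_one_zero {n k : ℕ} (hk : k < n) (a : ℝ) (ha : a ^ 2 = 1) :
    (derivative^[k] ((X ^ 2 - 1 : ℝ[X]) ^ n)).eval a = 0 := by
  obtain ⟨g, hg⟩ := Polynomial.pow_sub_dvd_iterate_derivative_pow (X ^ 2 - 1 : ℝ[X]) n k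
  rw [hg, eval_mul, eval_pow]
  have : (X ^ 2 - 1 : ℝ[X]).eval a = 0 := by simp [ha]
  rw [this, zero_pow (by omega), zero_mul]

private theorem rolle_step {p : ℝ[X]} {k : ℕ} {s : Finset ℝ} (hs : s.card = k)
    (hz : ∀ x ∈ s, -1 < x ∧ x < 1 ∧ p.eval x = 0) (h1 : p.eval 1 = 0) (h2 : p.eval (-1) = 0) :
    ∃ t : Finset ℝ, t.card = k + 1 ∧ ∀ x ∈ t, -1 < x ∧ x < 1 ∧ (derivative p).eval x = 0 := by
  classical
  have n1 : (1 : ℝ) ∉ s := fun h => by have := (hz 1 h).2.1; linarith
  have n2 : (-1 : ℝ) ∉ insert (1 : ℝ) s := by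
    intro h
    rcases Finset.mem_insert.1 h with h | h
    · norm_num at h
    · have := (hz _ h).1; linarith
  have hc : (insert (-1 : ℝ) (insert (1 : ℝ) s)).card = k + 2 := by
    rw [Finset.card_insert_of_notMem n2, Finset.card_insert_of_notMem n1, hs]
  set e := (insert (-1 : ℝ) (insert (1 : ℝ) s)).orderEmbOfFin hc with he
  have hmem : ∀ j, e j ∈ insert (-1 : ℝ) (insert (1 : ℝ) s) := fun j =>
    Finset.orderEmbOfFin_mem _ hc j
  have hp : ∀ j, -1 ≤ e j ∧ e j ≤ 1 ∧ p.eval (e j) = 0 := by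
    intro j
    rcases Finset.mem_insert.1 (hmem j) with h | h
    · rw [h]; exact ⟨le_rfl, by norm_num, h2⟩
    rcases Finset.mem_insert.1 h with h | h
    · rw [h]; exact ⟨by norm_num, le_rfl, h1⟩
    · obtain ⟨a, b, c⟩ := hz _ h
      exact ⟨a.le, b.le, c⟩
  have hy : ∀ j : Fin (k + 1), ∃ y, e j.castSucc < y ∧ y < e j.succ ∧ (derivative p).eval y = 0 := by
    intro j
    have hlt : e j.castSucc < e j.succ := e.strictMono Fin.castSucc_lt_succ
    obtain ⟨c, hc1, hc2⟩ := exists_deriv_eq_zero (f := fun x => p.eval x) hlt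
      p.continuous.continuousOn ((hp _).2.2.trans (hp _).2.2.symm)
    rw [Polynomial.deriv] at hc2
    exact ⟨c, hc1.1, hc1.2, hc2⟩
  choose y y1 y2 y3 using hy
  have hmono : StrictMono y := by
    intro i j hij
    have h3 : e i.succ ≤ e j.castSucc := e.monotone (by
      rw [Fin.le_def]; simp only [Fin.val_succ, Fin.val_castSucc]; exact hij)
    exact (y2 i).trans (h3.trans_lt (y1 j))
  refine ⟨Finset.univ.image y, ?_, ?_⟩
  · rw [Finset.card_image_of_injective _ hmono.injective, Finset.card_univ, Fintype.card_fin]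
  · intro x hx
    obtain ⟨j, _, rfl⟩ := Finset.mem_image.1 hx
    exact ⟨(hp _).1.trans_lt (y1 j), (y2 j).trans_le (hp _).2.1, y3 j⟩

private theorem zeros (n : ℕ) : ∀ k, k ≤ n → ∃ s : Finset ℝ, s.card = k ∧
    ∀ x ∈ s, -1 < x ∧ x < 1 ∧ (derivative^[k] ((X ^ 2 - 1 : ℝ[X]) ^ n)).eval x = 0 := by
  intro k
  induction k with
  | zero => intro _; exact ⟨∅, rfl, by simp⟩
  | succ k ih =>
    intro hk
    obtain ⟨s, hs, hz⟩ := ih (by omega)
    rw [Function.iterate_succ_apply']
    exact rolle_step hs hz (eval_one_zero (by omega) _ (by norm_num))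
      (eval_one_zero (by omega) _ (by norm_num))

private theorem parity (n : ℕ) : ∀ i, (derivative^[i] ((X ^ 2 - 1 : ℝ[X]) ^ n)).comp (-X) =
    (-1) ^ i * derivative^[i] ((X ^ 2 - 1 : ℝ[X]) ^ n) := by
  intro i
  induction i with
  | zero => simp
  | succ i ih =>
    rw [Function.iterate_succ_apply']
    set p := derivative^[i] ((X ^ 2 - 1 : ℝ[X]) ^ n) with hp
    have h := congrArg derivative ih
    rw [derivative_comp] at h
    have h2 : derivative ((-1 : ℝ[X]) ^ i * p) = (-1) ^ i * derivative p := by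
      have : ((-1 : ℝ[X]) ^ i) = C ((-1 : ℝ) ^ i) := by simp
      rw [this, derivative_C_mul]
    rw [h2] at h
    have h3 : derivative (-X : ℝ[X]) = -1 := by simp
    rw [h3] at h
    rw [pow_succ]
    linear_combination -h

private theorem eval_neg' (n i : ℕ) (x : ℝ)
    (hx : (derivative^[i] ((X ^ 2 - 1 : ℝ[X]) ^ n)).eval x = 0) :
    (derivative^[i] ((X ^ 2 - 1 : ℝ[X]) ^ n)).eval (-x) = 0 := by
  have h := congrArg (eval x) (parity n i)
  rw [eval_comp, eval_neg, eval_X, eval_mul, hx, mul_zero] at h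
  exact h

private theorem ne_zero' {n i : ℕ} (hin : i ≤ n) :
    derivative^[i] ((X ^ 2 - 1 : ℝ[X]) ^ n) ≠ 0 := by
  intro h
  have h1 := congrArg (fun q : ℝ[X] => q.coeff (2 * n - i)) h
  simp only [coeff_iterate_derivative, coeff_zero] at h1
  have hm : ((X ^ 2 - 1 : ℝ[X])).Monic := by
    have := monic_X_pow_sub_C (1 : ℝ) (n := 2) (by norm_num)
    simpa using this
  have hd : ((X ^ 2 - 1 : ℝ[X])).natDegree = 2 := by
    have := natDegree_X_pow_sub_C (n := 2) (r := (1 : ℝ))
    simpa using this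
  have h2 : (2 * n - i) + i = ((X ^ 2 - 1 : ℝ[X]) ^ n).natDegree := by
    rw [hm.natDegree_pow, hd]; omega
  rw [h2] at h1
  have h3 : (((X ^ 2 - 1 : ℝ[X]) ^ n)).coeff ((X ^ 2 - 1 : ℝ[X]) ^ n).natDegree = 1 :=
    (hm.pow n)
  rw [h3, nsmul_eq_mul, mul_one] at h1
  have h4 : (((X ^ 2 - 1 : ℝ[X]) ^ n).natDegree).descFactorial i ≠ 0 := by
    rw [Ne, Nat.descFactorial_eq_zero_iff_lt, ← h2]; omega
  exact h4 (by exact_mod_cast h1)

theorem roots_pos {n i : ℕ} (hin : i ≤ n) : ∃ x : Fin (i / 2) → ℝ, Function.Injective x ∧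
    ∀ j, 0 < x j ∧ x j < 1 ∧ (derivative^[i] ((X ^ 2 - 1 : ℝ[X]) ^ n)).eval (x j) = 0 := by
  classical
  obtain ⟨s, hs, hz⟩ := zeros n i hin
  set p := derivative^[i] ((X ^ 2 - 1 : ℝ[X]) ^ n) with hp
  have hp0 : p ≠ 0 := ne_zero' hin
  set T := p.roots.toFinset.filter (fun x => -1 < x ∧ x < 1) with hT
  have hTm : ∀ x, x ∈ T ↔ p.eval x = 0 ∧ -1 < x ∧ x < 1 := by
    intro x
    rw [hT, Finset.mem_filter, Multiset.mem_toFinset, mem_roots hp0, IsRoot.def]
  have hsT : s ⊆ T := by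
    intro x hx
    obtain ⟨a, b, c⟩ := hz x hx
    exact (hTm x).2 ⟨c, a, b⟩
  have hTc : i ≤ T.card := hs ▸ Finset.card_le_card hsT
  set P := T.filter (fun x => 0 < x) with hP
  have hsub : T ⊆ insert 0 (P ∪ P.image (fun x => -x)) := by
    intro x hx
    obtain ⟨a, b, c⟩ := (hTm x).1 hx
    rcases lt_trichotomy x 0 with h | h | h
    · apply Finset.mem_insert_of_mem
      apply Finset.mem_union_right
      refine Finset.mem_image.2 ⟨-x, ?_, by simp⟩
      rw [hP, Finset.mem_filter, hTm]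
      exact ⟨⟨eval_neg' n i x a, by linarith, by linarith⟩, by linarith⟩
    · rw [h]; exact Finset.mem_insert_self _ _
    · apply Finset.mem_insert_of_mem
      apply Finset.mem_union_left
      rw [hP, Finset.mem_filter]
      exact ⟨hx, h⟩
  have hcard : i ≤ P.card + P.card + 1 := by
    calc i ≤ T.card := hTc
      _ ≤ _ := Finset.card_le_card hsub
      _ ≤ (P ∪ P.image (fun x => -x)).card + 1 := Finset.card_insert_le _ _
      _ ≤ P.card + (P.image (fun x => -x)).card + 1 := by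
          have := Finset.card_union_le P (P.image (fun x => -x)); omega
      _ ≤ _ := by
          have := Finset.card_image_le (s := P) (f := fun x : ℝ => -x); omega
  have h2 : i / 2 ≤ P.card := by omega
  obtain ⟨u, hu, huc⟩ := Finset.exists_subset_card_eq h2
  refine ⟨u.orderEmbOfFin huc, (u.orderEmbOfFin huc).injective, fun j => ?_⟩
  have hj := hu (Finset.orderEmbOfFin_mem u huc j)
  rw [hP, Finset.mem_filter, hTm] at hj
  exact ⟨hj.2, hj.1.2.2, hj.1.1⟩

end Pool.Agent.H35.NI
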