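import Mathlib
import Pool.Agent.H35.NI.GegA
import Pool.Agent.H35.NI.GegR

set_option autoImplicit false

/-!
# Geg: the polynomial `AA n i (1 + z²)` is `C(2n,i) ∏ (1 + z² c_j²)` with `c_j ∈ [0,1]`

Let `p = i / 2`.  By `roots_pos` and `deriv_AA` the function `q ↦ AA n i q`, a polynomial of degree
`≤ p` in `q` with coefficient `C(n,p) C(n-p,i-2p) 2^(i-2p) ≠ 0` of `q^p`, has the `p` distinct zeros
`q_j = 1 - 1/x_j² < 0`, so it is `a ∏ (q - q_j)`, and
`AA n i (1+z²) = a ∏ (z² + 1/x_j²) = (a ∏ 1/x_j²) ∏ (1 + z² x_j²)`; `z = 0` and `AA_one` give the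
constant.  Take `c_j = x_j` for `j < p` and `0` otherwise.
-/

open Polynomial

noncomputable section

namespace Pool.Agent.H35.NI

/-- A polynomial of degree `≤ p` with `p` distinct zeros is a constant multiple of the product of
the linear factors. -/
private theorem factor {p : ℕ} (P : ℝ[X]) (hP : P.natDegree ≤ p) (q : Fin p → ℝ)
    (hq : Function.Injective q) (hz : ∀ j, P.eval (q j) = 0) :
    ∃ r : ℝ, ∀ t : ℝ, P.eval t = r * ∏ j, (t - q j) := by
  have hd : (∏ j, (X - C (q j))) ∣ P := by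
    refine Finset.prod_dvd_of_coprime ?_ ?_
    · intro a _ b _ hab
      exact pairwise_coprime_X_sub_C hq hab
    · intro j _
      exact dvd_iff_isRoot.mpr (hz j)
  obtain ⟨R, hR⟩ := hd
  have hR0 : R.natDegree = 0 := by
    by_cases h0 : R = 0
    · simp [h0]
    · have h1 : (∏ j, (X - C (q j))).Monic := monic_prod_of_monic _ _ fun j _ => monic_X_sub_C _
      have h2 : P.natDegree = (∏ j, (X - C (q j))).natDegree + R.natDegree := by
        rw [hR, h1.natDegree_mul' h0]
      have h3 : (∏ j, (X - C (q j))).natDegree = p := by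
        rw [natDegree_prod_of_monic _ _ fun j _ => monic_X_sub_C _]
        simp
      omega
  refine ⟨R.coeff 0, fun t => ?_⟩
  have h4 : R = C (R.coeff 0) := eq_C_of_natDegree_eq_zero hR0
  rw [hR, eval_mul, eval_prod, mul_comm]
  congr 1
  · conv_lhs => rw [h4]
    simp
  · simp

/-- The polynomial `q ↦ AA n i q`. -/
private def PA (n i : ℕ) : ℝ[X] :=
  ∑ j ∈ Finset.range (i / 2 + 1), C ((n.choose j : ℝ) * ((n - j).choose (i - 2 * j) : ℝ) *
    2 ^ (i - 2 * j)) * X ^ j

private theorem PA_eval (n i : ℕ) (q : ℝ) : (PA n i).eval q = AA n i q := by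
  simp [PA, AA, eval_finsetSum]

private theorem PA_deg (n i : ℕ) : (PA n i).natDegree ≤ i / 2 := by
  refine natDegree_sum_le_of_forall_le _ _ fun j hj => ?_
  refine (natDegree_C_mul_X_pow_le _ _).trans ?_
  have := Finset.mem_range.mp hj
  omega

theorem exists_angles {n i : ℕ} (hin : i ≤ n) : ∃ c : ℕ → ℝ, (∀ j, 0 ≤ c j ∧ c j ≤ 1) ∧
    ∀ z : ℝ, AA n i (1 + z ^ 2) =
      ((2 * n).choose i : ℝ) * ∏ j ∈ Finset.range (i / 2), (1 + z ^ 2 * c j ^ 2) := by
  obtain ⟨x, hx, hx'⟩ := roots_pos hin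
  have hz : ∀ j, (PA n i).eval (1 - 1 / x j ^ 2) = 0 := by
    intro j
    obtain ⟨h0, h1, h2⟩ := hx' j
    rw [deriv_AA hin h0.ne'] at h2
    have h3 : x j ^ 2 - 1 ≠ 0 := by nlinarith
    have h4 : (i.factorial : ℝ) * (x j ^ 2 - 1) ^ (n - i) * x j ^ i ≠ 0 :=
      mul_ne_zero (mul_ne_zero (by exact_mod_cast i.factorial_ne_zero) (pow_ne_zero _ h3))
        (pow_ne_zero _ h0.ne')
    rw [PA_eval]
    exact (mul_eq_zero.mp h2).resolve_left h4
  have hinj : Function.Injective fun j => 1 - 1 / x j ^ 2 := by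
    intro a b hab
    have h1 := (hx' a).1
    have h2 := (hx' b).1
    simp only [one_div, sub_right_inj, inv_inj] at hab
    exact hx ((pow_left_inj₀ h1.le h2.le two_ne_zero).mp hab)
  obtain ⟨r, hr⟩ := factor (PA n i) (PA_deg n i) _ hinj hz
  simp only [PA_eval] at hr
  refine ⟨fun j => if h : j < i / 2 then x ⟨j, h⟩ else 0, fun j => ?_, fun z => ?_⟩
  · by_cases h : j < i / 2
    · simp only [h, dite_true]
      exact ⟨(hx' ⟨j, h⟩).1.le, (hx' ⟨j, h⟩).2.1.le⟩
    · simp [h]
  · rw [Finset.prod_range]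
    simp only [Fin.is_lt, dite_true, Fin.eta]
    have h5 : ∀ w : ℝ, AA n i (1 + w ^ 2) =
        (r * ∏ j, (1 / x j ^ 2)) * ∏ j, (1 + w ^ 2 * x j ^ 2) := by
      intro w
      rw [hr, mul_assoc, ← Finset.prod_mul_distrib]
      congr 1
      refine Finset.prod_congr rfl fun j _ => ?_
      have := (hx' j).1
      field_simp
      ring
    have h6 := h5 0
    simp only [ne_eq, OfNat.ofNat_ne_zero, not_false_eq_true, zero_pow, add_zero, zero_mul,
      Finset.prod_const_one, mul_one] at h6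
    rw [h5 z, ← h6, AA_one hin]

end Pool.Agent.H35.NI
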