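import Mathlib
import Pool.Agent.H35.NI.Lin

set_option autoImplicit false

/-!
# Min: sums of principal minors

Let `o` be an orthonormal basis of `ℂⁿ = ℝ²ⁿ`, `Ω = om (o a) (o b)`: `Ωᵀ = -Ω`, `Ω² = -1`
(`om (o a) (o b) = ⟨i o_a, o_b⟩`, multiplication by `i` is an isometry with square `-1`).
`∑_{|I| = i} det ((1 + z Ω)_I) =` coefficient of `X^i` in `det (1 + X (1 + z Ω))`
(`Matrix.coeff_det_one_add_X_smul_eq_sum_minors`), and
`det ((1+X) + z X Ω)² = det (((1+X) + zXΩ)((1+X) - zXΩ)) = ((1+X)² + z²X²)^(2n)` (the two factors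
are transposed to each other), so `det = ((1+X)² + z²X²)^n = (1 + 2X + (1+z²)X²)^n` (sign: `X = 0`).
`S`: the order embeddings of the `i`-element subsets.
-/

open MeasureTheory Pool.Agent.H61.UProj Pool.Agent.H89.CZ

noncomputable section

namespace Pool.Agent.H35.NI

private theorem om_inner {n : ℕ} (x y : Cn n) : om x y = (inner ℝ (Complex.I • x) y : ℝ) := by
  rw [real_inner_eq, om, PiLp.inner_apply, Complex.im_sum, Complex.re_sum]
  refine Finset.sum_congr rfl fun j _ => ?_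
  rw [RCLike.inner_apply, PiLp.smul_apply, smul_eq_mul, map_mul, Complex.conj_I]
  simp only [Complex.mul_re, Complex.mul_im, Complex.neg_re, Complex.neg_im, Complex.I_re,
    Complex.I_im, Complex.conj_re, Complex.conj_im]
  ring

private theorem inner_I {n : ℕ} (x y : Cn n) :
    (inner ℝ (Complex.I • x) (Complex.I • y) : ℝ) = inner ℝ x y := by
  rw [real_inner_eq, real_inner_eq]
  congr 1
  refine Finset.sum_congr rfl fun j _ => ?_
  rw [PiLp.smul_apply, PiLp.smul_apply, smul_eq_mul, smul_eq_mul, map_mul, Complex.conj_I]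
  have h := Complex.I_mul_I
  linear_combination (-((starRingEnd ℂ) (x j) * y j)) * h

/-- The matrix of the symplectic form. -/
private def Om {n : ℕ} (o : Fin (2 * n) → Cn n) : Matrix (Fin (2 * n)) (Fin (2 * n)) ℝ :=
  Matrix.of fun a b => om (o a) (o b)

private theorem Om_transpose {n : ℕ} (o : Fin (2 * n) → Cn n) : (Om o).transpose = -Om o := by
  ext a b
  exact om_swap _ _

private theorem Om_sq {n : ℕ} {o : Fin (2 * n) → Cn n} (ho : Orthonormal ℝ o) :
    Om o * Om o = -1 := by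
  have hfr : Module.finrank ℝ (Cn n) = 2 * n := by
    rw [finrank_real_of_complex, finrank_euclideanSpace_fin]
  have hsp : Submodule.span ℝ (Set.range o) = ⊤ :=
    ho.linearIndependent.span_eq_top_of_card_eq_finrank' (by rw [hfr, Fintype.card_fin])
  let b : OrthonormalBasis (Fin (2 * n)) ℝ (Cn n) := OrthonormalBasis.mk ho hsp.ge
  have hb : ∀ a, b a = o a := fun a => by
    rw [OrthonormalBasis.coe_mk]
  ext a c
  rw [Matrix.mul_apply, Matrix.neg_apply]
  have h1 : ∀ j, Om o a j * Om o j c =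
      -((inner ℝ (Complex.I • o a) (b j) : ℝ) * inner ℝ (b j) (Complex.I • o c)) := fun j => by
    change om (o a) (o j) * om (o j) (o c) = _
    rw [om_swap (o c) (o j), om_inner, om_inner, hb, real_inner_comm (o j) (Complex.I • o c)]
    ring
  rw [Finset.sum_congr rfl fun j _ => h1 j, Finset.sum_neg_distrib, b.sum_inner_mul_inner, inner_I,
    orthonormal_iff_ite.1 ho a c, Matrix.one_apply]

open Polynomial in
private theorem det_eq {n : ℕ} {o : Fin (2 * n) → Cn n} (ho : Orthonormal ℝ o) (z : ℝ) :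
    (1 + (X : ℝ[X]) • (1 + z • Om o).map C : Matrix (Fin (2 * n)) (Fin (2 * n)) ℝ[X]).det =
      ((1 + X) ^ 2 + C (z ^ 2) * X ^ 2) ^ n := by
  set M : Matrix (Fin (2 * n)) (Fin (2 * n)) ℝ[X] := (Om o).map C with hM
  have hMt : M.transpose = -M := by
    rw [hM, ← Matrix.transpose_map, Om_transpose]
    ext a b
    simp
  have hMM : M * M = -1 := by
    have h := congrArg (fun N => N.map (C : ℝ →+* ℝ[X])) (Om_sq ho)
    simp only [Matrix.map_mul] at h
    rw [hM, h]
    ext a b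
    by_cases hab : a = b
    · subst hab; simp
    · simp [hab]
  set A : Matrix (Fin (2 * n)) (Fin (2 * n)) ℝ[X] :=
    (1 + X : ℝ[X]) • (1 : Matrix (Fin (2 * n)) (Fin (2 * n)) ℝ[X]) + (C z * X : ℝ[X]) • M with hA
  have hAeq : (1 + (X : ℝ[X]) • (1 + z • Om o).map C : Matrix (Fin (2 * n)) (Fin (2 * n)) ℝ[X])
      = A := by
    refine Matrix.ext fun a b => ?_
    rw [hA, hM, Matrix.add_apply, Matrix.add_apply, Matrix.smul_apply, Matrix.smul_apply,
      Matrix.smul_apply, Matrix.map_apply, Matrix.map_apply, Matrix.add_apply, Matrix.smul_apply,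
      smul_eq_mul, smul_eq_mul, smul_eq_mul, smul_eq_mul, C_add, C_mul]
    by_cases hab : a = b
    · subst hab
      rw [Matrix.one_apply_eq, Matrix.one_apply_eq, C_1]
      ring
    · rw [Matrix.one_apply_ne hab, Matrix.one_apply_ne hab, C_0]
      ring
  have hAt : A.transpose =
      (1 + X : ℝ[X]) • (1 : Matrix (Fin (2 * n)) (Fin (2 * n)) ℝ[X]) - (C z * X : ℝ[X]) • M := by
    rw [hA, Matrix.transpose_add, Matrix.transpose_smul, Matrix.transpose_smul,
      Matrix.transpose_one, hMt, smul_neg, sub_eq_add_neg]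
  set Q : ℝ[X] := (1 + X) ^ 2 + C (z ^ 2) * X ^ 2 with hQ
  have hmul : A * A.transpose = Q • (1 : Matrix (Fin (2 * n)) (Fin (2 * n)) ℝ[X]) := by
    rw [hAt, hA, add_mul, mul_sub, mul_sub]
    simp only [Matrix.smul_mul, Matrix.mul_smul, Matrix.one_mul, Matrix.mul_one, hMM, smul_smul,
      smul_neg]
    rw [hQ, C_pow]
    module
  have hsq : A.det ^ 2 = (Q ^ n) ^ 2 := by
    have h := congrArg Matrix.det hmul
    rw [Matrix.det_mul, Matrix.det_transpose, Matrix.det_smul, Matrix.det_one, mul_one,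
      Fintype.card_fin] at h
    rw [sq, h]
    ring
  rw [hAeq]
  rcases sq_eq_sq_iff_eq_or_eq_neg.1 hsq with h | h
  · exact h
  · exfalso
    have h0 : A.det.eval 0 = 1 := by
      rw [← hAeq, ← coe_evalRingHom, RingHom.map_det]
      have : (evalRingHom (0 : ℝ)).mapMatrix
          (1 + (X : ℝ[X]) • (1 + z • Om o).map C : Matrix (Fin (2 * n)) (Fin (2 * n)) ℝ[X]) = 1 := by
        ext a b
        by_cases hab : a = b
        · subst hab; simp
        · simp [hab]
      rw [this, Matrix.det_one]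
    rw [h] at h0
    simp [hQ] at h0
    norm_num at h0

open Polynomial in
private theorem coeff_eq {n i : ℕ} (hin : i ≤ n) (z : ℝ) :
    (((1 + X) ^ 2 + C (z ^ 2) * X ^ 2 : ℝ[X]) ^ n).coeff i = AA n i (1 + z ^ 2) := by
  have h0 : ((1 + X) ^ 2 + C (z ^ 2) * X ^ 2 : ℝ[X]) =
      C (1 + z ^ 2) * X ^ 2 + (1 + C 2 * X) := by
    rw [C_add, C_1, C_ofNat]
    ring
  have h2 : ∀ m k : ℕ, ((1 + C 2 * X : ℝ[X]) ^ m).coeff k = (m.choose k : ℝ) * 2 ^ k := by
    intro m k
    have h := Polynomial.coeff_one_add_X_pow ℝ m k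
    have hcomp : ((1 + C 2 * X : ℝ[X]) ^ m) = ((1 + X : ℝ[X]) ^ m).comp (C 2 * X) := by
      simp
    rw [hcomp, comp_C_mul_X_coeff, h]
  rw [h0, add_pow, finsetSum_coeff]
  have h3 : ∀ j ∈ Finset.range (n + 1),
      ((C (1 + z ^ 2) * X ^ 2 : ℝ[X]) ^ j * (1 + C 2 * X) ^ (n - j) * (n.choose j : ℝ[X])).coeff i =
      if 2 * j ≤ i then (n.choose j : ℝ) * ((n - j).choose (i - 2 * j) : ℝ) *
        2 ^ (i - 2 * j) * (1 + z ^ 2) ^ j else 0 := by
    intro j _
    have e : ((C (1 + z ^ 2) * X ^ 2 : ℝ[X]) ^ j * (1 + C 2 * X) ^ (n - j) * (n.choose j : ℝ[X])) =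
        C ((n.choose j : ℝ) * (1 + z ^ 2) ^ j) * ((1 + C 2 * X) ^ (n - j) * X ^ (2 * j)) := by
      rw [mul_pow, ← pow_mul, C_mul, C_pow, ← C_eq_natCast]
      ring
    rw [e, coeff_C_mul, coeff_mul_X_pow']
    split_ifs with h
    · rw [h2]
      ring
    · rw [mul_zero]
  rw [Finset.sum_congr rfl h3, ← Finset.sum_filter, AA]
  refine Finset.sum_congr ?_ fun _ _ => rfl
  ext j
  simp only [Finset.mem_filter, Finset.mem_range]
  omega

theorem sum_minors {n i : ℕ} (hin : i ≤ n) : ∃ S : Finset (Fin i ↪ Fin (2 * n)),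
    (Fin.castLEEmb (by omega) : Fin i ↪ Fin (2 * n)) ∈ S ∧
    ∀ o : Fin (2 * n) → Cn n, Orthonormal ℝ o → ∀ z : ℝ,
      ∑ τ ∈ S, dz (fun a => o (τ a)) z = AA n i (1 + z ^ 2) := by
  classical
  refine ⟨Finset.univ.filter fun τ : Fin i ↪ Fin (2 * n) => StrictMono τ, ?_, ?_⟩
  · rw [Finset.mem_filter]
    exact ⟨Finset.mem_univ _, fun a b h => h⟩
  intro o ho z
  rw [← coeff_eq hin z, ← det_eq ho z, Matrix.coeff_det_one_add_X_smul_eq_sum_minors]
  refine Finset.sum_bij (fun τ _ => Finset.univ.map τ) ?_ ?_ ?_ ?_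
  · intro τ _
    rw [Finset.mem_powersetCard]
    exact ⟨Finset.subset_univ _, by rw [Finset.card_map, Finset.card_univ, Fintype.card_fin]⟩
  · intro τ hτ τ' hτ' h
    rw [Finset.mem_filter] at hτ hτ'
    apply Function.Embedding.ext
    have h1 : Set.range τ = Set.range τ' := by
      have := congrArg (fun s : Finset (Fin (2 * n)) => (s : Set (Fin (2 * n)))) h
      simpa using this
    exact fun x => congrFun ((hτ.2.range_inj hτ'.2).1 h1) x
  · intro s hs
    rw [Finset.mem_powersetCard] at hs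
    refine ⟨(s.orderEmbOfFin hs.2).toEmbedding, ?_, ?_⟩
    · rw [Finset.mem_filter]
      exact ⟨Finset.mem_univ _, (s.orderEmbOfFin hs.2).strictMono⟩
    · exact Finset.map_orderEmbOfFin_univ s hs.2
  · intro τ _
    have hmem : ∀ a, τ a ∈ Finset.univ.map τ := fun a => Finset.mem_map_of_mem τ (Finset.mem_univ a)
    let e : Fin i ≃ (Finset.univ.map τ : Finset (Fin (2 * n))) :=
      Equiv.ofBijective (fun a => ⟨τ a, hmem a⟩) ⟨fun a b h => τ.injective (congrArg Subtype.val h),
        fun x => by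
          obtain ⟨a, _, ha⟩ := Finset.mem_map.1 x.2
          exact ⟨a, Subtype.ext ha⟩⟩
    rw [← Matrix.det_submatrix_equiv_self e]
    rw [dz]
    congr 1
    ext a b
    simp only [Matrix.of_apply, Matrix.submatrix_apply, Matrix.add_apply, Matrix.smul_apply,
      smul_eq_mul, Matrix.one_apply]
    change (inner ℝ (o (τ a)) (o (τ b)) : ℝ) + z * om (o (τ a)) (o (τ b)) =
      (if τ a = τ b then 1 else 0) + z * om (o (τ a)) (o (τ b))
    rw [orthonormal_iff_ite.1 ho (τ a) (τ b)]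

end Pool.Agent.H35.NI
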