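import Mathlib
import Pool.Agent.H35.NI.Lin

set_option autoImplicit false

/-!
# Rot: averages over `O(2n)`

`O = Matrix.unitaryGroup (Fin (2n)) ℝ` (compact group; instances as for `Un n` in
`H61/UProj/Base.lean`), Haar probability measure; `β` a fixed real orthonormal basis of `ℂⁿ`
indexed by `Fin (2n)`; `rb g a = ∑ b, g b a • β b`.  With
`A w = ∫_g ∑_{τ∈S} |DD (rb g ∘ τ) w| dg` one has `F w = A w` (average of the hypothesis over `g`,
Fubini, `φ ∘ rb g = rb (g_φ g)`, left invariance) and `A (T w) = A w` for every real isometry `T`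
(`T⁻¹ ∘ rb g = rb (g' g)`, left invariance).
-/

open MeasureTheory Pool.Agent.H61.UProj Pool.Agent.H89.CZ

noncomputable section

namespace Pool.Agent.H35.NI

/-- the real orthogonal group -/
private abbrev Rot_On (m : ℕ) : Type := Matrix.unitaryGroup (Fin m) ℝ

private instance Rot_ms (m : ℕ) : MeasurableSpace (Rot_On m) := borel _

private instance Rot_bs (m : ℕ) : BorelSpace (Rot_On m) := ⟨rfl⟩

private instance Rot_cs (m : ℕ) : CompactSpace (Rot_On m) := by
  apply isCompact_iff_compactSpace.1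
  have hbox : IsCompact {A : Matrix (Fin m) (Fin m) ℝ |
      ∀ i j, A i j ∈ Metric.closedBall (0 : ℝ) 1} := by
    have h := isCompact_univ_pi (X := fun _ : Fin m => Fin m → ℝ)
      (s := fun _ => {v : Fin m → ℝ | ∀ j, v j ∈ Metric.closedBall (0 : ℝ) 1})
      (fun _ => by
        have h2 := isCompact_univ_pi (X := fun _ : Fin m => ℝ)
          (s := fun _ => Metric.closedBall (0 : ℝ) 1) (fun _ => isCompact_closedBall _ _)
        convert! h2 using 1
        ext v
        simp)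
    have he : {A : Matrix (Fin m) (Fin m) ℝ | ∀ i j, A i j ∈ Metric.closedBall (0 : ℝ) 1} =
        Set.univ.pi (fun _ : Fin m =>
          {v : Fin m → ℝ | ∀ j, v j ∈ Metric.closedBall (0 : ℝ) 1}) := by
      ext A
      exact ⟨fun hA i _ => hA i, fun hA i => hA i (Set.mem_univ i)⟩
    rw [he]
    exact h
  refine hbox.of_isClosed_subset ?_ ?_
  · have h1 : IsClosed {A : Matrix (Fin m) (Fin m) ℝ | star A * A = 1 ∧ A * star A = 1} := by
      apply IsClosed.and
      · exact isClosed_eq (by fun_prop) continuous_const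
      · exact isClosed_eq (by fun_prop) continuous_const
    convert! h1 using 1
  · intro A hA i j
    rw [mem_closedBall_zero_iff]
    exact entry_norm_bound_of_unitary hA i j

private def Rot_mu (m : ℕ) : Measure (Rot_On m) := Measure.haarMeasure ⊤

private instance Rot_haar (m : ℕ) : (Rot_mu m).IsHaarMeasure := by
  unfold Rot_mu; infer_instance

private instance Rot_prob (m : ℕ) : IsProbabilityMeasure (Rot_mu m) := by
  refine ⟨?_⟩
  have h := Measure.haarMeasure_self (G := Rot_On m) (K₀ := ⊤)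
  simpa [Rot_mu] using h

/-- a real orthonormal basis of `ℂⁿ` -/
private theorem Rot_fr (n : ℕ) : Module.finrank ℝ (Cn n) = 2 * n := by
  rw [finrank_real_of_complex, finrank_euclideanSpace_fin]

private def Rot_be (n : ℕ) : OrthonormalBasis (Fin (2 * n)) ℝ (Cn n) :=
  (stdOrthonormalBasis ℝ (Cn n)).reindex (finCongr (Rot_fr n))

private def Rot_rb {n : ℕ} (g : Rot_On (2 * n)) (a : Fin (2 * n)) : Cn n :=
  ∑ b, (g : Matrix (Fin (2 * n)) (Fin (2 * n)) ℝ) b a • Rot_be n b

private theorem Rot_rb_orth {n : ℕ} (g : Rot_On (2 * n)) : Orthonormal ℝ (Rot_rb g) := by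
  have hg : star (g : Matrix (Fin (2 * n)) (Fin (2 * n)) ℝ) * g = 1 :=
    (Matrix.mem_unitaryGroup_iff'.1 g.2)
  rw [orthonormal_iff_ite]
  intro a b
  have h1 := congrFun (congrFun hg a) b
  rw [Matrix.mul_apply, Matrix.one_apply] at h1
  rw [← h1]
  unfold Rot_rb
  rw [(Rot_be n).orthonormal.inner_sum]
  refine Finset.sum_congr rfl fun c _ => ?_
  simp [Matrix.star_apply]

/-- the matrix of a real isometry -/
private def Rot_mat {n : ℕ} (T : Cn n →ₗᵢ[ℝ] Cn n) : Rot_On (2 * n) :=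
  ⟨Matrix.of fun c b => (inner ℝ (Rot_be n c) (T (Rot_be n b)) : ℝ), by
    rw [Matrix.mem_unitaryGroup_iff']
    ext a b
    rw [Matrix.mul_apply, Matrix.one_apply]
    have h1 := orthonormal_iff_ite.1 (Rot_be n).orthonormal a b
    rw [← h1, ← T.inner_map_map, ← (Rot_be n).sum_inner_mul_inner]
    refine Finset.sum_congr rfl fun c _ => ?_
    rw [Matrix.star_apply, Matrix.of_apply, Matrix.of_apply, star_trivial,
      real_inner_comm (T (Rot_be n a)) (Rot_be n c)]⟩

private theorem Rot_map {n : ℕ} (T : Cn n →ₗᵢ[ℝ] Cn n) (g : Rot_On (2 * n)) (a : Fin (2 * n)) :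
    T (Rot_rb g a) = Rot_rb (Rot_mat T * g) a := by
  unfold Rot_rb
  rw [map_sum]
  have h1 : ∀ b, T ((g : Matrix (Fin (2 * n)) (Fin (2 * n)) ℝ) b a • Rot_be n b) =
      ∑ c, ((Rot_mat T : Matrix (Fin (2 * n)) (Fin (2 * n)) ℝ) c b *
        (g : Matrix (Fin (2 * n)) (Fin (2 * n)) ℝ) b a) • Rot_be n c := by
    intro b
    rw [map_smul]
    conv_lhs => rw [← (Rot_be n).sum_repr' (T (Rot_be n b))]
    rw [Finset.smul_sum]
    refine Finset.sum_congr rfl fun c _ => ?_
    rw [smul_smul, mul_comm]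
    rfl
  simp_rw [h1]
  rw [Finset.sum_comm]
  refine Finset.sum_congr rfl fun c _ => ?_
  rw [← Finset.sum_smul]
  rfl

private theorem Rot_cont {n : ℕ} : Continuous (fun g : Rot_On (2 * n) => Rot_rb g) := by
  refine continuous_pi fun a => ?_
  unfold Rot_rb
  refine continuous_finsetSum _ fun b _ => ?_
  have h1 : Continuous (fun g : Rot_On (2 * n) =>
      (g : Matrix (Fin (2 * n)) (Fin (2 * n)) ℝ) b a) :=
    (continuous_apply_apply b a).comp continuous_subtype_val
  exact h1.smul continuous_const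

/-- the averaged functional -/
private def Rot_f {n i : ℕ} (S : Finset (Fin i ↪ Fin (2 * n))) (w : Fin i → Cn n)
    (g : Rot_On (2 * n)) : ℝ := ∑ τ ∈ S, |DD (fun a => Rot_rb g (τ a)) w|

private theorem Rot_c1 {n : ℕ} (a : Fin (2 * n)) :
    Continuous (fun q : Rot_On (2 * n) × Un n => uni q.2 (Rot_rb q.1 a)) := by
  have h0 : Continuous (fun g : Rot_On (2 * n) => Rot_rb g a) := continuous_pi_iff.1 Rot_cont a
  have h1 : Continuous (fun q : Rot_On (2 * n) × Un n => Rot_rb q.1 a) :=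
    h0.comp continuous_fst
  have h2 : Continuous (fun q : Rot_On (2 * n) × Un n => ((q.2, Rot_rb q.1 a) : Un n × Cn n)) :=
    Continuous.prodMk continuous_snd h1
  have h3 : (fun q : Rot_On (2 * n) × Un n => uni q.2 (Rot_rb q.1 a)) =
      (fun q : Un n × Cn n => uni q.1 q.2) ∘
        (fun q : Rot_On (2 * n) × Un n => ((q.2, Rot_rb q.1 a) : Un n × Cn n)) := by
    funext q
    simp only [Function.comp_apply]
  rw [h3]
  exact Continuous.comp continuous_uni2 h2

private theorem Rot_c2 {n i : ℕ} (τ : Fin i ↪ Fin (2 * n)) (w : Fin i → Cn n) :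
    Continuous (fun q : Rot_On (2 * n) × Un n => |DD (fun a => uni q.2 (Rot_rb q.1 (τ a))) w|) := by
  refine Continuous.abs ?_
  have h1 : Continuous (fun q : Rot_On (2 * n) × Un n =>
      (fun a => uni q.2 (Rot_rb q.1 (τ a)) : Fin i → Cn n)) :=
    continuous_pi fun a => Rot_c1 (τ a)
  have h2 : Continuous (fun q : Rot_On (2 * n) × Un n =>
      ((fun a => uni q.2 (Rot_rb q.1 (τ a)), w) : (Fin i → Cn n) × (Fin i → Cn n))) :=
    Continuous.prodMk h1 continuous_const
  have h3 : (fun q : Rot_On (2 * n) × Un n => DD (fun a => uni q.2 (Rot_rb q.1 (τ a))) w) =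
      (fun p : (Fin i → Cn n) × (Fin i → Cn n) => DD p.1 p.2) ∘
        (fun q : Rot_On (2 * n) × Un n =>
          ((fun a => uni q.2 (Rot_rb q.1 (τ a)), w) : (Fin i → Cn n) × (Fin i → Cn n))) := by
    funext q
    simp only [Function.comp_apply]
  rw [h3]
  exact Continuous.comp continuous_DD h2

private def Rot_k {n i : ℕ} (S : Finset (Fin i ↪ Fin (2 * n))) (w : Fin i → Cn n)
    (g : Rot_On (2 * n)) (φ : Un n) : ℝ :=
  ∑ τ ∈ S, |DD (fun a => uni φ (Rot_rb g (τ a))) w|

private theorem Rot_c3 {n i : ℕ} (S : Finset (Fin i ↪ Fin (2 * n))) (w : Fin i → Cn n) :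
    Continuous (Function.uncurry (Rot_k S w)) := by
  have h : (Function.uncurry (Rot_k S w)) = fun q : Rot_On (2 * n) × Un n =>
      ∑ τ ∈ S, |DD (fun a => uni q.2 (Rot_rb q.1 (τ a))) w| := by
    funext q
    rfl
  rw [h]
  exact continuous_finsetSum _ fun τ _ => Rot_c2 τ w

private theorem Rot_F {n i : ℕ} (S : Finset (Fin i ↪ Fin (2 * n))) (F : (Fin i → Cn n) → ℝ)
    (hF : ∀ w : Fin i → Cn n, Orthonormal ℝ w → ∀ o : Fin (2 * n) → Cn n, Orthonormal ℝ o →
      ∑ τ ∈ S, gg (fun a => o (τ a)) w = F w) (w : Fin i → Cn n) (hw : Orthonormal ℝ w) :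
    F w = ∫ g, Rot_f S w g ∂(Rot_mu (2 * n)) := by
  have h1 : ∀ g, ∫ φ, Rot_k S w g φ ∂(haarU n) = F w := by
    intro g
    rw [← hF w hw (Rot_rb g) (Rot_rb_orth g)]
    unfold Rot_k
    rw [integral_finsetSum _ (fun τ _ => integrable_DD (fun a => Rot_rb g (τ a)) w)]
    rfl
  have h2 : F w = ∫ g, ∫ φ, Rot_k S w g φ ∂(haarU n) ∂(Rot_mu (2 * n)) := by
    simp_rw [h1]
    simp
  rw [h2, integral_integral_swap_of_hasCompactSupport (Rot_c3 S w)
    (HasCompactSupport.of_compactSpace _)]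
  have h3 : ∀ φ, ∫ g, Rot_k S w g φ ∂(Rot_mu (2 * n)) = ∫ g, Rot_f S w g ∂(Rot_mu (2 * n)) := by
    intro φ
    have h4 : ∀ g, Rot_k S w g φ = Rot_f S w (Rot_mat (uni φ) * g) := by
      intro g
      unfold Rot_k Rot_f
      refine Finset.sum_congr rfl fun τ _ => ?_
      simp_rw [Rot_map]
    simp_rw [h4]
    exact integral_mul_left_eq_self (fun g => Rot_f S w g) _
  simp_rw [h3]
  simp

private theorem Rot_inv {n i : ℕ} (S : Finset (Fin i ↪ Fin (2 * n))) (w : Fin i → Cn n)
    (T : Cn n ≃ₗᵢ[ℝ] Cn n) :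
    ∫ g, Rot_f S (fun a => T (w a)) g ∂(Rot_mu (2 * n)) = ∫ g, Rot_f S w g ∂(Rot_mu (2 * n)) := by
  have h4 : ∀ g, Rot_f S (fun a => T (w a)) g =
      Rot_f S w (Rot_mat T.symm.toLinearIsometry * g) := by
    intro g
    unfold Rot_f
    refine Finset.sum_congr rfl fun τ _ => ?_
    congr 1
    unfold DD
    congr 1
    ext a b
    simp only [Matrix.of_apply]
    rw [← Rot_map]
    have h5 := T.symm.inner_map_map (Rot_rb g (τ a)) (T (w b))
    rw [T.symm_apply_apply] at h5
    exact h5.symm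
  simp_rw [h4]
  exact integral_mul_left_eq_self (fun g => Rot_f S w g) _

private theorem Rot_ext {n i : ℕ} (w : Fin i → Cn n) (hw : Orthonormal ℝ w) :
    ∃ (hi : i ≤ 2 * n) (b : OrthonormalBasis (Fin (2 * n)) ℝ (Cn n)),
      ∀ a, b (Fin.castLE hi a) = w a := by
  have hi : i ≤ 2 * n := by
    have h1 := hw.linearIndependent.fintype_card_le_finrank
    rw [Rot_fr, Fintype.card_fin] at h1
    exact h1
  refine ⟨hi, ?_⟩
  set v : Fin (2 * n) → Cn n := fun a => if h : (a : ℕ) < i then w ⟨a, h⟩ else 0 with hv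
  have hcard : Module.finrank ℝ (Cn n) = Fintype.card (Fin (2 * n)) := by
    rw [Rot_fr, Fintype.card_fin]
  have ho : Orthonormal ℝ (({a : Fin (2 * n) | (a : ℕ) < i} : Set (Fin (2 * n))).domRestrict v) := by
    have h2 : (({a : Fin (2 * n) | (a : ℕ) < i} : Set (Fin (2 * n))).domRestrict v) =
        w ∘ (fun a => ⟨(a.1 : ℕ), a.2⟩) := by
      funext a
      have h3 : ((a.1 : Fin (2 * n)) : ℕ) < i := a.2
      rw [Set.domRestrict_apply, hv]
      simp only [Function.comp]
      exact dif_pos h3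
    rw [h2]
    refine hw.comp _ ?_
    intro a b hab
    have h4 := congrArg (fun x : Fin i => (x : ℕ)) hab
    exact Subtype.ext (Fin.ext h4)
  obtain ⟨b, hb⟩ := ho.exists_orthonormalBasis_extension_of_card_eq hcard
  refine ⟨b, fun a => ?_⟩
  rw [hb (Fin.castLE hi a) (by simp)]
  simp [hv]

/-- Suppose that for each orthonormal `w` the sum `∑_{τ∈S} gg (o ∘ τ) w` has the same value `F w`
for all orthonormal bases `o`.  Then `F` is constant on orthonormal frames. -/
theorem rot_const {n i : ℕ} (S : Finset (Fin i ↪ Fin (2 * n))) (F : (Fin i → Cn n) → ℝ)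
    (hF : ∀ w : Fin i → Cn n, Orthonormal ℝ w → ∀ o : Fin (2 * n) → Cn n, Orthonormal ℝ o →
      ∑ τ ∈ S, gg (fun a => o (τ a)) w = F w) :
    ∀ w w' : Fin i → Cn n, Orthonormal ℝ w → Orthonormal ℝ w' → F w = F w' := by
  intro w w' hw hw'
  obtain ⟨hi, b, hb⟩ := Rot_ext w hw
  obtain ⟨_, b', hb'⟩ := Rot_ext w' hw'
  have hT : w' = fun a => (b.equiv b' (Equiv.refl _)) (w a) := by
    funext a
    rw [← hb a, OrthonormalBasis.equiv_apply_basis]
    exact (hb' a).symm
  rw [Rot_F S F hF w hw, Rot_F S F hF w' hw', hT, Rot_inv]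

end Pool.Agent.H35.NI
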