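import Mathlib
import Pool.Agent.H35.NI.Aff
import Pool.Agent.H35.NI.Min
import Pool.Agent.H35.NI.Geg
import Pool.Agent.H35.NI.Rot

set_option autoImplicit false

/-!
# Cst: a frame with constant kernel

`S` from `sum_minors`, `c` from `exists_angles`.  For orthonormal `w` and every orthonormal basis
`o`: `∑_{τ∈S} gg (o∘τ) w = ∑_k α_k(w) ∑_τ dz (o∘τ) k = ∑_k α_k(w) AA n i (1+k²)
= C(2n,i) ∑_k α_k(w) dz (ef c) k = C(2n,i) gg (ef c) w` (`gg_aff`, `dz_ef`, `orthonormal_ef`).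
`rot_const`: this is constant in `w`.  Positive: extend `w` to an orthonormal basis `o`
(`w = o ∘ castLE`); `gg w w > 0` (`gg_self_pos`), the other terms are `≥ 0`.  General `w`: `frame`.
-/

open MeasureTheory Pool.Agent.H61.UProj Pool.Agent.H89.CZ

noncomputable section

namespace Pool.Agent.H35.NI

variable {n i : ℕ}

/-- There is an orthonormal basis of `ℂⁿ` (over `ℝ`), indexed by `Fin (2 * n)`. -/
theorem exists_orthonormal_two_mul (n : ℕ) : ∃ o : Fin (2 * n) → Cn n, Orthonormal ℝ o := by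
  have h : Module.finrank ℝ (Cn n) = 2 * n := by
    have h1 := Module.finrank_mul_finrank ℝ ℂ (Cn n)
    rw [Complex.finrank_real_complex, finrank_euclideanSpace_fin] at h1
    exact h1.symm
  have : FiniteDimensional ℝ (Cn n) := FiniteDimensional.complexToReal (Cn n)
  exact ⟨fun a => stdOrthonormalBasis ℝ (Cn n) (Fin.cast h.symm a),
    (stdOrthonormalBasis ℝ (Cn n)).orthonormal.comp _ (Fin.cast_injective _)⟩

theorem exists_const (hi : 0 < i) (hin : i ≤ n) : ∃ (c : ℕ → ℝ) (C0 : ℝ),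
    (∀ j, 0 ≤ c j ∧ c j ≤ 1) ∧ 0 < C0 ∧ ∀ w : Fin i → Cn n, gg (ef hin c) w = C0 * √(GG w) := by
  obtain ⟨S, hS0, hS⟩ := sum_minors hin
  obtain ⟨c, hc, hcA⟩ := exists_angles hin
  have hef : Orthonormal ℝ (ef hin c) := orthonormal_ef hin hc
  have hK : (0 : ℝ) < ((2 * n).choose i : ℝ) := by
    exact_mod_cast Nat.choose_pos (by omega)
  -- the sum over the coordinate frames of an orthonormal basis
  have key : ∀ (w : Fin i → Cn n) (o : Fin (2 * n) → Cn n), Orthonormal ℝ o →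
      ∑ τ ∈ S, gg (fun a => o (τ a)) w = ((2 * n).choose i : ℝ) * gg (ef hin c) w := by
    intro w o ho
    obtain ⟨α, hα⟩ := gg_aff hin w
    have h1 : ∑ τ ∈ S, gg (fun a => o (τ a)) w =
        ∑ τ ∈ S, ∑ k ∈ Finset.range (i / 2 + 1), α k * dz (fun a => o (τ a)) (k : ℝ) :=
      Finset.sum_congr rfl fun τ _ => hα (fun a => o (τ a)) (ho.comp τ τ.injective)
    have h2 : ∑ τ ∈ S, ∑ k ∈ Finset.range (i / 2 + 1), α k * dz (fun a => o (τ a)) (k : ℝ) =
        ∑ k ∈ Finset.range (i / 2 + 1), ∑ τ ∈ S, α k * dz (fun a => o (τ a)) (k : ℝ) :=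
      Finset.sum_comm
    have h3 : ∀ k ∈ Finset.range (i / 2 + 1), ∑ τ ∈ S, α k * dz (fun a => o (τ a)) (k : ℝ) =
        ((2 * n).choose i : ℝ) * (α k * dz (ef hin c) (k : ℝ)) := by
      intro k _
      have h4 := hS o ho (k : ℝ)
      have h5 := hcA (k : ℝ)
      have h6 := dz_ef hin hc (k : ℝ)
      calc ∑ τ ∈ S, α k * dz (fun a => o (τ a)) (k : ℝ)
          = α k * ∑ τ ∈ S, dz (fun a => o (τ a)) (k : ℝ) := (Finset.mul_sum _ _ _).symm
        _ = α k * (((2 * n).choose i : ℝ) *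
              ∏ j ∈ Finset.range (i / 2), (1 + (k : ℝ) ^ 2 * c j ^ 2)) := by rw [h4, h5]
        _ = ((2 * n).choose i : ℝ) * (α k * dz (ef hin c) (k : ℝ)) := by rw [h6]; ring
    calc ∑ τ ∈ S, gg (fun a => o (τ a)) w
        = ∑ k ∈ Finset.range (i / 2 + 1), ((2 * n).choose i : ℝ) *
            (α k * dz (ef hin c) (k : ℝ)) := h1.trans (h2.trans (Finset.sum_congr rfl h3))
      _ = ((2 * n).choose i : ℝ) *
            ∑ k ∈ Finset.range (i / 2 + 1), α k * dz (ef hin c) (k : ℝ) :=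
          (Finset.mul_sum _ _ _).symm
      _ = ((2 * n).choose i : ℝ) * gg (ef hin c) w := by rw [hα _ hef]
  have hconst : ∀ w w' : Fin i → Cn n, Orthonormal ℝ w → Orthonormal ℝ w' →
      gg (ef hin c) w = gg (ef hin c) w' := by
    intro w w' hw hw'
    have h := rot_const S (fun w => ((2 * n).choose i : ℝ) * gg (ef hin c) w)
      (fun w _ o ho => key w o ho) w w' hw hw'
    exact mul_left_cancel₀ hK.ne' h
  obtain ⟨o, ho⟩ := exists_orthonormal_two_mul n
  set w₀ : Fin i → Cn n := fun a => o ((Fin.castLEEmb (by omega) : Fin i ↪ Fin (2 * n)) a) with hw₀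
  have hw₀' : Orthonormal ℝ w₀ :=
    ho.comp _ (Fin.castLEEmb (by omega) : Fin i ↪ Fin (2 * n)).injective
  have hpos : 0 < gg (ef hin c) w₀ := by
    have h1 : gg w₀ w₀ ≤ ∑ τ ∈ S, gg (fun a => o (τ a)) w₀ :=
      Finset.single_le_sum (f := fun τ : Fin i ↪ Fin (2 * n) => gg (fun a => o (τ a)) w₀)
        (fun τ _ => gg_nonneg _ _) hS0
    rw [key w₀ o ho] at h1
    exact pos_of_mul_pos_right ((gg_self_pos hw₀').trans_le h1) hK.le
  refine ⟨c, gg (ef hin c) w₀, hc, hpos, fun w => ?_⟩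
  rcases frame hi w with ⟨h1, h2, -⟩ | ⟨f, t, hf, ht, h1, h2, -⟩
  · rw [h1, Real.sqrt_zero, mul_zero, gg]
    simp [h2]
  · rw [h1, Real.sqrt_sq ht.le, ← hconst f w₀ hf hw₀']
    unfold gg
    simp_rw [h2, abs_mul, abs_of_pos ht]
    rw [integral_const_mul, mul_comm]

end Pool.Agent.H35.NI
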