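import Mathlib
import Pool.Agent.H35.NI.Str
import Pool.Agent.H35.NI.Cst
import Pool.Agent.H35.NI.Dua
import Pool.Agent.H35.NI.NF

set_option autoImplicit false

/-!
# Ext: extension of `gg_str`, `exists_const` to all `0 < i < 2n`

For `i ≤ n` this is `gg_str`, `exists_const` (put `Γ = 0` outside the range, `i / 2 ≤ n`).  For
`i > n` let `j = 2n - i`, `0 < j < n`.  For orthonormal `e`, `w` with complements `e'`, `w'`:
`gg e w = gg e' w'`, `dz e' k = (1 + k²)^(n-j) ⋯`: from `Cpl.dz_eq`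
`dz e' k = dz e k (1+k²)^j/(1+k²)^n`; so `Γ k l` is `Γ' k l` (for `j`) times the constants
`(1+k²)^j/(1+k²)^n (1+l²)^j/(1+l²)^n`.  General `w`: `frame`.
-/

open MeasureTheory Pool.Agent.H61.UProj Pool.Agent.H89.CZ

noncomputable section

namespace Pool.Agent.H35.NI

variable {n i : ℕ}

/-- Restriction of a double sum to a smaller range by vanishing coefficients. -/
private lemma ext_sum {p : ℕ} (hp : p ≤ n + 1) (Γ : ℕ → ℕ → ℝ) (a b : ℕ → ℝ) :
    ∑ l ∈ Finset.range (n + 1), (∑ k ∈ Finset.range (n + 1),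
      (if k < p ∧ l < p then Γ k l else 0) * a k) * b l =
    ∑ l ∈ Finset.range p, (∑ k ∈ Finset.range p, Γ k l * a k) * b l := by
  have hsub : Finset.range p ⊆ Finset.range (n + 1) := Finset.range_subset_range.2 hp
  symm
  rw [← Finset.sum_subset hsub]
  · refine Finset.sum_congr rfl fun l hl => ?_
    congr 1
    rw [← Finset.sum_subset hsub]
    · refine Finset.sum_congr rfl fun k hk => ?_
      rw [if_pos ⟨Finset.mem_range.1 hk, Finset.mem_range.1 hl⟩]
    · intro k _ hk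
      rw [if_neg (fun h => hk (Finset.mem_range.2 h.1)), zero_mul]
  · intro l _ hl
    have : ∑ k ∈ Finset.range (n + 1), (if k < p ∧ l < p then Γ k l else 0) * a k = 0 :=
      Finset.sum_eq_zero fun k _ => by
        rw [if_neg (fun h => hl (Finset.mem_range.2 h.2)), zero_mul]
    rw [this, zero_mul]

/-- `gg e w` for a degenerate `w`. -/
private lemma gg_deg (e : Fin i → Cn n) {w : Fin i → Cn n} (h : ∀ x, DD x w = 0) : gg e w = 0 := by
  unfold gg
  simp [h]

/-- `gg e w` for `w = t f`. -/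
private lemma gg_scale (e : Fin i → Cn n) {w f : Fin i → Cn n} {t : ℝ} (ht : 0 < t)
    (h : ∀ x, DD x w = t * DD x f) : gg e w = t * gg e f := by
  unfold gg
  rw [← integral_const_mul]
  refine integral_congr_ae (Filter.Eventually.of_forall fun φ => ?_)
  simp only [h, abs_mul, abs_of_pos ht]

/-- The factor `(1 + k²)^j / (1 + k²)^n`. -/
private def fac (n j : ℕ) (k : ℝ) : ℝ := (1 + k ^ 2) ^ j / (1 + k ^ 2) ^ n

private lemma dz_cpl {j : ℕ} (hij : i + j = 2 * n) {e : Fin i → Cn n} {e' : Fin j → Cn n}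
    (h : Cpl e e') (k : ℝ) : dz e' k = fac n j k * dz e k := by
  have h1 := Cpl.dz_eq hij h k
  have h2 : (0 : ℝ) < (1 + k ^ 2) ^ n := by positivity
  unfold fac
  rw [div_mul_eq_mul_div, h1, mul_div_assoc, mul_comm, div_mul_cancel₀]
  exact h2.ne'

theorem gg_strA (hi : 0 < i) (hin : i < 2 * n) : ∃ Γ : ℕ → ℕ → ℝ, ∀ e : Fin i → Cn n,
    Orthonormal ℝ e → ∀ w : Fin i → Cn n,
      gg e w * √(GG w) = ∑ l ∈ Finset.range (n + 1),
        (∑ k ∈ Finset.range (n + 1), Γ k l * dz e k) * dz w l := by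
  rcases le_or_gt i n with hn | hn
  · obtain ⟨Γ, hΓ⟩ := gg_str hi hn
    refine ⟨fun k l => if k < i / 2 + 1 ∧ l < i / 2 + 1 then Γ k l else 0, fun e he w => ?_⟩
    rw [hΓ e he w, ext_sum (by omega) Γ (fun k => dz e k) (fun l => dz w l)]
  · obtain ⟨j, hj⟩ : ∃ j, i + j = 2 * n := ⟨2 * n - i, by omega⟩
    obtain ⟨Γ, hΓ⟩ := gg_str (n := n) (i := j) (by omega) (by omega)
    refine ⟨fun k l => if k < j / 2 + 1 ∧ l < j / 2 + 1 then
      Γ k l * fac n j k * fac n j l else 0, fun e he w => ?_⟩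
    rw [ext_sum (by omega) (fun k l => Γ k l * fac n j k * fac n j l) (fun k => dz e k)
      (fun l => dz w l)]
    rcases frame hi w with ⟨h0, h1, h2⟩ | ⟨f, t, hf, ht, h0, h1, h2⟩
    · simp [h0, h2]
    · obtain ⟨e', he'⟩ := exists_cpl hj he
      obtain ⟨f', hf'⟩ := exists_cpl hj hf
      have h3 := hΓ e' he'.2.1 f'
      rw [GG_orth hf'.2.1, Real.sqrt_one, mul_one] at h3
      rw [gg_scale e ht h1, h0, Real.sqrt_sq ht.le, Cpl.gg_eq hj he' hf', h3, mul_comm t,
        mul_assoc, ← pow_two, Finset.sum_mul]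
      refine Finset.sum_congr rfl fun l _ => ?_
      rw [dz_cpl hj hf', h2]
      have h4 : ∑ k ∈ Finset.range (j / 2 + 1), Γ k l * fac n j k * fac n j l * dz e k =
          fac n j l * ∑ k ∈ Finset.range (j / 2 + 1), Γ k l * dz e' k := by
        rw [Finset.mul_sum]
        refine Finset.sum_congr rfl fun k _ => ?_
        rw [dz_cpl hj he']
        ring
      rw [h4]
      ring

theorem exists_constA (hi : 0 < i) (hin : i < 2 * n) : ∃ (e0 : Fin i → Cn n) (C0 : ℝ),
    Orthonormal ℝ e0 ∧ 0 < C0 ∧ ∀ w : Fin i → Cn n, gg e0 w = C0 * √(GG w) := by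
  rcases le_or_gt i n with hn | hn
  · obtain ⟨c, C0, hc, hC, h⟩ := exists_const hi hn
    exact ⟨ef hn c, C0, orthonormal_ef hn hc, hC, h⟩
  · obtain ⟨j, hj⟩ : ∃ j, i + j = 2 * n := ⟨2 * n - i, by omega⟩
    obtain ⟨c, C0, hc, hC, h⟩ := exists_const (n := n) (i := j) (by omega) (by omega)
    obtain ⟨e0, he0⟩ := exists_cpl (i := j) (j := i) (by omega)
      (orthonormal_ef (n := n) (i := j) (by omega) hc)
    refine ⟨e0, C0, he0.2.1, hC, fun w => ?_⟩
    rcases frame hi w with ⟨h0, h1, h2⟩ | ⟨f, t, hf, ht, h0, h1, h2⟩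
    · rw [gg_deg e0 h1, h0, Real.sqrt_zero, mul_zero]
    · obtain ⟨f', hf'⟩ := exists_cpl hj hf
      rw [gg_scale e0 ht h1, h0, Real.sqrt_sq ht.le, Cpl.gg_eq hj he0.symm hf', h,
        GG_orth hf'.2.1, Real.sqrt_one, mul_one, mul_comm]

end Pool.Agent.H35.NI
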