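import Mathlib
import Pool.Agent.H35.T3.CndB

set_option autoImplicit false

/-!
# Per: perturbation of the kernel `√(1 - ⟨u,v⟩²)`

With `t = ⟨u,v⟩`, `τ = ⟨Au,v⟩`, `N = 2m+2`, `dd m` the coefficients of `1/√(1-x)`:
* `(N-1) τ² t^(N-2) ≤ ⟨Au,Av⟩ t^(N-1) ≤ C² t^N` (Gram matrix of the derivation);
* `⟨Au,Av⟩ t^(N-1) - (N-1) τ² t^(N-2) ≤ h ((d-1) t^N - (N-1) (t^(N-2) - t^N))` (Cauchy-Schwarz over
  the basis of the antisymmetric matrices);
as quadratic forms; the second one telescopes.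
-/

open Pool.Agent.H89.CZ Pool.Agent.H35.T3

noncomputable section

namespace Pool.Agent.H35.NI

theorem Per_lag {κ V : Type*} [Fintype κ] [AddCommGroup V] [Module ℝ V]
    (B : V →ₗ[ℝ] V →ₗ[ℝ] ℝ) (hs : ∀ x y, B x y = B y x) (hp : ∀ x, 0 ≤ B x x) (c : κ → ℝ)
    (d : κ → V) :
    B (∑ k, c k • d k) (∑ k, c k • d k) ≤ (∑ k, c k ^ 2) * ∑ k, B (d k) (d k) := by
  have h1 : 0 ≤ ∑ k, ∑ l, B (c k • d l - c l • d k) (c k • d l - c l • d k) :=
    Finset.sum_nonneg fun k _ => Finset.sum_nonneg fun l _ => hp _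
  have e1 : ∀ k l, B (c k • d l - c l • d k) (c k • d l - c l • d k) =
      c k ^ 2 * B (d l) (d l) + B (d k) (d k) * c l ^ 2 - 2 * (c k * c l * B (d k) (d l)) := by
    intro k l
    simp only [map_sub, map_smul, LinearMap.sub_apply, LinearMap.smul_apply, smul_eq_mul]
    rw [hs (d l) (d k)]
    ring
  have e2 : B (∑ k, c k • d k) (∑ k, c k • d k) = ∑ k, ∑ l, c k * c l * B (d k) (d l) := by
    simp only [map_sum, map_smul, LinearMap.sum_apply, LinearMap.smul_apply, smul_eq_mul]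
    refine Finset.sum_congr rfl fun k _ => ?_
    rw [Finset.mul_sum]
    refine Finset.sum_congr rfl fun l _ => ?_
    rw [hs (d l) (d k)]
    ring
  have e3 : ∑ k, ∑ l, B (c k • d l - c l • d k) (c k • d l - c l • d k) =
      (∑ k, c k ^ 2) * (∑ k, B (d k) (d k)) + (∑ k, B (d k) (d k)) * (∑ k, c k ^ 2) -
        2 * ∑ k, ∑ l, c k * c l * B (d k) (d l) := by
    rw [Finset.sum_mul_sum, Finset.sum_mul_sum, Finset.mul_sum, ← Finset.sum_add_distrib,
      ← Finset.sum_sub_distrib]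
    refine Finset.sum_congr rfl fun k _ => ?_
    rw [Finset.mul_sum, ← Finset.sum_add_distrib, ← Finset.sum_sub_distrib]
    refine Finset.sum_congr rfl fun l _ => ?_
    rw [e1]
  rw [e3, ← e2] at h1
  linarith

section psd

variable {E : Type*} [NormedAddCommGroup E] [InnerProductSpace ℝ E] [FiniteDimensional ℝ E]
variable {ι : Type*} [Fintype ι]

theorem Per_mulpow {M : ι → ι → ℝ} (hM : ∀ c : ι → ℝ, 0 ≤ ∑ i, ∑ k, c i * c k * M i k)
    (v : ι → E) (l : ℕ) : ∀ c : ι → ℝ,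
    0 ≤ ∑ i, ∑ k, c i * c k * (M i k * (inner ℝ (v i) (v k) : ℝ) ^ l) := by
  induction l with
  | zero =>
    intro c
    simpa using hM c
  | succ l ih =>
    intro c
    set b := stdOrthonormalBasis ℝ E with hb
    have h1 : ∀ i k, (inner ℝ (v i) (v k) : ℝ) =
        ∑ e, (inner ℝ (b e) (v i) : ℝ) * inner ℝ (b e) (v k) := by
      intro i k
      rw [← b.sum_inner_mul_inner (v i) (v k)]
      refine Finset.sum_congr rfl fun e _ => ?_
      rw [real_inner_comm]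
    have h2 : ∑ i, ∑ k, c i * c k * (M i k * (inner ℝ (v i) (v k) : ℝ) ^ (l + 1)) =
        ∑ e, ∑ i, ∑ k, (c i * inner ℝ (b e) (v i)) * (c k * inner ℝ (b e) (v k)) *
          (M i k * (inner ℝ (v i) (v k) : ℝ) ^ l) := by
      rw [CndA_swap]
      refine Finset.sum_congr rfl fun i _ => Finset.sum_congr rfl fun k _ => ?_
      have h3 : ∀ e, (c i * inner ℝ (b e) (v i)) * (c k * inner ℝ (b e) (v k)) *
          (M i k * (inner ℝ (v i) (v k) : ℝ) ^ l) =
          (c i * c k * (M i k * (inner ℝ (v i) (v k) : ℝ) ^ l)) *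
            ((inner ℝ (b e) (v i) : ℝ) * inner ℝ (b e) (v k)) := fun e => by ring
      simp only [h3]
      rw [← Finset.mul_sum, ← h1, pow_succ]
      ring
    rw [h2]
    exact Finset.sum_nonneg fun e _ => ih _

/-- The bilinear form of the derivations. -/
def PerB (lam : ι → ℝ) (u : ι → E) (m : ℕ) : (ι → E) →ₗ[ℝ] (ι → E) →ₗ[ℝ] ℝ :=
  LinearMap.mk₂ ℝ (fun d d' => ∑ i, ∑ k, lam i * lam k *
    ((inner ℝ (d i) (d' k) : ℝ) * (inner ℝ (u i) (u k) : ℝ) ^ (2 * m + 1) +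
      (2 * m + 1) * ((inner ℝ (d i) (u k) : ℝ) * inner ℝ (u i) (d' k)) *
        (inner ℝ (u i) (u k) : ℝ) ^ (2 * m)))
    (by
      intro x y z
      rw [← Finset.sum_add_distrib]
      refine Finset.sum_congr rfl fun i _ => ?_
      rw [← Finset.sum_add_distrib]
      refine Finset.sum_congr rfl fun k _ => ?_
      simp only [Pi.add_apply, inner_add_left]
      ring)
    (by
      intro c x y
      rw [smul_eq_mul, Finset.mul_sum]
      refine Finset.sum_congr rfl fun i _ => ?_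
      rw [Finset.mul_sum]
      refine Finset.sum_congr rfl fun k _ => ?_
      simp only [Pi.smul_apply, real_inner_smul_left]
      ring)
    (by
      intro x y z
      rw [← Finset.sum_add_distrib]
      refine Finset.sum_congr rfl fun i _ => ?_
      rw [← Finset.sum_add_distrib]
      refine Finset.sum_congr rfl fun k _ => ?_
      simp only [Pi.add_apply, inner_add_right]
      ring)
    (by
      intro c x y
      rw [smul_eq_mul, Finset.mul_sum]
      refine Finset.sum_congr rfl fun i _ => ?_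
      rw [Finset.mul_sum]
      refine Finset.sum_congr rfl fun k _ => ?_
      simp only [Pi.smul_apply, real_inner_smul_right]
      ring)

omit [FiniteDimensional ℝ E] in
theorem PerB_apply (lam : ι → ℝ) (u : ι → E) (m : ℕ) (d d' : ι → E) :
    PerB lam u m d d' = ∑ i, ∑ k, lam i * lam k *
    ((inner ℝ (d i) (d' k) : ℝ) * (inner ℝ (u i) (u k) : ℝ) ^ (2 * m + 1) +
      (2 * m + 1) * ((inner ℝ (d i) (u k) : ℝ) * inner ℝ (u i) (d' k)) *
        (inner ℝ (u i) (u k) : ℝ) ^ (2 * m)) := rfl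

omit [FiniteDimensional ℝ E] in
theorem PerB_symm (lam : ι → ℝ) (u : ι → E) (m : ℕ) (d d' : ι → E) :
    PerB lam u m d d' = PerB lam u m d' d := by
  rw [PerB_apply, PerB_apply, Finset.sum_comm]
  refine Finset.sum_congr rfl fun i _ => Finset.sum_congr rfl fun k _ => ?_
  rw [real_inner_comm (d k) (d' i), real_inner_comm (u k) (u i), real_inner_comm (d k) (u i),
    real_inner_comm (u k) (d' i)]
  ring

theorem PerB_nonneg (lam : ι → ℝ) (u : ι → E) (m : ℕ) (d : ι → E) :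
    0 ≤ PerB lam u m d d := by
  have h2 := psd_der u d (2 * m) (fun _ => 0) lam
  have h3 : ∑ i, ∑ k, ((0 : ℝ) * 0 * (inner ℝ (u i) (u k) : ℝ) ^ (2 * m + 2) +
      (((2 * m : ℕ) : ℝ) + 2) * (0 * lam k * inner ℝ (u i) (d k) +
        lam i * 0 * inner ℝ (d i) (u k)) * (inner ℝ (u i) (u k) : ℝ) ^ (2 * m + 1) +
      lam i * lam k * ((((2 * m : ℕ) : ℝ) + 2) * inner ℝ (d i) (d k) *
        (inner ℝ (u i) (u k) : ℝ) ^ (2 * m + 1) +
        (((2 * m : ℕ) : ℝ) + 2) * (((2 * m : ℕ) : ℝ) + 1) *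
          (inner ℝ (d i) (u k) * inner ℝ (u i) (d k)) *
          (inner ℝ (u i) (u k) : ℝ) ^ (2 * m))) =
      (2 * m + 2) * PerB lam u m d d := by
    rw [PerB_apply, Finset.mul_sum]
    refine Finset.sum_congr rfl fun i _ => ?_
    rw [Finset.mul_sum]
    refine Finset.sum_congr rfl fun k _ => ?_
    push_cast
    ring
  rw [h3] at h2
  have h5 : (0 : ℝ) < 2 * m + 2 := by positivity
  exact nonneg_of_mul_nonneg_right h2 h5

end psd

section main

variable {E : Type*} [NormedAddCommGroup E] [InnerProductSpace ℝ E] [FiniteDimensional ℝ E]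
variable {ι : Type*} [Fintype ι]

private theorem Per_exp (A : E →ₗ[ℝ] E) (hA : ∀ x y, (inner ℝ (A x) y : ℝ) = -inner ℝ x (A y))
    (x : E) : A x = ∑ p : Fin (Module.finrank ℝ E) × Fin (Module.finrank ℝ E),
      ((inner ℝ (stdOrthonormalBasis ℝ E p.1) (A (stdOrthonormalBasis ℝ E p.2)) : ℝ) / 2) •
        ((inner ℝ (stdOrthonormalBasis ℝ E p.2) x : ℝ) • stdOrthonormalBasis ℝ E p.1 -
          (inner ℝ (stdOrthonormalBasis ℝ E p.1) x : ℝ) • stdOrthonormalBasis ℝ E p.2) := by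
  set b := stdOrthonormalBasis ℝ E with hb
  rw [Fintype.sum_prod_type]
  simp only [smul_sub, smul_smul, Finset.sum_sub_distrib]
  have e1 : ∑ p, ∑ q, ((inner ℝ (b p) (A (b q)) : ℝ) / 2 * inner ℝ (b q) x) • b p =
      (1 / 2 : ℝ) • A x := by
    have h1 : ∀ p, ∑ q, ((inner ℝ (b p) (A (b q)) : ℝ) / 2 * inner ℝ (b q) x) • b p =
        (1 / 2 : ℝ) • ((inner ℝ (b p) (A x) : ℝ) • b p) := by
      intro p
      rw [← Finset.sum_smul, smul_smul]
      congr 1
      conv_rhs => rw [← b.sum_repr' x, map_sum, inner_sum, Finset.mul_sum]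
      refine Finset.sum_congr rfl fun q _ => ?_
      rw [map_smul, real_inner_smul_right]
      ring
    simp only [h1]
    rw [← Finset.smul_sum, b.sum_repr']
  have e2 : ∑ p, ∑ q, ((inner ℝ (b p) (A (b q)) : ℝ) / 2 * inner ℝ (b p) x) • b q =
      -((1 / 2 : ℝ) • A x) := by
    rw [Finset.sum_comm]
    have h1 : ∀ q, ∑ p, ((inner ℝ (b p) (A (b q)) : ℝ) / 2 * inner ℝ (b p) x) • b q =
        -((1 / 2 : ℝ) • ((inner ℝ (b q) (A x) : ℝ) • b q)) := by
      intro q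
      rw [← Finset.sum_smul, smul_smul, ← neg_smul]
      congr 1
      have h2 : (inner ℝ (b q) (A x) : ℝ) = -inner ℝ (A (b q)) x := by
        rw [hA, neg_neg]
      rw [h2]
      have h3 := b.sum_inner_mul_inner (A (b q)) x
      rw [← h3]
      have h4 : ∀ p, (inner ℝ (b p) (A (b q)) : ℝ) = inner ℝ (A (b q)) (b p) :=
        fun p => real_inner_comm _ _
      simp only [h4]
      rw [mul_neg, neg_neg, Finset.mul_sum]
      refine Finset.sum_congr rfl fun p _ => ?_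
      ring
    simp only [h1]
    rw [Finset.sum_neg_distrib, ← Finset.smul_sum, b.sum_repr']
  rw [e1, e2]
  module

private theorem Per_sums (lam : ι → ℝ) (u : ι → E) (hu : ∀ j, ‖u j‖ = 1) (m : ℕ) :
    ∑ p : Fin (Module.finrank ℝ E) × Fin (Module.finrank ℝ E),
      PerB lam u m (fun i => (inner ℝ (stdOrthonormalBasis ℝ E p.2) (u i) : ℝ) •
        stdOrthonormalBasis ℝ E p.1 - (inner ℝ (stdOrthonormalBasis ℝ E p.1) (u i) : ℝ) •
        stdOrthonormalBasis ℝ E p.2) (fun i => (inner ℝ (stdOrthonormalBasis ℝ E p.2) (u i) : ℝ) •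
        stdOrthonormalBasis ℝ E p.1 - (inner ℝ (stdOrthonormalBasis ℝ E p.1) (u i) : ℝ) •
        stdOrthonormalBasis ℝ E p.2) =
    2 * ((Module.finrank ℝ E : ℝ) - 1) *
      (∑ i, ∑ k, lam i * lam k * (inner ℝ (u i) (u k) : ℝ) ^ (2 * m + 2)) -
    2 * (2 * m + 1) * ((∑ i, ∑ k, lam i * lam k * (inner ℝ (u i) (u k) : ℝ) ^ (2 * m)) -
      (∑ i, ∑ k, lam i * lam k * (inner ℝ (u i) (u k) : ℝ) ^ (2 * m + 2))) := by
  set b := stdOrthonormalBasis ℝ E with hb
  have hbb := orthonormal_iff_ite.1 b.orthonormal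
  set d : ℝ := (Module.finrank ℝ E : ℝ) with hd
  have hU : ∀ x y : E, ∑ p, (inner ℝ (b p) x : ℝ) * inner ℝ (b p) y = inner ℝ x y := by
    intro x y
    rw [← b.sum_inner_mul_inner x y]
    refine Finset.sum_congr rfl fun e _ => ?_
    rw [real_inner_comm]
  have hS : ∀ x y : E, ‖x‖ = 1 → ‖y‖ = 1 → ∀ (g : ℝ),
      ∑ p : Fin (Module.finrank ℝ E) × Fin (Module.finrank ℝ E), g *
      ((inner ℝ ((inner ℝ (b p.2) x : ℝ) • b p.1 - (inner ℝ (b p.1) x : ℝ) • b p.2)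
        ((inner ℝ (b p.2) y : ℝ) • b p.1 - (inner ℝ (b p.1) y : ℝ) • b p.2) : ℝ) *
        (inner ℝ x y : ℝ) ^ (2 * m + 1) +
      (2 * m + 1) * ((inner ℝ ((inner ℝ (b p.2) x : ℝ) • b p.1 -
        (inner ℝ (b p.1) x : ℝ) • b p.2) y : ℝ) *
        inner ℝ x ((inner ℝ (b p.2) y : ℝ) • b p.1 - (inner ℝ (b p.1) y : ℝ) • b p.2)) *
        (inner ℝ x y : ℝ) ^ (2 * m)) =
      g * (2 * (d - 1) * (inner ℝ x y : ℝ) ^ (2 * m + 2) -
        2 * (2 * m + 1) * ((inner ℝ x y : ℝ) ^ (2 * m) - (inner ℝ x y : ℝ) ^ (2 * m + 2))) := by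
    intro x y hx hy g
    have hxx : ∑ p, (inner ℝ (b p) x : ℝ) * inner ℝ (b p) x = 1 := by
      rw [hU, real_inner_self_eq_norm_sq, hx, one_pow]
    have hyy : ∑ p, (inner ℝ (b p) y : ℝ) * inner ℝ (b p) y = 1 := by
      rw [hU, real_inner_self_eq_norm_sq, hy, one_pow]
    have hxy := hU x y
    set t : ℝ := (inner ℝ x y : ℝ) with ht
    have s1 : ∀ p q, (inner ℝ ((inner ℝ (b q) x : ℝ) • b p - (inner ℝ (b p) x : ℝ) • b q)
        ((inner ℝ (b q) y : ℝ) • b p - (inner ℝ (b p) y : ℝ) • b q) : ℝ) =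
        (inner ℝ (b q) x : ℝ) * inner ℝ (b q) y + (inner ℝ (b p) x : ℝ) * inner ℝ (b p) y -
        (if p = q then ((inner ℝ (b q) x : ℝ) * inner ℝ (b p) y +
          (inner ℝ (b p) x : ℝ) * inner ℝ (b q) y) else 0) := by
      intro p q
      simp only [inner_sub_left, inner_sub_right, real_inner_smul_left, real_inner_smul_right,
        hbb]
      by_cases hpq : p = q
      · subst hpq
        simp
      · have hqp : ¬ q = p := fun h => hpq h.symm
        simp [hpq, hqp]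
        ring
    have s2 : ∀ p q, (inner ℝ ((inner ℝ (b q) x : ℝ) • b p - (inner ℝ (b p) x : ℝ) • b q) y : ℝ) *
        inner ℝ x ((inner ℝ (b q) y : ℝ) • b p - (inner ℝ (b p) y : ℝ) • b q) =
        ((inner ℝ (b p) x : ℝ) * inner ℝ (b p) y) * ((inner ℝ (b q) x : ℝ) * inner ℝ (b q) y) -
        ((inner ℝ (b p) y : ℝ) * inner ℝ (b p) y) * ((inner ℝ (b q) x : ℝ) * inner ℝ (b q) x) -
        ((inner ℝ (b p) x : ℝ) * inner ℝ (b p) x) * ((inner ℝ (b q) y : ℝ) * inner ℝ (b q) y) +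
        ((inner ℝ (b p) x : ℝ) * inner ℝ (b p) y) * ((inner ℝ (b q) x : ℝ) * inner ℝ (b q) y) := by
      intro p q
      simp only [inner_sub_left, inner_sub_right, real_inner_smul_left, real_inner_smul_right]
      rw [real_inner_comm (b p) x, real_inner_comm (b q) x]
      ring
    have t1 : ∑ p : Fin (Module.finrank ℝ E) × Fin (Module.finrank ℝ E),
        (inner ℝ ((inner ℝ (b p.2) x : ℝ) • b p.1 - (inner ℝ (b p.1) x : ℝ) • b p.2)
        ((inner ℝ (b p.2) y : ℝ) • b p.1 - (inner ℝ (b p.1) y : ℝ) • b p.2) : ℝ) =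
        2 * (d - 1) * t := by
      rw [Fintype.sum_prod_type]
      simp only [s1, Finset.sum_sub_distrib, Finset.sum_add_distrib, Finset.sum_ite_eq,
        Finset.mem_univ, if_true, hxy, Finset.sum_const, Finset.card_univ, Fintype.card_fin,
        nsmul_eq_mul, ← Finset.mul_sum]
      ring
    have t2 : ∑ p : Fin (Module.finrank ℝ E) × Fin (Module.finrank ℝ E),
        (inner ℝ ((inner ℝ (b p.2) x : ℝ) • b p.1 - (inner ℝ (b p.1) x : ℝ) • b p.2) y : ℝ) *
        inner ℝ x ((inner ℝ (b p.2) y : ℝ) • b p.1 - (inner ℝ (b p.1) y : ℝ) • b p.2) =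
        2 * t ^ 2 - 2 := by
      rw [Fintype.sum_prod_type]
      simp only [s2, Finset.sum_sub_distrib, Finset.sum_add_distrib, ← Finset.mul_sum,
        ← Finset.sum_mul, hxy, hxx, hyy]
      ring
    rw [← Finset.mul_sum, Finset.sum_add_distrib, ← Finset.sum_mul, t1, ← Finset.sum_mul,
      ← Finset.mul_sum, t2]
    ring
  simp only [PerB_apply]
  rw [CndA_swap]
  simp only [hS _ _ (hu _) (hu _)]
  simp only [Finset.mul_sum, ← Finset.sum_sub_distrib]
  refine Finset.sum_congr rfl fun i _ => Finset.sum_congr rfl fun k _ => ?_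
  ring

private theorem Per_key (A : E →ₗ[ℝ] E) (hA : ∀ x y, (inner ℝ (A x) y : ℝ) = -inner ℝ x (A y))
    {C : ℝ} (hC : ∀ x y, |(inner ℝ (A x) y : ℝ)| ≤ C * ‖x‖ * ‖y‖)
    (lam : ι → ℝ) (u : ι → E) (hu : ∀ j, ‖u j‖ = 1) (m : ℕ) :
    (2 * m + 1) * (∑ i, ∑ k, lam i * lam k * ((inner ℝ (A (u i)) (u k) : ℝ) ^ 2 *
        (inner ℝ (u i) (u k) : ℝ) ^ (2 * m))) ≤
      C ^ 2 * (∑ i, ∑ k, lam i * lam k * (inner ℝ (u i) (u k) : ℝ) ^ (2 * m + 2)) ∧
    -((2 * m + 1) * (∑ i, ∑ k, lam i * lam k * ((inner ℝ (A (u i)) (u k) : ℝ) ^ 2 *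
        (inner ℝ (u i) (u k) : ℝ) ^ (2 * m)))) ≤
      ((Module.finrank ℝ E : ℝ) ^ 2 * C ^ 2) * ((Module.finrank ℝ E : ℝ) *
      (∑ i, ∑ k, lam i * lam k * (inner ℝ (u i) (u k) : ℝ) ^ (2 * m + 2)) -
      (2 * m + 1) * ((∑ i, ∑ k, lam i * lam k * (inner ℝ (u i) (u k) : ℝ) ^ (2 * m)) -
      (∑ i, ∑ k, lam i * lam k * (inner ℝ (u i) (u k) : ℝ) ^ (2 * m + 2)))) := by
  set X0 := ∑ i, ∑ k, lam i * lam k * (inner ℝ (u i) (u k) : ℝ) ^ (2 * m + 2) with hX0
  set P := ∑ i, ∑ k, lam i * lam k * (inner ℝ (u i) (u k) : ℝ) ^ (2 * m) with hP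
  set T2 := ∑ i, ∑ k, lam i * lam k * ((inner ℝ (A (u i)) (u k) : ℝ) ^ 2 *
        (inner ℝ (u i) (u k) : ℝ) ^ (2 * m)) with hT2
  set Y := ∑ i, ∑ k, lam i * lam k * ((inner ℝ (A (u i)) (A (u k)) : ℝ) *
        (inner ℝ (u i) (u k) : ℝ) ^ (2 * m + 1)) with hY
  have hB : PerB lam u m (fun i => A (u i)) (fun i => A (u i)) = Y - (2 * m + 1) * T2 := by
    rw [PerB_apply, hY, hT2, Finset.mul_sum, ← Finset.sum_sub_distrib]
    refine Finset.sum_congr rfl fun i _ => ?_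
    rw [Finset.mul_sum, ← Finset.sum_sub_distrib]
    refine Finset.sum_congr rfl fun k _ => ?_
    have h1 : (inner ℝ (u i) (A (u k)) : ℝ) = -inner ℝ (A (u i)) (u k) := by
      rw [hA, neg_neg]
    rw [h1]
    ring
  have hB0 := PerB_nonneg lam u m (fun i => A (u i))
  rw [hB] at hB0
  have hAz : ∀ z : E, ‖A z‖ ^ 2 ≤ C ^ 2 * ‖z‖ ^ 2 := by
    intro z
    rcases (norm_nonneg (A z)).eq_or_lt with h0 | h0
    · have h1 : (0 : ℝ) ≤ C ^ 2 * ‖z‖ ^ 2 := by positivity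
      rw [← h0]
      simpa using h1
    · have h1 := hC z (A z)
      rw [real_inner_self_eq_norm_sq, abs_of_nonneg (sq_nonneg _), sq] at h1
      have h2 : ‖A z‖ ≤ C * ‖z‖ := le_of_mul_le_mul_right h1 h0
      calc ‖A z‖ ^ 2 ≤ (C * ‖z‖) ^ 2 := pow_le_pow_left₀ h0.le h2 2
        _ = C ^ 2 * ‖z‖ ^ 2 := by ring
  have hsum : ∀ (c : ι → ℝ) (v : ι → E), ∑ i, ∑ k, c i * c k * (inner ℝ (v i) (v k) : ℝ) =
      ‖∑ i, c i • v i‖ ^ 2 := by
    intro c v
    rw [← real_inner_self_eq_norm_sq, sum_inner]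
    refine Finset.sum_congr rfl fun i _ => ?_
    rw [inner_sum]
    refine Finset.sum_congr rfl fun k _ => ?_
    rw [real_inner_smul_left, real_inner_smul_right]
    ring
  have hAsum : ∀ c : ι → ℝ, A (∑ i, c i • u i) = ∑ i, c i • A (u i) := by
    intro c
    rw [map_sum]
    refine Finset.sum_congr rfl fun i _ => ?_
    rw [map_smul]
  have hY0 : 0 ≤ Y := by
    refine Per_mulpow (M := fun i k => (inner ℝ (A (u i)) (A (u k)) : ℝ)) ?_ u (2 * m + 1) lam
    intro c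
    rw [hsum c (fun i => A (u i))]
    positivity
  have hYX : Y ≤ C ^ 2 * X0 := by
    have h1 := Per_mulpow (M := fun i k => C ^ 2 * (inner ℝ (u i) (u k) : ℝ) -
      (inner ℝ (A (u i)) (A (u k)) : ℝ)) (by
        intro c
        have h2 : ∑ i, ∑ k, c i * c k * (C ^ 2 * (inner ℝ (u i) (u k) : ℝ) -
          (inner ℝ (A (u i)) (A (u k)) : ℝ)) =
          C ^ 2 * ‖∑ i, c i • u i‖ ^ 2 - ‖∑ i, c i • A (u i)‖ ^ 2 := by
          rw [← hsum c u, ← hsum c (fun i => A (u i)), Finset.mul_sum, ← Finset.sum_sub_distrib]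
          refine Finset.sum_congr rfl fun i _ => ?_
          rw [Finset.mul_sum, ← Finset.sum_sub_distrib]
          refine Finset.sum_congr rfl fun k _ => ?_
          ring
        rw [h2, ← hAsum]
        have h3 := hAz (∑ i, c i • u i)
        linarith) u (2 * m + 1) lam
    have h2 : ∑ i, ∑ k, lam i * lam k * ((C ^ 2 * (inner ℝ (u i) (u k) : ℝ) -
      (inner ℝ (A (u i)) (A (u k)) : ℝ)) * (inner ℝ (u i) (u k) : ℝ) ^ (2 * m + 1)) =
      C ^ 2 * X0 - Y := by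
      rw [hX0, hY, Finset.mul_sum, ← Finset.sum_sub_distrib]
      refine Finset.sum_congr rfl fun i _ => ?_
      rw [Finset.mul_sum, ← Finset.sum_sub_distrib]
      refine Finset.sum_congr rfl fun k _ => ?_
      ring
    rw [h2] at h1
    linarith
  refine ⟨by linarith, ?_⟩
  set b := stdOrthonormalBasis ℝ E with hb
  set d : ℝ := (Module.finrank ℝ E : ℝ) with hd
  have hlag := Per_lag (PerB lam u m) (PerB_symm lam u m) (PerB_nonneg lam u m)
    (fun p : Fin (Module.finrank ℝ E) × Fin (Module.finrank ℝ E) =>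
      (inner ℝ (b p.1) (A (b p.2)) : ℝ) / 2)
    (fun p i => (inner ℝ (b p.2) (u i) : ℝ) • b p.1 - (inner ℝ (b p.1) (u i) : ℝ) • b p.2)
  have hexp : (∑ p : Fin (Module.finrank ℝ E) × Fin (Module.finrank ℝ E),
      ((inner ℝ (b p.1) (A (b p.2)) : ℝ) / 2) •
      (fun i => (inner ℝ (b p.2) (u i) : ℝ) • b p.1 - (inner ℝ (b p.1) (u i) : ℝ) • b p.2 :
        ι → E)) = fun i => A (u i) := by
    funext i
    rw [Per_exp A hA (u i), Finset.sum_apply]
    rfl
  rw [hexp, hB, Per_sums lam u hu m] at hlag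
  have hS : 0 ≤ 2 * (d - 1) * X0 - 2 * (2 * m + 1) * (P - X0) := by
    rw [hX0, hP, hd, ← Per_sums lam u hu m]
    exact Finset.sum_nonneg fun p _ => PerB_nonneg lam u m _
  have hX : 0 ≤ X0 := psd_pow u (2 * m + 2) lam
  have hc : ∑ p : Fin (Module.finrank ℝ E) × Fin (Module.finrank ℝ E),
      ((inner ℝ (b p.1) (A (b p.2)) : ℝ) / 2) ^ 2 ≤ d ^ 2 * C ^ 2 / 4 := by
    have h1 : ∀ p : Fin (Module.finrank ℝ E) × Fin (Module.finrank ℝ E),
        ((inner ℝ (b p.1) (A (b p.2)) : ℝ) / 2) ^ 2 ≤ C ^ 2 / 4 := by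
      intro p
      have h2 := hC (b p.2) (b p.1)
      rw [b.norm_eq_one, b.norm_eq_one, mul_one, mul_one, real_inner_comm] at h2
      have h3 : (inner ℝ (b p.1) (A (b p.2)) : ℝ) ^ 2 ≤ C ^ 2 := by
        rw [← sq_abs]
        exact pow_le_pow_left₀ (abs_nonneg _) h2 2
      rw [div_pow]
      linarith
    refine (Finset.sum_le_sum fun p _ => h1 p).trans (le_of_eq ?_)
    rw [Finset.sum_const, Finset.card_univ, Fintype.card_prod, Fintype.card_fin, nsmul_eq_mul]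
    push_cast
    rw [hd]
    ring
  have h4 : Y - (2 * m + 1) * T2 ≤ d ^ 2 * C ^ 2 / 4 *
      (2 * (d - 1) * X0 - 2 * (2 * m + 1) * (P - X0)) :=
    hlag.trans (mul_le_mul_of_nonneg_right hc hS)
  have h5 : 0 ≤ d ^ 2 * C ^ 2 := by positivity
  have h6 : d ^ 2 * C ^ 2 / 4 * (2 * (d - 1) * X0 - 2 * (2 * m + 1) * (P - X0)) ≤
      d ^ 2 * C ^ 2 * (d * X0 - (2 * m + 1) * (P - X0)) := by
    have h7 : d ^ 2 * C ^ 2 * (d * X0 - (2 * m + 1) * (P - X0)) -
        d ^ 2 * C ^ 2 / 4 * (2 * (d - 1) * X0 - 2 * (2 * m + 1) * (P - X0)) =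
        d ^ 2 * C ^ 2 * X0 + d ^ 2 * C ^ 2 / 4 *
          (2 * (d - 1) * X0 - 2 * (2 * m + 1) * (P - X0)) := by ring
    have h8 := mul_nonneg h5 hX
    have h9 : 0 ≤ d ^ 2 * C ^ 2 / 4 * (2 * (d - 1) * X0 - 2 * (2 * m + 1) * (P - X0)) := by
      have : 0 ≤ d ^ 2 * C ^ 2 / 4 := by positivity
      exact mul_nonneg this hS
    linarith
  linarith

private theorem Per_tel {X0 P : ℕ → ℝ} (h0 : P 0 = 0) (hP : ∀ m, P (m + 1) = X0 m) (K : ℕ) :
    ∑ m ∈ Finset.range (K + 1), dd m * (X0 m - P m) =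
      ∑ m ∈ Finset.range (K + 1), dd m / (2 * m + 2) * X0 m + dd (K + 1) * X0 K := by
  induction K with
  | zero =>
    simp [h0, dd_succ, dd_zero]
    ring
  | succ K ih =>
    rw [Finset.sum_range_succ, ih, Finset.sum_range_succ _ (K + 1), hP, dd_succ (K + 1)]
    have h4 : (2 * ((K + 1 : ℕ) : ℝ) + 2) ≠ 0 := by positivity
    field_simp
    ring

theorem per (E : Type*) [NormedAddCommGroup E] [InnerProductSpace ℝ E] [FiniteDimensional ℝ E] :
    ∃ κ : ℝ, 0 < κ ∧ ∀ A : E →ₗ[ℝ] E, (∀ x y, (inner ℝ (A x) y : ℝ) = -inner ℝ x (A y)) →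
      ∀ C : ℝ, (∀ x y, |(inner ℝ (A x) y : ℝ)| ≤ C * ‖x‖ * ‖y‖) →
      ∀ {ι : Type} [Fintype ι] (u : ι → E), (∀ j, ‖u j‖ = 1) → ∀ lam : ι → ℝ,
        ∑ j, lam j = 0 →
        |∑ j, ∑ k, lam j * lam k * ((inner ℝ (A (u j)) (u k) : ℝ) ^ 2 /
          √(1 - (inner ℝ (u j) (u k) : ℝ) ^ 2))| ≤
        κ * C ^ 2 * -(∑ j, ∑ k, lam j * lam k * √(1 - (inner ℝ (u j) (u k) : ℝ) ^ 2)) := by
  set d : ℝ := (Module.finrank ℝ E : ℝ) with hd
  have hd0 : 0 ≤ d := Nat.cast_nonneg _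
  refine ⟨2 + d ^ 2 * (2 * d + 1), by positivity, ?_⟩
  intro A hA C hC ι _ u hu lam hl
  set t : ι → ι → ℝ := fun i k => (inner ℝ (u i) (u k) : ℝ) with ht
  set τ : ι → ι → ℝ := fun i k => (inner ℝ (A (u i)) (u k) : ℝ) with hτ
  set X0 : ℕ → ℝ := fun m => ∑ i, ∑ k, lam i * lam k * t i k ^ (2 * m + 2) with hX0
  set P : ℕ → ℝ := fun m => ∑ i, ∑ k, lam i * lam k * t i k ^ (2 * m) with hP
  set T2 : ℕ → ℝ := fun m => ∑ i, ∑ k, lam i * lam k * (τ i k ^ 2 * t i k ^ (2 * m)) with hT2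
  have hkey : ∀ m : ℕ, (2 * m + 1) * T2 m ≤ C ^ 2 * X0 m ∧
      -((2 * m + 1) * T2 m) ≤ (d ^ 2 * C ^ 2) * (d * X0 m - (2 * m + 1) * (P m - X0 m)) :=
    fun m => Per_key A hA hC lam u hu m
  have hX0n : ∀ m, 0 ≤ X0 m := fun m => psd_pow u (2 * m + 2) lam
  have hP0 : P 0 = 0 := by
    have h2 : P 0 = (∑ i, lam i) * ∑ k, lam k := by
      rw [Finset.sum_mul_sum]
      simp only [hP]
      refine Finset.sum_congr rfl fun i _ => Finset.sum_congr rfl fun k _ => ?_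
      ring
    rw [h2, hl, mul_zero]
  have hPS : ∀ m, P (m + 1) = X0 m := fun m => rfl
  have htle : ∀ i k, |t i k| ≤ 1 := by
    intro i k
    have := abs_real_inner_le_norm (u i) (u k)
    rwa [hu, hu, one_mul] at this
  set Λ : ℝ := ∑ i, ∑ k, |lam i * lam k| with hΛ
  have hX0L : ∀ m, X0 m ≤ Λ := by
    intro m
    refine Finset.sum_le_sum fun i _ => Finset.sum_le_sum fun k _ => ?_
    refine (le_abs_self _).trans ?_
    rw [abs_mul, abs_pow]
    exact mul_le_of_le_one_right (abs_nonneg _) (pow_le_one₀ (abs_nonneg _) (htle i k))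
  set G : ℕ → ℝ := fun K => ∑ m ∈ Finset.range (K + 1), dd m / (2 * m + 2) * X0 m with hG
  set F : ℕ → ℝ := fun K => ∑ m ∈ Finset.range (K + 1), dd m * T2 m with hF
  -- termwise
  have hup : ∀ m : ℕ, dd m * T2 m ≤ 2 * C ^ 2 * (dd m / (2 * m + 2) * X0 m) := by
    intro m
    have h1 := (hkey m).1
    have h2 := dd_pos m
    have h3 : (0 : ℝ) < 2 * m + 1 := by positivity
    have h4 : (0 : ℝ) < 2 * m + 2 := by positivity
    have h5 : T2 m ≤ C ^ 2 * X0 m / (2 * m + 1) := by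
      rw [le_div_iff₀ h3]
      linarith
    have h6 : C ^ 2 * X0 m / (2 * m + 1) ≤ 2 * C ^ 2 * X0 m / (2 * m + 2) := by
      rw [div_le_div_iff₀ h3 h4]
      have h7 : 0 ≤ C ^ 2 * X0 m := mul_nonneg (sq_nonneg _) (hX0n m)
      have h8 : (0 : ℝ) ≤ m := Nat.cast_nonneg _
      nlinarith
    calc dd m * T2 m ≤ dd m * (2 * C ^ 2 * X0 m / (2 * m + 2)) :=
          mul_le_mul_of_nonneg_left (h5.trans h6) h2.le
      _ = 2 * C ^ 2 * (dd m / (2 * m + 2) * X0 m) := by ring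
  have hlow : ∀ m : ℕ, -(dd m * T2 m) ≤ (d ^ 2 * C ^ 2) *
      (2 * d * (dd m / (2 * m + 2) * X0 m) + dd m * (X0 m - P m)) := by
    intro m
    have h1 := (hkey m).2
    have h2 := dd_pos m
    have h3 : (0 : ℝ) < 2 * m + 1 := by positivity
    have h4 : (0 : ℝ) < 2 * m + 2 := by positivity
    have h5 : -T2 m ≤ (d ^ 2 * C ^ 2) * (d * X0 m / (2 * m + 1) + (X0 m - P m)) := by
      have h6 : (d ^ 2 * C ^ 2) * (d * X0 m / (2 * m + 1) + (X0 m - P m)) =
          ((d ^ 2 * C ^ 2) * (d * X0 m - (2 * m + 1) * (P m - X0 m))) / (2 * m + 1) := by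
        field_simp
        ring
      rw [h6, le_div_iff₀ h3]
      linarith
    have h6 : d * X0 m / (2 * m + 1) ≤ 2 * d * X0 m / (2 * m + 2) := by
      rw [div_le_div_iff₀ h3 h4]
      have h7 : 0 ≤ d * X0 m := mul_nonneg hd0 (hX0n m)
      have h8 : (0 : ℝ) ≤ m := Nat.cast_nonneg _
      nlinarith
    have h7 : 0 ≤ d ^ 2 * C ^ 2 := by positivity
    have h8 : -T2 m ≤ (d ^ 2 * C ^ 2) * (2 * d * X0 m / (2 * m + 2) + (X0 m - P m)) :=
      h5.trans (mul_le_mul_of_nonneg_left (by linarith) h7)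
    calc -(dd m * T2 m) = dd m * -T2 m := by ring
      _ ≤ dd m * ((d ^ 2 * C ^ 2) * (2 * d * X0 m / (2 * m + 2) + (X0 m - P m))) :=
          mul_le_mul_of_nonneg_left h8 h2.le
      _ = (d ^ 2 * C ^ 2) * (2 * d * (dd m / (2 * m + 2) * X0 m) + dd m * (X0 m - P m)) := by
          ring
  have hGn : ∀ K, 0 ≤ G K := fun K => Finset.sum_nonneg fun m _ =>
    mul_nonneg (CndB_w m).le (hX0n m)
  have hF1 : ∀ K, F K ≤ 2 * C ^ 2 * G K := by
    intro K
    rw [hF, hG, Finset.mul_sum]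
    exact Finset.sum_le_sum fun m _ => hup m
  have hF2 : ∀ K, -F K ≤ (d ^ 2 * C ^ 2) * ((2 * d + 1) * G K + dd (K + 1) * Λ) := by
    intro K
    have h1 : -F K ≤ ∑ m ∈ Finset.range (K + 1), (d ^ 2 * C ^ 2) *
        (2 * d * (dd m / (2 * m + 2) * X0 m) + dd m * (X0 m - P m)) := by
      rw [hF, ← Finset.sum_neg_distrib]
      exact Finset.sum_le_sum fun m _ => hlow m
    rw [← Finset.mul_sum, Finset.sum_add_distrib, ← Finset.mul_sum, Per_tel hP0 hPS K] at h1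
    have h2 : dd (K + 1) * X0 K ≤ dd (K + 1) * Λ :=
      mul_le_mul_of_nonneg_left (hX0L K) (dd_pos _).le
    refine h1.trans (mul_le_mul_of_nonneg_left ?_ (by positivity))
    have h3 : ∑ m ∈ Finset.range (K + 1), dd m / (2 * m + 2) * X0 m = G K := rfl
    rw [h3]
    linarith
  have hFK : ∀ K, |F K| ≤ (2 + d ^ 2 * (2 * d + 1)) * C ^ 2 * G K +
      (d ^ 2 * C ^ 2 * Λ) * dd (K + 1) := by
    intro K
    have h1 := hF1 K
    have h2 := hF2 K
    have h3 := hGn K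
    have h4 : 0 ≤ Λ := Finset.sum_nonneg fun i _ => Finset.sum_nonneg fun k _ => abs_nonneg _
    have h5 : 0 ≤ (d ^ 2 * C ^ 2 * Λ) * dd (K + 1) :=
      mul_nonneg (by positivity) (dd_pos _).le
    have h6 : 0 ≤ d ^ 2 * (2 * d + 1) * C ^ 2 * G K := by positivity
    have h7 : 0 ≤ 2 * C ^ 2 * G K := by positivity
    rw [abs_le]
    constructor
    · nlinarith
    · nlinarith
  -- limits
  have hτ0 : ∀ i k, |t i k| = 1 → τ i k = 0 := by
    intro i k h2
    have h3 : t i k ^ 2 = 1 := by rw [← sq_abs, h2, one_pow]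
    have h4 : u k = t i k • u i := by
      have h5 : ‖u k - t i k • u i‖ ^ 2 = 0 := by
        rw [norm_sub_sq_real, norm_smul, hu, hu, real_inner_smul_right, Real.norm_eq_abs,
          mul_one, sq_abs]
        have h6 : (inner ℝ (u k) (u i) : ℝ) = t i k := real_inner_comm _ _
        rw [h6]
        nlinarith
      have h7 : ‖u k - t i k • u i‖ = 0 := by simpa using h5
      exact sub_eq_zero.1 (norm_eq_zero.1 h7)
    have h8 : (inner ℝ (A (u i)) (u i) : ℝ) = 0 := by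
      have h9 := hA (u i) (u i)
      rw [real_inner_comm (A (u i)) (u i)] at h9
      linarith
    simp only [hτ]
    rw [h4, real_inner_smul_right, h8, mul_zero]
  have hlimF : Filter.Tendsto F Filter.atTop
      (nhds (∑ i, ∑ k, lam i * lam k * (τ i k ^ 2 / √(1 - t i k ^ 2)))) := by
    have h1 : F = fun K => ∑ i, ∑ k, lam i * lam k *
        (τ i k ^ 2 * ∑ m ∈ Finset.range (K + 1), dd m * t i k ^ (2 * m)) := by
      funext K
      have e3 : ∀ i k, lam i * lam k * (τ i k ^ 2 * ∑ m ∈ Finset.range (K + 1),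
        dd m * t i k ^ (2 * m)) = (lam i * lam k * τ i k ^ 2) * ∑ m ∈ Finset.range (K + 1),
        dd m * t i k ^ (2 * m) := fun i k => by ring
      simp only [e3]
      rw [CndB_sum3 (Finset.range (K + 1)) (fun i k => lam i * lam k * τ i k ^ 2)
        (fun m i k => t i k ^ (2 * m)) dd]
      simp only [hF, hT2]
      refine Finset.sum_congr rfl fun m _ => ?_
      congr 1
      refine Finset.sum_congr rfl fun i _ => Finset.sum_congr rfl fun k _ => ?_
      ring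
    rw [h1]
    refine tendsto_finsetSum _ fun i _ => tendsto_finsetSum _ fun k _ => ?_
    refine Filter.Tendsto.const_mul _ ?_
    rcases (htle i k).lt_or_eq with hlt | heq
    · have h4 := (hasSum_inv_sqrt hlt).tendsto_sum_nat.comp (Filter.tendsto_add_atTop_nat 1)
      have h5 := h4.const_mul (τ i k ^ 2)
      rw [mul_one_div] at h5
      exact h5
    · rw [hτ0 i k heq]
      simp
  have hlimG : Filter.Tendsto G Filter.atTop
      (nhds (-∑ i, ∑ k, lam i * lam k * √(1 - t i k ^ 2))) := by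
    have h1 : G = fun K => ∑ i, ∑ k, lam i * lam k *
        ∑ m ∈ Finset.range (K + 1), dd m / (2 * m + 2) * t i k ^ (2 * m + 2) := by
      funext K
      rw [CndB_sum3 (Finset.range (K + 1)) (fun i k => lam i * lam k)
        (fun m i k => t i k ^ (2 * m + 2)) (fun m => dd m / (2 * m + 2))]
    have h2 : -∑ i, ∑ k, lam i * lam k * √(1 - t i k ^ 2) =
        ∑ i, ∑ k, lam i * lam k * (1 - √(1 - t i k ^ 2)) := by
      have e8 : ∑ i, ∑ k, lam i * lam k = 0 := by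
        rw [← Finset.sum_mul_sum, hl, zero_mul]
      simp only [mul_sub, mul_one, Finset.sum_sub_distrib]
      rw [e8]
      ring
    rw [h1, h2]
    refine tendsto_finsetSum _ fun i _ => tendsto_finsetSum _ fun k _ => ?_
    exact ((hasSum_sqrt (htle i k)).tendsto_sum_nat.comp
      (Filter.tendsto_add_atTop_nat 1)).const_mul _
  have hlimD : Filter.Tendsto (fun K : ℕ => dd (K + 1)) Filter.atTop (nhds 0) :=
    dd_tendsto.comp (Filter.tendsto_add_atTop_nat 1)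
  have hR := (hlimG.const_mul ((2 + d ^ 2 * (2 * d + 1)) * C ^ 2)).add
    (hlimD.const_mul (d ^ 2 * C ^ 2 * Λ))
  rw [mul_zero, add_zero] at hR
  exact le_of_tendsto_of_tendsto' hlimF.abs hR hFK

end main

end Pool.Agent.H35.NI
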