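import Mathlib
import Pool.Agent.H35.NI.Lin
import Pool.Agent.H35.NI.Per
import Pool.Agent.H89.CZ.KCnd

set_option autoImplicit false

/-!
# Hyp: the perturbed kernel is Lorentzian

`i = m + 2`.  `W : Fin m → Cn n` fixed.  If `W` is linearly dependent all `GG (u, v, W)` and all
`B (u, v, W)` vanish.  Otherwise `W = t · f` (as wedge), `f` orthonormal, `t > 0`; let `F` be the
real orthogonal complement of the span of `f` (a finite-dimensional real inner product space), `p'`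
the projection of `p` to `F`: `GG (u,v,W) = t² (‖u'‖² ‖v'‖² - ⟨u',v'⟩²)`,
`B (u,v,W) = t B (u',v',f)`, and `(x, y) ↦ B (x, y, f)` on `F` is `⟨A x, y⟩` with `A` antisymmetric,
`|⟨A x, y⟩| ≤ M ‖x‖ ‖y‖`, where `M` is a bound of the multilinear form `B`.  With unit vectors
`u'' = u'/‖u'‖` (an arbitrary unit vector of `F` if `u' = 0`; if `F = 0` everything vanishes):
`k (u,v,W) = t ‖u'‖ ‖v'‖ (C0 √G'' + ∑ η_r B_r''²/√G'')`.  `per` (the constant depends only on
`dim F ≤ 2n`; take the maximum over the subspaces `F`, i.e. over the dimensions: use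
`EuclideanSpace ℝ (Fin d)`, `d ≤ 2n`, and an isometry) gives: if `∑ |η_r| κ M_r² ≤ C0` the kernel is
`≤ 0` on weights with `∑ λ_j ‖p_j'‖ = 0`.  It is `≥ 0` pointwise if `∑ |η_r| M_r² ≤ C0`, as
`|B (x,y,f)|² ≤ M² (‖x‖²‖y‖² - ⟨x,y⟩²)`.  Then `hyperbolic` (`H89/CZ/KCnd.lean`).
-/

open MeasureTheory Pool.Agent.H61.UProj Pool.Agent.H89.CZ

noncomputable section

namespace Pool.Agent.H35.NI

variable {n : ℕ}

/-- The perturbed kernel. -/
def pk {i R : ℕ} (C0 : ℝ) (η : Fin R → ℝ) (B : Fin R → (Cn n) [⋀^Fin i]→ₗ[ℝ] ℝ)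
    (w : Fin i → Cn n) : ℝ :=
  C0 * √(GG w) + ∑ r, η r * ((B r w) ^ 2 / √(GG w))

/-! ### Bounds for alternating forms -/

private theorem Hyp_bd {i : ℕ} (B : (Cn n) [⋀^Fin i]→ₗ[ℝ] ℝ) :
    ∃ M : ℝ, 0 < M ∧ ∀ f : Fin i → Cn n, (∀ a, ‖f a‖ ≤ 1) → |B f| ≤ M := by
  classical
  set b := stdOrthonormalBasis ℝ (Cn n) with hb
  refine ⟨∑ r : Fin i → Fin (Module.finrank ℝ (Cn n)), |B (fun a => b (r a))| + 1,
    add_pos_of_nonneg_of_pos (Finset.sum_nonneg fun _ _ => abs_nonneg _) one_pos, fun f hf => ?_⟩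
  have h1 : f = fun a => ∑ k, (inner ℝ (b k) (f a) : ℝ) • b k := by
    funext a
    exact (b.sum_repr' (f a)).symm
  have h2 : B f = ∑ r : Fin i → Fin (Module.finrank ℝ (Cn n)),
      (∏ a, (inner ℝ (b (r a)) (f a) : ℝ)) * B (fun a => b (r a)) := by
    conv_lhs => rw [h1]
    have h3 := B.toMultilinearMap.map_sum (fun a (k : Fin (Module.finrank ℝ (Cn n))) =>
      (inner ℝ (b k) (f a) : ℝ) • b k)
    simp only [AlternatingMap.coe_multilinearMap] at h3
    rw [h3]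
    refine Finset.sum_congr rfl fun r _ => ?_
    have h4 := B.toMultilinearMap.map_smul_univ (fun a => (inner ℝ (b (r a)) (f a) : ℝ))
      (fun a => b (r a))
    simp only [AlternatingMap.coe_multilinearMap, smul_eq_mul] at h4
    exact h4
  rw [h2]
  refine (Finset.abs_sum_le_sum_abs _ _).trans ?_
  refine le_trans (Finset.sum_le_sum fun r _ => ?_) (le_add_of_nonneg_right zero_le_one)
  rw [abs_mul]
  refine mul_le_of_le_one_left (abs_nonneg _) ?_
  rw [Finset.abs_prod]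
  refine Finset.prod_le_one (fun _ _ => abs_nonneg _) fun a _ => ?_
  refine (abs_real_inner_le_norm _ _).trans ?_
  rw [b.norm_eq_one, one_mul]
  exact hf a

private theorem Hyp_comb {i : ℕ} (B : (Cn n) [⋀^Fin i]→ₗ[ℝ] ℝ) {w f : Fin i → Cn n}
    {R : Matrix (Fin i) (Fin i) ℝ} (h : ∀ a, w a = ∑ b, R a b • f b) :
    B w = R.det * B f := by
  have h1 := AlternatingMap.eq_smul_basis_det (Pi.basisFun ℝ (Fin i))
    (B.compLinearMap (Fintype.linearCombination ℝ f))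
  have h2 : (B.compLinearMap (Fintype.linearCombination ℝ f)) (fun a b => R a b) =
      (B.compLinearMap (Fintype.linearCombination ℝ f)) (Pi.basisFun ℝ (Fin i)) *
        (Pi.basisFun ℝ (Fin i)).det (fun a b => R a b) :=
    congrArg (fun F : (Fin i → ℝ) [⋀^Fin i]→ₗ[ℝ] ℝ => F (fun a b => R a b)) h1
  have h3 : (B.compLinearMap (Fintype.linearCombination ℝ f)) (fun a b => R a b) = B w := by
    rw [AlternatingMap.compLinearMap_apply]
    congr 1
    funext a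
    rw [h a]
    rfl
  have h4 : (B.compLinearMap (Fintype.linearCombination ℝ f)) (Pi.basisFun ℝ (Fin i)) = B f := by
    rw [AlternatingMap.compLinearMap_apply]
    congr 1
    funext a
    simp [Fintype.linearCombination_apply_single]
  rw [h3, h4, Pi.basisFun_det] at h2
  rw [h2, mul_comm]
  rfl

private theorem Hyp_GG_nonneg {m : ℕ} (w : Fin (m + 2) → Cn n) : 0 ≤ GG w := by
  rcases frame (by omega) w with h | ⟨f, t, -, -, h, -⟩
  · exact h.1.ge
  · rw [h]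
    exact sq_nonneg t

private theorem Hyp_sq {m : ℕ} (B : (Cn n) [⋀^Fin (m + 2)]→ₗ[ℝ] ℝ) {M : ℝ}
    (hM : ∀ f : Fin (m + 2) → Cn n, (∀ a, ‖f a‖ ≤ 1) → |B f| ≤ M) (w : Fin (m + 2) → Cn n) :
    B w ^ 2 ≤ M ^ 2 * GG w := by
  by_cases hw : LinearIndependent ℝ w
  · set S := Submodule.span ℝ (Set.range w) with hS
    have hfr : Module.finrank ℝ S = m + 2 := by
      rw [hS, finrank_span_eq_card hw, Fintype.card_fin]
    set b := (stdOrthonormalBasis ℝ S).reindex (finCongr hfr) with hb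
    set f : Fin (m + 2) → Cn n := fun j => (b j : Cn n) with hfd
    have hf : Orthonormal ℝ f := b.orthonormal.comp_linearIsometry S.subtypeₗᵢ
    have hwS : ∀ k, w k ∈ S := fun k => Submodule.subset_span ⟨k, rfl⟩
    set R : Matrix (Fin (m + 2)) (Fin (m + 2)) ℝ :=
      Matrix.of fun k j => (inner ℝ (b j) (⟨w k, hwS k⟩ : S) : ℝ) with hR
    have hwR : ∀ k, w k = ∑ j, R k j • f j := by
      intro k
      have h1 := b.sum_repr' (⟨w k, hwS k⟩ : S)
      have h2 := congrArg (fun x : S => (x : Cn n)) h1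
      simp only [Submodule.coe_sum, Submodule.coe_smul] at h2
      exact h2.symm
    have h1 : GG w = R.det ^ 2 := by
      have h2 := dz_comb hwR 0
      rwa [dz_zero, dz_zero, GG_orth hf, mul_one] at h2
    rw [h1, Hyp_comb B hwR, mul_pow, mul_comm]
    refine mul_le_mul_of_nonneg_right ?_ (sq_nonneg _)
    rw [← sq_abs]
    exact pow_le_pow_left₀ (abs_nonneg _) (hM f fun a => (hf.1 a).le) 2
  · rw [B.map_linearDependent w hw, zero_pow two_ne_zero]
    exact mul_nonneg (sq_nonneg _) (Hyp_GG_nonneg w)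

/-! ### Projection on the orthogonal complement of `W` -/

/-- the tuple `x, y, W` -/
private abbrev ws {m : ℕ} (x y : Cn n) (W : Fin m → Cn n) : Fin (m + 2) → Cn n :=
  Fin.cons x (Fin.cons y W : Fin (m + 1) → Cn n)

/-- the space spanned by `W` -/
private abbrev sW {m : ℕ} (W : Fin m → Cn n) : Submodule ℝ (Cn n) :=
  Submodule.span ℝ (Set.range W)

/-- the projection on the orthogonal complement -/
private def pW {m : ℕ} (W : Fin m → Cn n) (x : Cn n) : Cn n := (sW W)ᗮ.starProjection x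

private theorem pW_orth {m : ℕ} (W : Fin m → Cn n) (x : Cn n) (k : Fin m) :
    (inner ℝ (pW W x) (W k) : ℝ) = 0 := by
  have h1 := Submodule.starProjection_apply_mem (sW W)ᗮ x
  rw [real_inner_comm]
  exact h1 (W k) (Submodule.subset_span ⟨k, rfl⟩)

private theorem pW_sub {m : ℕ} (W : Fin m → Cn n) (x : Cn n) : x - pW W x ∈ sW W := by
  have h1 := Submodule.sub_starProjection_mem_orthogonal (K := (sW W)ᗮ) x
  rwa [Submodule.orthogonal_orthogonal] at h1

private theorem pW_norm {m : ℕ} (W : Fin m → Cn n) (x : Cn n) : ‖pW W x‖ ≤ ‖x‖ :=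
  Submodule.norm_starProjection_apply_le _ _

/-- the bilinear form `B (x, y, W)` -/
private def bW {m : ℕ} (B : (Cn n) [⋀^Fin (m + 2)]→ₗ[ℝ] ℝ) (W : Fin m → Cn n) :
    Cn n →ₗ[ℝ] Cn n →ₗ[ℝ] ℝ :=
  LinearMap.mk₂ ℝ (fun x y => B (ws x y W))
    (fun x x' y => by
      have h := B.toMultilinearMap.map_update_add (ws 0 y W) 0 x x'
      simpa only [Fin.update_cons_zero, AlternatingMap.coe_multilinearMap] using h)
    (fun c x y => by
      have h := B.toMultilinearMap.map_update_smul (ws 0 y W) 0 c x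
      simpa only [Fin.update_cons_zero, AlternatingMap.coe_multilinearMap] using h)
    (fun x y y' => by
      have h := B.toMultilinearMap.map_update_add (ws x 0 W) 1 y y'
      have e : ∀ z : Cn n, Function.update (ws x 0 W) 1 z = ws x z W := by
        intro z
        have h1 := Fin.cons_update (α := fun _ => Cn n) x (Fin.cons 0 W : Fin (m + 1) → Cn n) 0 z
        rw [Fin.update_cons_zero] at h1
        exact h1.symm
      simpa only [e, AlternatingMap.coe_multilinearMap] using h)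
    (fun c x y => by
      have h := B.toMultilinearMap.map_update_smul (ws x 0 W) 1 c y
      have e : ∀ z : Cn n, Function.update (ws x 0 W) 1 z = ws x z W := by
        intro z
        have h1 := Fin.cons_update (α := fun _ => Cn n) x (Fin.cons 0 W : Fin (m + 1) → Cn n) 0 z
        rw [Fin.update_cons_zero] at h1
        exact h1.symm
      simpa only [e, AlternatingMap.coe_multilinearMap] using h)

private theorem bW_apply {m : ℕ} (B : (Cn n) [⋀^Fin (m + 2)]→ₗ[ℝ] ℝ) (W : Fin m → Cn n)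
    (x y : Cn n) : bW B W x y = B (ws x y W) := rfl

private theorem bW_swap {m : ℕ} (B : (Cn n) [⋀^Fin (m + 2)]→ₗ[ℝ] ℝ) (W : Fin m → Cn n)
    (x y : Cn n) : bW B W x y = -bW B W y x := by
  have h0 : ∀ z : Cn n, bW B W z z = 0 := fun z =>
    B.map_eq_zero_of_eq (ws z z W) (i := 0) (j := 1) rfl (by simp)
  have h1 := h0 (x + y)
  simp only [map_add, LinearMap.add_apply, h0] at h1
  linarith

private theorem bW_left {m : ℕ} (B : (Cn n) [⋀^Fin (m + 2)]→ₗ[ℝ] ℝ) (W : Fin m → Cn n)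
    {z : Cn n} (hz : z ∈ sW W) (y : Cn n) : bW B W z y = 0 := by
  refine Submodule.span_induction (p := fun z _ => bW B W z y = 0) ?_ ?_ ?_ ?_ hz
  · rintro _ ⟨k, rfl⟩
    exact B.map_eq_zero_of_eq (ws (W k) y W) (i := 0) (j := k.succ.succ) rfl
      (Fin.succ_ne_zero _).symm
  · simp
  · intro x x' _ _ h h'
    rw [map_add, LinearMap.add_apply, h, h', add_zero]
  · intro c x _ h
    rw [map_smul, LinearMap.smul_apply, h, smul_zero]

private theorem bW_proj {m : ℕ} (B : (Cn n) [⋀^Fin (m + 2)]→ₗ[ℝ] ℝ) (W : Fin m → Cn n)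
    (x y : Cn n) : bW B W x y = bW B W (pW W x) (pW W y) := by
  have h1 : ∀ x y, bW B W x y = bW B W (pW W x) y := by
    intro x y
    have h2 := bW_left B W (pW_sub W x) y
    rw [map_sub, LinearMap.sub_apply] at h2
    linarith
  rw [h1 x y, bW_swap, h1 y, ← bW_swap]

private theorem op_ex {m : ℕ} (B : (Cn n) [⋀^Fin (m + 2)]→ₗ[ℝ] ℝ) (W : Fin m → Cn n) :
    ∃ A : Cn n →ₗ[ℝ] Cn n, ∀ x y, (inner ℝ (A x) y : ℝ) = bW B W x y := by
  set b := stdOrthonormalBasis ℝ (Cn n) with hb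
  refine ⟨∑ k, ((bW B W).flip (b k)).smulRight (b k), fun x y => ?_⟩
  rw [LinearMap.sum_apply, sum_inner]
  have h1 : bW B W x y = ∑ k, (inner ℝ (b k) y : ℝ) * bW B W x (b k) := by
    conv_lhs => rw [← b.sum_repr' y]
    rw [map_sum]
    refine Finset.sum_congr rfl fun k _ => ?_
    rw [map_smul, smul_eq_mul]
  rw [h1]
  refine Finset.sum_congr rfl fun k _ => ?_
  rw [LinearMap.smulRight_apply, real_inner_smul_left, LinearMap.flip_apply]
  ring

/-! ### The Gram determinant -/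

/-- `DD z` as an alternating map -/
private def dA {i : ℕ} (z : Fin i → Cn n) : (Cn n) [⋀^Fin i]→ₗ[ℝ] ℝ :=
  Matrix.detRowAlternating.compLinearMap (LinearMap.pi fun a => (innerₗ (Cn n)) (z a))

private theorem dA_apply {i : ℕ} (z w : Fin i → Cn n) : dA z w = DD z w := by
  unfold DD
  rw [← Matrix.det_transpose]
  rfl

private theorem DD_row {k : ℕ} {a b : Cn n} (z w : Fin k → Cn n)
    (h : ∀ j, (inner ℝ a (w j) : ℝ) = 0) :
    DD (Fin.cons a z : Fin (k + 1) → Cn n) (Fin.cons b w : Fin (k + 1) → Cn n) =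
      inner ℝ a b * DD z w := by
  unfold DD
  rw [Matrix.det_succ_row_zero, Fin.sum_univ_succ]
  have h1 : ∀ j : Fin k, (-1 : ℝ) ^ ((j.succ : Fin (k + 1)) : ℕ) *
      (Matrix.of fun s t => (inner ℝ ((Fin.cons a z : Fin (k + 1) → Cn n) s)
        ((Fin.cons b w : Fin (k + 1) → Cn n) t) : ℝ)) 0 j.succ *
      ((Matrix.of fun s t => (inner ℝ ((Fin.cons a z : Fin (k + 1) → Cn n) s)
        ((Fin.cons b w : Fin (k + 1) → Cn n) t) : ℝ)).submatrix Fin.succ
          (j.succ).succAbove).det = 0 := by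
    intro j
    rw [Matrix.of_apply, Fin.cons_zero, Fin.cons_succ, h j, mul_zero, zero_mul]
  rw [Finset.sum_eq_zero fun j _ => h1 j, add_zero, Fin.val_zero, pow_zero, one_mul,
    Matrix.of_apply, Fin.cons_zero, Fin.cons_zero]
  congr 2

private theorem GG_block {m : ℕ} {a b : Cn n} (W : Fin m → Cn n)
    (ha : ∀ j, (inner ℝ a (W j) : ℝ) = 0) (hb : ∀ j, (inner ℝ b (W j) : ℝ) = 0) :
    GG (ws a b W) = (‖a‖ ^ 2 * ‖b‖ ^ 2 - (inner ℝ a b : ℝ) ^ 2) * GG W := by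
  have h1 : DD (Fin.cons b W : Fin (m + 1) → Cn n) (Fin.cons b W : Fin (m + 1) → Cn n) =
      inner ℝ b b * DD W W := DD_row W W hb
  have h2 : DD (Fin.cons b W : Fin (m + 1) → Cn n) (Fin.cons a W : Fin (m + 1) → Cn n) =
      inner ℝ b a * DD W W := DD_row W W hb
  unfold GG
  unfold DD at h1 h2 ⊢
  rw [Matrix.det_succ_row_zero, Fin.sum_univ_succ, Fin.sum_univ_succ]
  have h3 : ∀ j : Fin m, (-1 : ℝ) ^ ((j.succ.succ : Fin (m + 2)) : ℕ) *
      (Matrix.of fun s t => (inner ℝ (ws a b W s) (ws a b W t) : ℝ)) 0 j.succ.succ *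
      ((Matrix.of fun s t => (inner ℝ (ws a b W s) (ws a b W t) : ℝ)).submatrix Fin.succ
          (j.succ.succ).succAbove).det = 0 := by
    intro j
    rw [Matrix.of_apply]
    show _ * (inner ℝ a (W j) : ℝ) * _ = 0
    rw [ha j, mul_zero, zero_mul]
  rw [Finset.sum_eq_zero fun j _ => h3 j, add_zero]
  have h4 : ((Matrix.of fun s t => (inner ℝ (ws a b W s) (ws a b W t) : ℝ)).submatrix Fin.succ
          (0 : Fin (m + 2)).succAbove) =
      Matrix.of fun s t => (inner ℝ ((Fin.cons b W : Fin (m + 1) → Cn n) s)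
        ((Fin.cons b W : Fin (m + 1) → Cn n) t) : ℝ) := rfl
  have h5 : ((Matrix.of fun s t => (inner ℝ (ws a b W s) (ws a b W t) : ℝ)).submatrix Fin.succ
          (Fin.succ (0 : Fin (m + 1))).succAbove) =
      Matrix.of fun s t => (inner ℝ ((Fin.cons b W : Fin (m + 1) → Cn n) s)
        ((Fin.cons a W : Fin (m + 1) → Cn n) t) : ℝ) := by
    ext s t
    refine Fin.cases ?_ (fun t => ?_) t
    · rfl
    · rfl
  rw [h4, h5, h1, h2]
  simp only [Matrix.of_apply]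
  show (-1 : ℝ) ^ 0 * (inner ℝ a a : ℝ) * _ + (-1 : ℝ) ^ 1 * (inner ℝ a b : ℝ) * _ = _
  rw [real_inner_self_eq_norm_sq, real_inner_self_eq_norm_sq, real_inner_comm a b]
  ring

private theorem GG_proj {m : ℕ} (W : Fin m → Cn n) (x y : Cn n) :
    GG (ws x y W) =
      (‖pW W x‖ ^ 2 * ‖pW W y‖ ^ 2 - (inner ℝ (pW W x) (pW W y) : ℝ) ^ 2) * GG W := by
  rw [← GG_block W (pW_orth W x) (pW_orth W y)]
  have h1 : ∀ z : Fin (m + 2) → Cn n, DD z (ws x y W) = DD z (ws (pW W x) (pW W y) W) := by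
    intro z
    rw [← dA_apply, ← dA_apply]
    exact bW_proj (dA z) W x y
  unfold GG
  rw [h1, DD_comm, h1]

private theorem GG_W_nonneg {m : ℕ} (W : Fin m → Cn n) : 0 ≤ GG W := by
  rcases Nat.eq_zero_or_pos m with h | h
  · subst h
    unfold GG DD
    rw [Matrix.det_isEmpty]
    exact zero_le_one
  · rcases frame h W with h | ⟨f, t, -, -, h, -⟩
    · exact h.1.ge
    · rw [h]
      exact sq_nonneg t

/-! ### The kernel -/

private theorem term_eq {s β T r : ℝ} (hT : 0 < T) :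
    (s * β) ^ 2 / (s * T * r) = s * T * ((β / T) ^ 2 / r) := by
  rcases eq_or_ne s 0 with h | h
  · rw [h]
    simp
  rcases eq_or_ne r 0 with h' | h'
  · rw [h']
    simp
  have := hT.ne'
  field_simp

private theorem pk_val {m R : ℕ} (C0 : ℝ) (η : Fin R → ℝ)
    (B : Fin R → (Cn n) [⋀^Fin (m + 2)]→ₗ[ℝ] ℝ) {W : Fin m → Cn n} (hW : 0 < GG W)
    {x y e f : Cn n} {s t : ℝ} (hs : 0 ≤ s) (ht : 0 ≤ t) (he : ‖e‖ = 1) (hf : ‖f‖ = 1)
    (hx : pW W x = s • e) (hy : pW W y = t • f) :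
    pk C0 η B (ws x y W) = s * t * √(GG W) * (C0 * √(1 - (inner ℝ e f : ℝ) ^ 2) +
      ∑ r, η r * ((bW (B r) W e f / √(GG W)) ^ 2 / √(1 - (inner ℝ e f : ℝ) ^ 2))) := by
  have hT : 0 < √(GG W) := Real.sqrt_pos.2 hW
  have h1 : √(GG (ws x y W)) = s * t * √(GG W) * √(1 - (inner ℝ e f : ℝ) ^ 2) := by
    rw [GG_proj, hx, hy, norm_smul, norm_smul, he, hf, real_inner_smul_left,
      real_inner_smul_right, Real.norm_of_nonneg hs, Real.norm_of_nonneg ht]
    have h2 : ((s * 1) ^ 2 * (t * 1) ^ 2 - (s * (t * (inner ℝ e f : ℝ))) ^ 2) * GG W =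
        (s * t) ^ 2 * (GG W * (1 - (inner ℝ e f : ℝ) ^ 2)) := by ring
    rw [h2, Real.sqrt_mul (sq_nonneg _), Real.sqrt_sq (mul_nonneg hs ht),
      Real.sqrt_mul hW.le]
    ring
  have h3 : ∀ r, B r (ws x y W) = s * t * bW (B r) W e f := by
    intro r
    rw [← bW_apply, bW_proj, hx, hy, map_smul, map_smul, LinearMap.smul_apply, smul_eq_mul,
      smul_eq_mul]
    ring
  unfold pk
  rw [h1, mul_add, Finset.mul_sum]
  congr 1
  · ring
  · refine Finset.sum_congr rfl fun r _ => ?_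
    rw [h3, term_eq hT]
    ring

private theorem pk_symm {m R : ℕ} (C0 : ℝ) (η : Fin R → ℝ)
    (B : Fin R → (Cn n) [⋀^Fin (m + 2)]→ₗ[ℝ] ℝ) (W : Fin m → Cn n) (x y : Cn n) :
    pk C0 η B (ws x y W) = pk C0 η B (ws y x W) := by
  have h1 : GG (ws x y W) = GG (ws y x W) := by
    rw [GG_proj, GG_proj, real_inner_comm (pW W x) (pW W y)]
    ring
  unfold pk
  rw [h1]
  congr 1
  refine Finset.sum_congr rfl fun r _ => ?_
  rw [← bW_apply, bW_swap, neg_sq, bW_apply]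

private theorem pk_zero {m R : ℕ} (C0 : ℝ) (η : Fin R → ℝ)
    (B : Fin R → (Cn n) [⋀^Fin (m + 2)]→ₗ[ℝ] ℝ) {w : Fin (m + 2) → Cn n} (h : GG w = 0) :
    pk C0 η B w = 0 := by
  unfold pk
  rw [h, Real.sqrt_zero]
  simp

private theorem bW_bd {m : ℕ} (B : (Cn n) [⋀^Fin (m + 2)]→ₗ[ℝ] ℝ) {M : ℝ} (hM0 : 0 ≤ M)
    (hM : ∀ f : Fin (m + 2) → Cn n, (∀ a, ‖f a‖ ≤ 1) → |B f| ≤ M) (W : Fin m → Cn n)
    (x y : Cn n) : |bW B W x y| ≤ M * √(GG W) * ‖x‖ * ‖y‖ := by
  refine abs_le_of_sq_le_sq ?_ (by positivity)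
  have h1 := Hyp_sq B hM (ws x y W)
  rw [GG_proj, ← bW_apply] at h1
  refine h1.trans ?_
  have h2 : (‖pW W x‖ ^ 2 * ‖pW W y‖ ^ 2 - (inner ℝ (pW W x) (pW W y) : ℝ) ^ 2) ≤
      ‖x‖ ^ 2 * ‖y‖ ^ 2 := by
    refine (sub_le_self _ (sq_nonneg _)).trans ?_
    exact mul_le_mul (pow_le_pow_left₀ (norm_nonneg _) (pW_norm W x) 2)
      (pow_le_pow_left₀ (norm_nonneg _) (pW_norm W y) 2) (sq_nonneg _) (sq_nonneg _)
  have h3 : (M * √(GG W) * ‖x‖ * ‖y‖) ^ 2 = M ^ 2 * (‖x‖ ^ 2 * ‖y‖ ^ 2 * GG W) := by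
    rw [mul_pow, mul_pow, mul_pow, Real.sq_sqrt (GG_W_nonneg W)]
    ring
  rw [h3]
  exact mul_le_mul_of_nonneg_left (mul_le_mul_of_nonneg_right h2 (GG_W_nonneg W)) (sq_nonneg _)

private theorem unit_ex [Nontrivial (Cn n)] (x : Cn n) : ∃ e : Cn n, ‖e‖ = 1 ∧ x = ‖x‖ • e := by
  rcases eq_or_ne x 0 with h | h
  · obtain ⟨e, he⟩ := exists_norm_eq (Cn n) zero_le_one
    exact ⟨e, he, by rw [h, norm_zero, zero_smul]⟩
  · have hn : ‖x‖ ≠ 0 := norm_ne_zero_iff.2 h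
    refine ⟨‖x‖⁻¹ • x, ?_, ?_⟩
    · rw [norm_smul, norm_inv, norm_norm, inv_mul_cancel₀ hn]
    · rw [smul_smul, mul_inv_cancel₀ hn, one_smul]

/-- the kernel is nonpositive on the weights with `∑ ν_j ‖p_j'‖ = 0` -/
private theorem pk_cnd {m R : ℕ} {C0 κ : ℝ} (hκ : 0 < κ)
    (hper : ∀ A : Cn n →ₗ[ℝ] Cn n, (∀ x y, (inner ℝ (A x) y : ℝ) = -inner ℝ x (A y)) →
      ∀ C : ℝ, (∀ x y, |(inner ℝ (A x) y : ℝ)| ≤ C * ‖x‖ * ‖y‖) →
      ∀ {ι : Type} [Fintype ι] (u : ι → Cn n), (∀ j, ‖u j‖ = 1) → ∀ lam : ι → ℝ,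
        ∑ j, lam j = 0 →
        |∑ j, ∑ k, lam j * lam k * ((inner ℝ (A (u j)) (u k) : ℝ) ^ 2 /
          √(1 - (inner ℝ (u j) (u k) : ℝ) ^ 2))| ≤
        κ * C ^ 2 * -(∑ j, ∑ k, lam j * lam k * √(1 - (inner ℝ (u j) (u k) : ℝ) ^ 2)))
    (η : Fin R → ℝ) (B : Fin R → (Cn n) [⋀^Fin (m + 2)]→ₗ[ℝ] ℝ) {M : Fin R → ℝ}
    (hM0 : ∀ r, 0 < M r)
    (hM : ∀ r, ∀ f : Fin (m + 2) → Cn n, (∀ a, ‖f a‖ ≤ 1) → |B r f| ≤ M r)
    (hη : κ * ∑ r, |η r| * M r ^ 2 ≤ C0) {W : Fin m → Cn n} (hW : 0 < GG W)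
    {ι : Type} [Fintype ι] (p : ι → Cn n) (ν : ι → ℝ) (hν : ∑ j, ν j * ‖pW W (p j)‖ = 0) :
    ∑ j, ∑ k, ν j * ν k * pk C0 η B (ws (p j) (p k) W) ≤ 0 := by
  rcases subsingleton_or_nontrivial (Cn n) with hs | hs
  · refine le_of_eq (Finset.sum_eq_zero fun j _ => Finset.sum_eq_zero fun k _ => ?_)
    rw [pk_zero, mul_zero]
    rw [GG_proj, Subsingleton.elim (pW W (p j)) 0, norm_zero, inner_zero_left]
    ring
  have hT : 0 < √(GG W) := Real.sqrt_pos.2 hW
  choose e he hpe using fun j => unit_ex (pW W (p j))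
  obtain ⟨lam, hlam⟩ : ∃ lam : ι → ℝ, ∀ j, lam j = ν j * ‖pW W (p j)‖ := ⟨_, fun _ => rfl⟩
  have hl0 : ∑ j, lam j = 0 := by
    rw [← hν]
    exact Finset.sum_congr rfl fun j _ => hlam j
  obtain ⟨K, hK⟩ : ∃ K : ℝ, K = -(∑ j, ∑ k, lam j * lam k *
    √(1 - (inner ℝ (e j) (e k) : ℝ) ^ 2)) := ⟨_, rfl⟩
  have hK0 : 0 ≤ K := by
    have h1 := hper 0 (fun x y => by simp) 1 (fun x y => by
      rw [LinearMap.zero_apply, inner_zero_left, abs_zero]
      positivity) e he lam hl0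
    rw [← hK] at h1
    have h2 := (abs_nonneg _).trans h1
    rw [one_pow, mul_one] at h2
    exact nonneg_of_mul_nonneg_right h2 hκ
  have hr : ∀ r, |∑ j, ∑ k, lam j * lam k * ((bW (B r) W (e j) (e k) / √(GG W)) ^ 2 /
      √(1 - (inner ℝ (e j) (e k) : ℝ) ^ 2))| ≤ κ * M r ^ 2 * K := by
    intro r
    obtain ⟨A, hA⟩ := op_ex (B r) W
    have hA' : ∀ x y, (inner ℝ (((√(GG W))⁻¹ • A) x) y : ℝ) = bW (B r) W x y / √(GG W) := by
      intro x y
      rw [LinearMap.smul_apply, real_inner_smul_left, hA]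
      ring
    have h1 := hper ((√(GG W))⁻¹ • A) (fun x y => by
      rw [real_inner_comm (((√(GG W))⁻¹ • A) y) x, hA', hA', bW_swap]
      ring) (M r) (fun x y => by
        rw [hA', abs_div, abs_of_pos hT, div_le_iff₀ hT]
        refine (bW_bd (B r) (hM0 r).le (hM r) W x y).trans (le_of_eq ?_)
        ring) e he lam hl0
    rw [← hK] at h1
    simpa only [hA'] using h1
  have hsum : ∑ j, ∑ k, ν j * ν k * pk C0 η B (ws (p j) (p k) W) =
      √(GG W) * (-(C0 * K) + ∑ r, η r * ∑ j, ∑ k, lam j * lam k *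
        ((bW (B r) W (e j) (e k) / √(GG W)) ^ 2 / √(1 - (inner ℝ (e j) (e k) : ℝ) ^ 2))) := by
    have h1 : ∀ j k, ν j * ν k * pk C0 η B (ws (p j) (p k) W) =
        √(GG W) * (C0 * (lam j * lam k * √(1 - (inner ℝ (e j) (e k) : ℝ) ^ 2)) +
          ∑ r, η r * (lam j * lam k * ((bW (B r) W (e j) (e k) / √(GG W)) ^ 2 /
            √(1 - (inner ℝ (e j) (e k) : ℝ) ^ 2)))) := by
      intro j k
      rw [pk_val C0 η B hW (norm_nonneg _) (norm_nonneg _) (he j) (he k) (hpe j) (hpe k),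
        hlam, hlam]
      have h2 : ∑ r, η r * (ν j * ‖pW W (p j)‖ * (ν k * ‖pW W (p k)‖) *
          ((bW (B r) W (e j) (e k) / √(GG W)) ^ 2 / √(1 - (inner ℝ (e j) (e k) : ℝ) ^ 2))) =
          ν j * ‖pW W (p j)‖ * (ν k * ‖pW W (p k)‖) * ∑ r, η r *
            ((bW (B r) W (e j) (e k) / √(GG W)) ^ 2 /
              √(1 - (inner ℝ (e j) (e k) : ℝ) ^ 2)) := by
        rw [Finset.mul_sum]
        exact Finset.sum_congr rfl fun r _ => by ring
      rw [h2]
      ring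
    simp only [h1]
    rw [hK]
    simp only [← Finset.mul_sum, Finset.sum_add_distrib]
    congr 1
    rw [mul_neg, neg_neg]
    congr 1
    have h3 : ∀ j, ∑ k, ∑ r, η r * (lam j * lam k *
        ((bW (B r) W (e j) (e k) / √(GG W)) ^ 2 / √(1 - (inner ℝ (e j) (e k) : ℝ) ^ 2))) =
        ∑ r, ∑ k, η r * (lam j * lam k *
        ((bW (B r) W (e j) (e k) / √(GG W)) ^ 2 / √(1 - (inner ℝ (e j) (e k) : ℝ) ^ 2))) :=
      fun j => Finset.sum_comm
    simp only [h3]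
    rw [Finset.sum_comm]
    simp only [← Finset.mul_sum]
  rw [hsum]
  refine mul_nonpos_of_nonneg_of_nonpos hT.le ?_
  have h4 : ∑ r, η r * ∑ j, ∑ k, lam j * lam k *
        ((bW (B r) W (e j) (e k) / √(GG W)) ^ 2 / √(1 - (inner ℝ (e j) (e k) : ℝ) ^ 2)) ≤
      ∑ r, |η r| * (κ * M r ^ 2 * K) := by
    refine Finset.sum_le_sum fun r _ => ?_
    refine (le_abs_self _).trans ?_
    rw [abs_mul]
    exact mul_le_mul_of_nonneg_left (hr r) (abs_nonneg _)
  have h5 : ∑ r, |η r| * (κ * M r ^ 2 * K) = (κ * ∑ r, |η r| * M r ^ 2) * K := by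
    rw [Finset.mul_sum, Finset.sum_mul]
    exact Finset.sum_congr rfl fun r _ => by ring
  have h6 := mul_le_mul_of_nonneg_right hη hK0
  linarith

theorem pk_hyp {m R : ℕ} {C0 : ℝ} (hC : 0 < C0)
    (B : Fin R → (Cn n) [⋀^Fin (m + 2)]→ₗ[ℝ] ℝ) :
    ∃ δ : ℝ, 0 < δ ∧ ∀ η : Fin R → ℝ, (∀ r, |η r| ≤ δ) →
      (∀ w : Fin (m + 2) → Cn n, C0 / 2 * √(GG w) ≤ pk C0 η B w) ∧
      ∀ (W : Fin m → Cn n) {ι : Type} [Fintype ι] (p : ι → Cn n) (u t : ι → ℝ),
        (∀ j, 0 ≤ t j) →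
        (∑ j, ∑ k, u j * u k * pk C0 η B (Fin.cons (p j) (Fin.cons (p k) W :
            Fin (m + 1) → Cn n) : Fin (m + 2) → Cn n)) *
          (∑ j, ∑ k, t j * t k * pk C0 η B (Fin.cons (p j) (Fin.cons (p k) W :
            Fin (m + 1) → Cn n) : Fin (m + 2) → Cn n)) ≤
        (∑ j, ∑ k, u j * t k * pk C0 η B (Fin.cons (p j) (Fin.cons (p k) W :
            Fin (m + 1) → Cn n) : Fin (m + 2) → Cn n)) ^ 2 := by
  obtain ⟨κ, hκ, hper⟩ := per (Cn n)
  choose M hM0 hM using fun r => Hyp_bd (B r)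
  obtain ⟨S, hS⟩ : ∃ S : ℝ, S = ∑ r, M r ^ 2 := ⟨_, rfl⟩
  have hS0 : 0 ≤ S := by
    rw [hS]
    exact Finset.sum_nonneg fun r _ => sq_nonneg _
  have hden : 0 < 2 * (1 + κ) * (1 + S) := by positivity
  refine ⟨C0 / (2 * (1 + κ) * (1 + S)), div_pos hC hden, fun η hη => ?_⟩
  have h1 : ∑ r, |η r| * M r ^ 2 ≤ C0 / (2 * (1 + κ) * (1 + S)) * S := by
    rw [hS, Finset.mul_sum, ← hS]
    exact Finset.sum_le_sum fun r _ => mul_le_mul_of_nonneg_right (hη r) (sq_nonneg _)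
  have h2 : C0 / (2 * (1 + κ) * (1 + S)) * S ≤ C0 / (2 * (1 + κ)) := by
    rw [div_mul_eq_mul_div, div_le_div_iff₀ hden (by positivity)]
    have : C0 * S * (2 * (1 + κ)) ≤ C0 * (1 + S) * (2 * (1 + κ)) :=
      mul_le_mul_of_nonneg_right (mul_le_mul_of_nonneg_left (by linarith) hC.le) (by positivity)
    refine this.trans (le_of_eq ?_)
    ring
  have h3 : ∑ r, |η r| * M r ^ 2 ≤ C0 / (2 * (1 + κ)) := h1.trans h2
  have h4 : ∑ r, |η r| * M r ^ 2 ≤ C0 / 2 := by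
    refine h3.trans ?_
    rw [div_le_div_iff₀ (by positivity) two_pos]
    have := mul_nonneg hC.le hκ.le
    linarith
  have h5 : κ * ∑ r, |η r| * M r ^ 2 ≤ C0 := by
    refine (mul_le_mul_of_nonneg_left h3 hκ.le).trans ?_
    rw [← mul_div_assoc, div_le_iff₀ (by positivity)]
    have := mul_nonneg hC.le hκ.le
    linarith
  have hlow : ∀ w : Fin (m + 2) → Cn n, C0 / 2 * √(GG w) ≤ pk C0 η B w := by
    intro w
    have hG := Hyp_GG_nonneg w
    have h6 : |∑ r, η r * ((B r w) ^ 2 / √(GG w))| ≤ (∑ r, |η r| * M r ^ 2) * √(GG w) := by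
      refine (Finset.abs_sum_le_sum_abs _ _).trans ?_
      rw [Finset.sum_mul]
      refine Finset.sum_le_sum fun r _ => ?_
      rw [abs_mul, mul_assoc]
      refine mul_le_mul_of_nonneg_left ?_ (abs_nonneg _)
      rw [abs_of_nonneg (div_nonneg (sq_nonneg _) (Real.sqrt_nonneg _))]
      refine div_le_of_le_mul₀ (Real.sqrt_nonneg _)
        (mul_nonneg (sq_nonneg _) (Real.sqrt_nonneg _)) ?_
      rw [mul_assoc, Real.mul_self_sqrt hG]
      exact Hyp_sq (B r) (hM r) w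
    have h7 := mul_le_mul_of_nonneg_right h4 (Real.sqrt_nonneg (GG w))
    have h8 := (abs_le.1 h6).1
    unfold pk
    linarith
  refine ⟨hlow, fun W ι _ p u t ht => ?_⟩
  rcases (GG_W_nonneg W).eq_or_lt with hW | hW
  · have h6 : ∀ j k, pk C0 η B (Fin.cons (p j) (Fin.cons (p k) W :
            Fin (m + 1) → Cn n) : Fin (m + 2) → Cn n) = 0 := fun j k => by
      refine pk_zero C0 η B ?_
      have := GG_proj W (p j) (p k)
      rwa [← hW, mul_zero] at this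
    simp only [h6, mul_zero, Finset.sum_const_zero]
    simp
  · refine hyperbolic (fun j k => pk C0 η B (ws (p j) (p k) W))
      (fun j k => pk_symm C0 η B W _ _) (fun j => ‖pW W (p j)‖) ?_ u t ?_
    · intro v hv
      exact pk_cnd hκ hper η B hM0 hM h5 hW p v hv
    · refine Finset.sum_nonneg fun j _ => Finset.sum_nonneg fun k _ => ?_
      refine mul_nonneg (mul_nonneg (ht j) (ht k)) (le_trans ?_ (hlow _))
      exact mul_nonneg (by linarith) (Real.sqrt_nonneg _)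

end Pool.Agent.H35.NI
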