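import Mathlib
import Pool.Agent.H35.NI.Lin

set_option autoImplicit false

/-!
# Quad: `dz w z` is a linear combination of squares of alternating forms

For a bilinear form `T` on a finite dimensional real space `V` the function
`(x, y) ↦ det (T (x a) (y b))` is an alternating map `F` of `x` with values in the
(finite dimensional) space of alternating forms.  With a basis `b_r` of this space,
`F w w = ∑ c_r(w) b_r(w)`, `c_r(x)` the coordinates of `F x` (alternating in `x`), and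
`c_r b_r = ((c_r + b_r)/2)² - ((c_r - b_r)/2)²`.
-/

open MeasureTheory Pool.Agent.H61.UProj Pool.Agent.H89.CZ

noncomputable section

namespace Pool.Agent.H35.NI

variable {n i : ℕ}

section Gen

variable {V : Type*} [AddCommGroup V] [Module ℝ V]

/-- `y ↦ det (T (x a) (y b))`. -/
private def detR (T : V →ₗ[ℝ] V →ₗ[ℝ] ℝ) (x : Fin i → V) : V [⋀^Fin i]→ₗ[ℝ] ℝ :=
  (Matrix.detRowAlternating (R := ℝ) (n := Fin i)).compLinearMap
    (LinearMap.pi fun a => T (x a))

private theorem detR_apply (T : V →ₗ[ℝ] V →ₗ[ℝ] ℝ) (x y : Fin i → V) :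
    detR T x y = (Matrix.of fun a b => T (x a) (y b)).det := by
  rw [← Matrix.det_transpose]
  rfl

/-- `x ↦ det (T (x a) (y b))`. -/
private def detL (T : V →ₗ[ℝ] V →ₗ[ℝ] ℝ) (y : Fin i → V) : V [⋀^Fin i]→ₗ[ℝ] ℝ :=
  (Matrix.detRowAlternating (R := ℝ) (n := Fin i)).compLinearMap
    (LinearMap.pi fun b => T.flip (y b))

private theorem detL_apply (T : V →ₗ[ℝ] V →ₗ[ℝ] ℝ) (x y : Fin i → V) :
    detL T y x = (Matrix.of fun a b => T (x a) (y b)).det := rfl

private theorem detRL (T : V →ₗ[ℝ] V →ₗ[ℝ] ℝ) (x y : Fin i → V) :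
    detR T x y = detL T y x := by
  rw [detR_apply, detL_apply]

/-- `detR` as an alternating map. -/
private def detA (T : V →ₗ[ℝ] V →ₗ[ℝ] ℝ) : V [⋀^Fin i]→ₗ[ℝ] (V [⋀^Fin i]→ₗ[ℝ] ℝ) where
  toFun x := detR T x
  map_update_add' x a u v := by
    ext y
    simp only [AlternatingMap.add_apply, detRL]
    convert (detL T y).map_update_add x a u v
  map_update_smul' x a c u := by
    ext y
    simp only [AlternatingMap.smul_apply, detRL]
    convert (detL T y).map_update_smul x a c u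
  map_eq_zero_of_eq' x a b hab hne := by
    ext y
    simp only [AlternatingMap.zero_apply, detRL]
    exact (detL T y).map_eq_zero_of_eq x hab hne

private theorem fin_alt [Module.Finite ℝ V] : Module.Finite ℝ (V [⋀^Fin i]→ₗ[ℝ] ℝ) := by
  let L : (V [⋀^Fin i]→ₗ[ℝ] ℝ) →ₗ[ℝ] MultilinearMap ℝ (fun _ : Fin i => V) ℝ :=
    { toFun := fun f => (f : MultilinearMap ℝ (fun _ : Fin i => V) ℝ)
      map_add' := fun _ _ => rfl
      map_smul' := fun _ _ => rfl }
  exact Module.Finite.of_injective L fun f g h =>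
    AlternatingMap.coe_multilinearMap_injective h

private theorem det_quad [Module.Finite ℝ V] (T : V →ₗ[ℝ] V →ₗ[ℝ] ℝ) :
    ∃ (R : ℕ) (ε : Fin R → ℝ) (B : Fin R → V [⋀^Fin i]→ₗ[ℝ] ℝ),
      ∀ w : Fin i → V, (Matrix.of fun a b => T (w a) (w b)).det = ∑ r, ε r * (B r w) ^ 2 := by
  have := fin_alt (V := V) (i := i)
  set b := Module.finBasis ℝ (V [⋀^Fin i]→ₗ[ℝ] ℝ) with hb
  set m := Module.finrank ℝ (V [⋀^Fin i]→ₗ[ℝ] ℝ) with hm
  set c : Fin m → V [⋀^Fin i]→ₗ[ℝ] ℝ := fun r => (b.coord r).compAlternatingMap (detA T) with hc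
  have h1 : ∀ w : Fin i → V,
      (Matrix.of fun a b => T (w a) (w b)).det = ∑ r, c r w * b r w := by
    intro w
    have h2 := b.sum_repr (detA T w)
    have h3 : detA T w w = (Matrix.of fun a b => T (w a) (w b)).det := detR_apply T w w
    let ev : (V [⋀^Fin i]→ₗ[ℝ] ℝ) →ₗ[ℝ] ℝ :=
      { toFun := fun f => f w, map_add' := fun _ _ => rfl, map_smul' := fun _ _ => rfl }
    have h4 : ev (∑ r, b.repr (detA T w) r • b r) = ev (detA T w) := congrArg ev h2
    rw [map_sum] at h4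
    rw [← h3]
    exact h4.symm
  refine ⟨m + m, Fin.append (fun _ => 1) (fun _ => -1),
    Fin.append (fun r => (1 / 2 : ℝ) • (c r + b r)) (fun r => (1 / 2 : ℝ) • (c r - b r)),
    fun w => ?_⟩
  rw [h1, Fin.sum_univ_add, ← Finset.sum_add_distrib]
  refine Finset.sum_congr rfl fun r _ => ?_
  simp only [Fin.append_left, Fin.append_right, AlternatingMap.smul_apply,
    AlternatingMap.add_apply, AlternatingMap.sub_apply, smul_eq_mul]
  ring

end Gen

/-- `⟨x, y⟩ + z om(x, y)` as a bilinear map. -/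
private def Tz (z : ℝ) : Cn n →ₗ[ℝ] Cn n →ₗ[ℝ] ℝ :=
  LinearMap.mk₂ ℝ (fun x y => (inner ℝ x y : ℝ) + z * om x y)
    (fun x x' y => by rw [inner_add_left, om_add_left]; ring)
    (fun c x y => by rw [real_inner_smul_left, om_smul_left, smul_eq_mul]; ring)
    (fun x y y' => by rw [inner_add_right, om_add_right]; ring)
    (fun c x y => by rw [real_inner_smul_right, om_smul_right, smul_eq_mul]; ring)

theorem dz_quad (z : ℝ) : ∃ (R : ℕ) (ε : Fin R → ℝ) (B : Fin R → (Cn n) [⋀^Fin i]→ₗ[ℝ] ℝ),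
    ∀ w : Fin i → Cn n, dz w z = ∑ r, ε r * (B r w) ^ 2 := by
  obtain ⟨R, ε, B, h⟩ := det_quad (V := Cn n) (i := i) (Tz z)
  exact ⟨R, ε, B, fun w => h w⟩

end Pool.Agent.H35.NI
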