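import Mathlib
import Pool.Agent.H35.NI.Ext
import Pool.Agent.H35.NI.Quad
import Pool.Agent.H35.NI.Hyp
import Pool.Agent.H35.NI.BMI
import Pool.Agent.H61.UProj.StmtEquiv

set_option autoImplicit false

/-!
# Main: assembly

`e0`, `C0` from `exists_constA`, `Γ` from `gg_strA`, `β_l(e) = ∑_k Γ k l dz e k` (continuous in
`e`), `B` = the forms of `dz_quad` for `z = l = 0, …, n` together.  For orthonormal `e`:
`gg e w √G = C0 G + ∑_l (β_l(e) - β_l(e0)) dz w l`, so `gg e w = pk C0 η B w` with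
`η_(l,r) = (β_l(e) - β_l(e0)) ε_(l,r)` (if `G = 0` both sides vanish).  `pk_hyp`, `bm_zonoidI`.
-/

open MeasureTheory Pool.Agent.H61.UProj Pool.Agent.H89.CZ
open scoped ENNReal Pointwise

noncomputable section

namespace Pool.Agent.H35.NI

private theorem main_key {n i : ℕ} (hi : 0 < i) (hin : i < 2 * n) :
    ∃ (e0 : Fin i → Cn n) (C0 : ℝ) (R : ℕ) (B : Fin R → (Cn n) [⋀^Fin i]→ₗ[ℝ] ℝ)
      (η : (Fin i → Cn n) → Fin R → ℝ), Orthonormal ℝ e0 ∧ 0 < C0 ∧
      (∀ r, Continuous fun e => η e r) ∧ (∀ r, η e0 r = 0) ∧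
      ∀ e : Fin i → Cn n, Orthonormal ℝ e → ∀ w, gg e w = pk C0 (η e) B w := by
  obtain ⟨Γ, hΓ⟩ := gg_strA hi hin
  obtain ⟨e0, C0, he0, hC0, hc⟩ := exists_constA hi hin
  choose R ε B hB using fun l : ℕ => dz_quad (n := n) (i := i) (l : ℝ)
  set β : (Fin i → Cn n) → ℕ → ℝ := fun e l => ∑ k ∈ Finset.range (n + 1), Γ k l * dz e k
    with hβ
  set S := (Σ l : Fin (n + 1), Fin (R l)) with hS
  set φ : S ≃ Fin (Fintype.card S) := Fintype.equivFin S with hφ
  refine ⟨e0, C0, Fintype.card S, fun q => B (φ.symm q).1 (φ.symm q).2,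
    fun e q => (β e (φ.symm q).1 - β e0 (φ.symm q).1) * ε (φ.symm q).1 (φ.symm q).2,
    he0, hC0, ?_, ?_, ?_⟩
  · intro r
    refine Continuous.mul ?_ continuous_const
    refine Continuous.sub ?_ continuous_const
    simp only [hβ]
    exact continuous_finset_sum _ fun k _ => continuous_const.mul (continuous_dz (k : ℝ))
  · intro r
    simp
  · intro e he w
    have hsum : ∑ q : Fin (Fintype.card S), (β e (φ.symm q).1 - β e0 (φ.symm q).1) *
        ε (φ.symm q).1 (φ.symm q).2 * ((B (φ.symm q).1 (φ.symm q).2 w) ^ 2 / √(GG w)) =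
        (∑ l ∈ Finset.range (n + 1), (β e l - β e0 l) * dz w l) / √(GG w) := by
      rw [Equiv.sum_comp φ.symm (fun p : S => (β e p.1 - β e0 p.1) *
        ε p.1 p.2 * ((B p.1 p.2 w) ^ 2 / √(GG w)))]
      rw [Fintype.sum_sigma, Finset.sum_range, Finset.sum_div]
      refine Finset.sum_congr rfl fun l _ => ?_
      rw [hB l w, Finset.mul_sum, Finset.sum_div]
      refine Finset.sum_congr rfl fun r _ => ?_
      ring
    unfold pk
    rw [hsum]
    rcases frame hi w with ⟨h1, h2, h3⟩ | ⟨f, t, hf, ht, hG, -, -⟩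
    · have h4 : gg e w = 0 := by
        unfold gg
        simp [h2]
      rw [h4, h1]
      simp
    · have hs : √(GG w) = t := by rw [hG, Real.sqrt_sq ht.le]
      have e1 := hΓ e he w
      have e2 := hΓ e0 he0 w
      rw [hc w, hs] at e2
      rw [hs] at e1 ⊢
      have e3 : ∑ l ∈ Finset.range (n + 1), (β e l - β e0 l) * dz w l =
          gg e w * t - C0 * t * t := by
        rw [e1, e2, ← Finset.sum_sub_distrib]
        refine Finset.sum_congr rfl fun l _ => ?_
        simp only [hβ]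
        ring
      rw [e3]
      field_simp
      ring

theorem mainI (n i : ℕ) (hi : 2 ≤ i) (hin : i + 2 ≤ 2 * n) : ∃ e0 : Fin i → Cn n, Orthonormal ℝ e0 ∧
    ∃ ε : ℝ, 0 < ε ∧ ∀ (E : Submodule ℝ (Cn n)) (e : Fin i → Cn n), SD.IsONB e E →
      (∀ a, ‖e a - e0 a‖ < ε) → SD.HasBMZonoid E := by
  obtain ⟨m, rfl⟩ : ∃ m, i = m + 2 := ⟨i - 2, by omega⟩
  obtain ⟨e0, C0, R, B, η, he0, hC0, hηc, hη0, hgg⟩ :=
    main_key (n := n) (i := m + 2) (by omega) (by omega)
  refine ⟨e0, he0, ?_⟩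
  obtain ⟨δ, hδ, hpk⟩ := pk_hyp hC0 B
  -- the neighbourhood
  have hcont : Continuous fun e : Fin (m + 2) → Cn n => ∑ r, |η e r| :=
    continuous_finset_sum _ fun r _ => (hηc r).abs
  have h0 : (fun e : Fin (m + 2) → Cn n => ∑ r, |η e r|) e0 < δ := by
    simp [hη0, hδ]
  obtain ⟨ε, hε, hball⟩ := Metric.eventually_nhds_iff.1
    (hcont.continuousAt.eventually (gt_mem_nhds h0))
  refine ⟨ε, hε, ?_⟩
  intro E e he hnear
  obtain ⟨hon, hsp⟩ := he
  have hdist : dist e e0 < ε := by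
    rw [dist_pi_lt_iff hε]
    intro a
    rw [dist_eq_norm]
    exact hnear a
  have hηδ : ∀ r, |η e r| ≤ δ := by
    intro r
    refine le_trans ?_ (hball hdist).le
    exact Finset.single_le_sum (f := fun r => |η e r|) (fun r _ => abs_nonneg _)
      (Finset.mem_univ r)
  obtain ⟨hpos, hhyp⟩ := hpk (η e) hηδ
  obtain ⟨J, hJe, hJ⟩ := exists_iso hon
  rw [hsp] at hJ
  have hfr : Module.finrank ℝ E = m + 2 := by
    rw [← hsp, finrank_span_eq_card hon.linearIndependent, Fintype.card_fin]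
  have hJe' : (fun k => J (EuclideanSpace.single k 1)) = e := by
    funext k
    rw [hJe, Finset.sum_eq_single k]
    · simp
    · intro j _ hj
      simp [hj]
    · intro hk
      exact absurd (Finset.mem_univ k) hk
  intro K L hK hL hKz hLz
  have h4 := bm_zonoidI J (by
      refine ⟨C0 / 2, by positivity, fun w => ?_⟩
      rw [hJe', hgg e hon w]
      exact hpos w) (by
      intro W N p u t ht
      simp only [hJe', hgg e hon]
      exact hhyp W p u t ht) hKz hLz
  have hp : (1 / (Module.finrank ℝ E : ℝ)) = 1 / ((m : ℝ) + 2) := by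
    rw [hfr]
    push_cast
    ring
  rw [hp, Stmt.VE_eq, Stmt.VE_eq, Stmt.VE_eq]
  rw [hJ] at h4
  exact h4

end Pool.Agent.H35.NI
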